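import Mathlib
import Pool.Agent.W793.YM.Lat2

/-!
# Integrals of matrices
-/

open MeasureTheory Matrix
open scoped Matrix.Norms.Frobenius ContDiff
open Pool.Agent.H906R3.YM Pool.Agent.W793.YM

namespace Pool.Agent.TH190.YV

set_option linter.unusedSectionVars false
set_option linter.unusedVariables false

noncomputable section

variable {N : ℕ}

/-- basis matrices -/
def Ec (c : Fin N × Fin N × Bool) : Mat N :=
  Matrix.single c.1 c.2.1 (if c.2.2 then 1 else Complex.I)

lemma co_eq (c : Fin N × Fin N × Bool) (M : Mat N) :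
    co c M = if c.2.2 then (M c.1 c.2.1).re else (M c.1 c.2.1).im := rfl

lemma ip_Ec (u : Mat N) (c : Fin N × Fin N × Bool) : ip u (Ec c) = co c u := by
  obtain ⟨i, j, b⟩ := c
  rw [ip_apply, co_eq]
  unfold Ec
  have h1 : trace (uᴴ * Matrix.single i j (if b then (1 : ℂ) else Complex.I)) =
      star (u i j) * (if b then (1 : ℂ) else Complex.I) := by
    rw [Matrix.trace_mul_comm, Matrix.trace_single_mul, conjTranspose_apply]
    ring
  simp only
  rw [h1]
  cases b <;> simp

lemma mat_eq (M : Mat N) : M = ∑ c, co c M • Ec c := by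
  have h : ∀ u : Mat N, ip u (M - ∑ c, co c M • Ec c) = 0 := by
    intro u
    rw [map_sub, map_sum]
    simp only [map_smul, ip_Ec, smul_eq_mul]
    have h1 := sum_co_mul M u
    have h2 : ip u M = (trace (M * uᴴ)).re := by rw [ip_apply, trace_mul_comm]
    rw [h2, ← h1, sub_self]
  have h3 := h (M - ∑ c, co c M • Ec c)
  rw [← norm_sq_ip] at h3
  have h4 : ‖M - ∑ c, co c M • Ec c‖ = 0 := by
    exact pow_eq_zero_iff two_ne_zero |>.1 h3
  exact sub_eq_zero.1 (norm_eq_zero.1 h4)

lemma ip_ext {A B : Mat N} (h : ∀ u, ip u A = ip u B) : A = B := by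
  rw [mat_eq A, mat_eq B]
  refine Finset.sum_congr rfl fun c _ => ?_
  have h1 : ∀ M : Mat N, co c M = ip (Ec c) M := fun M => by rw [ip_comm, ip_Ec]
  rw [h1, h1, h]

/-- the integral of a matrix valued function -/
def mint {X : Type*} [MeasurableSpace X] (ν : Measure X) (F : X → Mat N) : Mat N :=
  ∑ c, (∫ x, co c (F x) ∂ν) • Ec c

section

variable {X : Type*} [TopologicalSpace X] [CompactSpace X] [MeasurableSpace X]
  [OpensMeasurableSpace X] {ν : Measure X} [IsFiniteMeasure ν] {F : X → Mat N}

lemma ip_mint (u : Mat N) (hF : Continuous F) : ip u (mint ν F) = ∫ x, ip u (F x) ∂ν := by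
  unfold mint
  rw [map_sum]
  simp only [map_smul, ip_Ec, smul_eq_mul]
  have h1 : ∀ x, ip u (F x) = ∑ c, co c u * co c (F x) := by
    intro x
    rw [sum_co_mul, ip_comm, ip_apply, trace_mul_comm]
  simp only [h1]
  rw [integral_finset_sum]
  · refine Finset.sum_congr rfl fun c _ => ?_
    rw [integral_const_mul]; ring
  · intro c _
    exact cont_integrable (continuous_const.mul ((co c).continuous.comp hF))

end

end

end Pool.Agent.TH190.YV
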