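import Mathlib
import Pool.Agent.W793.YM.Lat2

/-!
# One time slab: vector fields and derivatives of the action
-/

open MeasureTheory Matrix
open scoped Matrix.Norms.Frobenius ContDiff
open Pool.Agent.H906R3.YM Pool.Agent.W793.YM

namespace Pool.Agent.TH190.YV

set_option linter.unusedSectionVars false
set_option linter.unusedVariables false

noncomputable section

/-- data of a slab: `src`, `tgt` are the vertical links of a plaquette, `vr`, `vl` the spatial ones -/
structure Slab (S ι G : Type*) where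
  src : ι → S
  tgt : ι → S
  vr : ι → G
  vl : ι → G

variable {G : Type*} [Group G] [TopologicalSpace G] [IsTopologicalGroup G] [CompactSpace G]
  [SecondCountableTopology G] [MeasurableSpace G] [BorelSpace G] (μ : Measure G)
  [IsProbabilityMeasure μ] [μ.IsMulLeftInvariant] [μ.IsMulRightInvariant] [μ.IsInvInvariant]
  {N n : ℕ} {L : LD G N n}
  {S ι : Type*} [Fintype S] [DecidableEq S] [Fintype ι]

/-- the plaquette -/
def Slab.U (T : Slab S ι G) (g : S → G) (e : ι) : G :=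
  g (T.src e) * T.vr e * (g (T.tgt e))⁻¹ * (T.vl e)⁻¹

variable (L) in
/-- the action of the slab -/
def Slab.act (T : Slab S ι G) (g : S → G) : ℝ := ∑ e, we L (T.U g e)

variable (L) in
/-- the transported generator -/
def YY (p : G) (a : Fin n) : Mat N := L.rho p * L.X a * (L.rho p)ᴴ

lemma YY_skew (p : G) (a : Fin n) : (YY L p a)ᴴ = -YY L p a := by
  unfold YY
  rw [conjTranspose_mul, conjTranspose_mul, conjTranspose_conjTranspose, skew]
  simp only [neg_mul, mul_neg, Matrix.mul_assoc]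

lemma norm_ctmul (p : G) (A : Mat N) : ‖A * (L.rho p)ᴴ‖ = ‖A‖ := by
  rw [← L.rho_inv]; exact norm_rmul _ _

lemma norm_YY (p : G) (a : Fin n) : ‖YY L p a‖ = 1 := by
  unfold YY
  rw [norm_ctmul, norm_lmul, norm_X]

lemma norm_YY_mul (p : G) (a : Fin n) (A : Mat N) : ‖YY L p a * A‖ ≤ ‖A‖ := by
  refine (norm_mul_le _ _).trans ?_
  rw [norm_YY, one_mul]

lemma norm_mul_YY (p : G) (a : Fin n) (A : Mat N) : ‖A * YY L p a‖ ≤ ‖A‖ := by
  refine (norm_mul_le _ _).trans ?_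
  rw [norm_YY, mul_one]

lemma YY_orth (p : G) (a b : Fin n) : ip 1 (YY L p a * YY L p b) = -(if a = b then 1 else 0) := by
  rw [ip_apply, conjTranspose_one, one_mul]
  unfold YY
  have h1 : L.rho p * L.X a * (L.rho p)ᴴ * (L.rho p * L.X b * (L.rho p)ᴴ) =
      L.rho p * (L.X a * L.X b) * (L.rho p)ᴴ := by
    calc _ = L.rho p * L.X a * ((L.rho p)ᴴ * L.rho p) * L.X b * (L.rho p)ᴴ := by noncomm_ring
      _ = _ := by rw [L.unit']; noncomm_ring
  rw [h1, trace_mul_comm, ← mul_assoc, L.unit', one_mul]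
  have h2 := ip_X (L := L) a b
  rw [ip_apply, skew, neg_mul, trace_neg, Complex.neg_re] at h2
  linarith

/-- close transports -/
lemma YY_close (p q : G) (a : Fin n) : ‖YY L q a - YY L p a‖ ≤ 2 * dv L (p⁻¹ * q) := by
  have h1 : YY L q a = L.rho p * YY L (p⁻¹ * q) a * (L.rho p)ᴴ := by
    unfold YY
    have e : q = p * (p⁻¹ * q) := by group
    conv_lhs => rw [e, L.rho.map_mul p]
    rw [conjTranspose_mul]
    simp only [Matrix.mul_assoc]
  have h2 : YY L p a = L.rho p * L.X a * (L.rho p)ᴴ := rfl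
  rw [h1, h2, ← sub_mul, ← mul_sub, norm_ctmul, norm_lmul]
  obtain ⟨r, hr⟩ : ∃ r, r = p⁻¹ * q := ⟨_, rfl⟩
  rw [← hr]
  have h3 : YY L r a - L.X a = ((L.rho r - 1) * L.X a - L.X a * (L.rho r - 1)) * (L.rho r)ᴴ := by
    unfold YY
    have e1 : L.rho r * (L.rho r)ᴴ = 1 := L.unit r
    calc L.rho r * L.X a * (L.rho r)ᴴ - L.X a =
        L.rho r * L.X a * (L.rho r)ᴴ - L.X a * (L.rho r * (L.rho r)ᴴ) := by rw [e1, mul_one]
      _ = _ := by noncomm_ring
  rw [h3, norm_ctmul]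
  refine (norm_sub_le _ _).trans ?_
  have b1 := norm_mul_le (L.rho r - 1) (L.X a)
  have b2 := norm_mul_le (L.X a) (L.rho r - 1)
  rw [norm_X] at b1 b2
  have b3 : ‖L.rho r - 1‖ = dv L r := rfl
  rw [b3] at b1 b2
  linarith

/-! ### the vector fields -/

variable (L) in
/-- the vector field `g_s ↦ exp (t f_s Y_s) g_s` -/
def vd (P : S → G) (f : S → ℝ) (a : Fin n) (F : Sm L S) : Sm L S :=
  ∑ s, ∑ b, (f s * L.adm (P s) b a) • L.Dv (s, b) F

variable {P : S → G} {f : S → ℝ} {a : Fin n}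

lemma vd_add (F H : Sm L S) : vd L P f a (F + H) = vd L P f a F + vd L P f a H := by
  unfold vd
  simp only [map_add, smul_add, Finset.sum_add_distrib]

lemma vd_smul (c : ℝ) (F : Sm L S) : vd L P f a (c • F) = c • vd L P f a F := by
  unfold vd
  simp only [Derivation.map_smul, Finset.smul_sum]
  refine Finset.sum_congr rfl fun s _ => Finset.sum_congr rfl fun b _ => ?_
  rw [smul_comm]

lemma vd_sum {κ : Type*} (s : Finset κ) (F : κ → Sm L S) :
    vd L P f a (∑ k ∈ s, F k) = ∑ k ∈ s, vd L P f a (F k) := by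
  classical
  induction s using Finset.induction_on with
  | empty =>
    simp only [Finset.sum_empty]
    unfold vd
    simp only [map_zero, smul_zero, Finset.sum_const_zero]
  | insert k s hk ih => rw [Finset.sum_insert hk, Finset.sum_insert hk, vd_add, ih]

lemma vd_mul (F H : Sm L S) : vd L P f a (F * H) = F * vd L P f a H + H * vd L P f a F := by
  unfold vd
  simp only [Derivation.leibniz, smul_eq_mul, smul_add, Finset.sum_add_distrib, Finset.mul_sum]
  congr 1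
  · refine Finset.sum_congr rfl fun s _ => Finset.sum_congr rfl fun b _ => ?_
    rw [mul_smul_comm]
  · refine Finset.sum_congr rfl fun s _ => Finset.sum_congr rfl fun b _ => ?_
    rw [mul_smul_comm]

lemma vd_sexp (F : Sm L S) : vd L P f a (sexp F) = sexp F * vd L P f a F := by
  unfold vd
  rw [Finset.mul_sum]
  refine Finset.sum_congr rfl fun s _ => ?_
  rw [Finset.mul_sum]
  refine Finset.sum_congr rfl fun b _ => ?_
  rw [Dv_sexp, mul_smul_comm]

lemma I_vd (F : Sm L S) : L.I μ (vd L P f a F) = 0 := by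
  unfold vd
  rw [map_sum]
  refine Finset.sum_eq_zero fun s _ => ?_
  rw [map_sum]
  refine Finset.sum_eq_zero fun b _ => ?_
  rw [map_smul, I_D_zero, smul_zero]

lemma vd_val (F : Sm L S) (g : S → G) :
    (vd L P f a F).1 g = ∑ s, ∑ b, f s * L.adm (P s) b a * (L.Dv (s, b) F).1 g := by
  unfold vd
  rw [ev_sum]
  refine Finset.sum_congr rfl fun s _ => ?_
  rw [ev_sum]
  rfl

lemma vd_const (c : ℝ) : vd L P f a (algebraMap ℝ (Sm L S) c) = 0 := by
  unfold vd
  refine Finset.sum_eq_zero fun s _ => Finset.sum_eq_zero fun b _ => ?_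
  rw [Derivation.map_algebraMap, smul_zero]

/-- the elementary matrix function -/
lemma SmM_two (x y : S) (B : Mat N) :
    SmM L fun g : S → G => L.rho (g x) * B * (L.rho (g y))ᴴ :=
  ((SmM.link x).mul (SmM.const B)).mul (SmM.link y).ct

lemma hasDeriv_link (x s : S) (b : Fin n) (g : S → G) :
    HasDerivAt (fun t => L.rho (L.shift s b t g x)) (if x = s then L.X b * L.rho (g x) else 0) 0 := by
  have h := hasDerivAt_pi.1 (L.hasDerivAt_mat s b g) x
  have h2 : L.vf s b (L.mat g) x = if x = s then L.X b * L.rho (g x) else 0 := by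
    unfold LD.vf LD.mat
    split_ifs with hx
    · subst hx; rw [Pi.single_eq_same]
    · rw [Pi.single_eq_of_ne hx]
  rw [← h2]
  exact h

lemma vd_two (ℓ : Mat N →L[ℝ] ℝ) (x y : S) (B : Mat N) (g : S → G) :
    (vd L P f a (Pool.Agent.H906R3.YM.lin ℓ _ (SmM_two (L := L) x y B))).1 g =
      ℓ (f x • (YY L (P x) a * (L.rho (g x) * B * (L.rho (g y))ᴴ)) -
        f y • ((L.rho (g x) * B * (L.rho (g y))ᴴ) * YY L (P y) a)) := by
  rw [vd_val]
  have hd : ∀ s b, (L.Dv (s, b) (Pool.Agent.H906R3.YM.lin ℓ _ (SmM_two (L := L) x y B))).1 g =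
      ℓ ((if x = s then L.X b * L.rho (g x) else 0) * B * (L.rho (g y))ᴴ +
        L.rho (g x) * B * (if y = s then L.X b * L.rho (g y) else 0)ᴴ) := by
    intro s b
    have h1 := hasDeriv_link (L := L) x s b g
    have h2 := hasDeriv_ct (hasDeriv_link (L := L) y s b g)
    have h3 := (h1.mul_const B).mul h2
    refine Dv_lin ℓ _ _ (s, b) g (h3.congr_deriv ?_)
    simp only [L.shift_zero]
  simp only [hd]
  have h4 : ∀ s b, f s * L.adm (P s) b a * ℓ ((if x = s then L.X b * L.rho (g x) else 0) * B *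
      (L.rho (g y))ᴴ + L.rho (g x) * B * (if y = s then L.X b * L.rho (g y) else 0)ᴴ) =
      (if x = s then ℓ (f x • (L.adm (P x) b a • L.X b) * (L.rho (g x) * B * (L.rho (g y))ᴴ))
        else 0) - (if y = s then ℓ ((L.rho (g x) * B * (L.rho (g y))ᴴ) *
          (f y • (L.adm (P y) b a • L.X b))) else 0) := by
    intro s b
    rw [map_add, mul_add, sub_eq_add_neg]
    congr 1
    · by_cases hx : x = s
      · subst hx
        simp only [if_true]
        rw [smul_mul_assoc, smul_mul_assoc, map_smul, map_smul, smul_eq_mul, smul_eq_mul]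
        simp only [Matrix.mul_assoc]
        ring
      · simp only [if_neg hx]
        rw [zero_mul, zero_mul, map_zero, mul_zero]
    · by_cases hy : y = s
      · subst hy
        simp only [if_true]
        rw [conjTranspose_mul, skew, mul_smul_comm, mul_smul_comm, map_smul, map_smul, smul_eq_mul,
          smul_eq_mul]
        simp only [mul_neg, map_neg, Matrix.mul_assoc]
        ring
      · simp only [if_neg hy]
        rw [conjTranspose_zero, mul_zero, map_zero, mul_zero, neg_zero]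
  simp only [h4, Finset.sum_sub_distrib]
  have h5 : ∀ (z : S) (H : Fin n → ℝ), ∑ s, ∑ b, (if z = s then H b else 0) = ∑ b, H b := by
    intro z H
    rw [Finset.sum_eq_single z]
    · simp
    · intro s _ hs
      exact Finset.sum_eq_zero fun b _ => if_neg (fun h => hs h.symm)
    · intro h; exact absurd (Finset.mem_univ _) h
  rw [h5, h5, map_sub]
  congr 1
  · rw [← map_sum, ← Finset.sum_mul, ← Finset.smul_sum]
    unfold YY
    rw [conj_eq, smul_mul_assoc]
  · rw [← map_sum, ← Finset.mul_sum, ← Finset.smul_sum]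
    unfold YY
    rw [conj_eq, mul_smul_comm]

/-! ### plaquettes -/

/-- multiplication with a matrix from the right -/
def rmL (C : Mat N) : Mat N →L[ℝ] Mat N :=
  LinearMap.toContinuousLinearMap
    { toFun := fun A => A * C
      map_add' := fun A B => add_mul A B C
      map_smul' := fun c A => smul_mul_assoc c A C }

lemma rmL_apply (C A : Mat N) : rmL C A = A * C := rfl

variable (T : Slab S ι G)

lemma rho_U (g : S → G) (e : ι) : L.rho (T.U g e) =
    L.rho (g (T.src e)) * L.rho (T.vr e) * (L.rho (g (T.tgt e)))ᴴ * (L.rho (T.vl e))ᴴ := by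
  unfold Slab.U
  rw [map_mul, map_mul, map_mul, L.rho_inv, L.rho_inv]

variable (L) in
/-- `Re tr (K* U_e)` -/
def pl (T : Slab S ι G) (e : ι) (K : Mat N) : Sm L S :=
  Pool.Agent.H906R3.YM.lin ((ip K).comp (rmL (L.rho (T.vl e))ᴴ)) _
    (SmM_two (L := L) (T.src e) (T.tgt e) (L.rho (T.vr e)))

lemma pl_val (e : ι) (K : Mat N) (g : S → G) : (pl L T e K).1 g = ip K (L.rho (T.U g e)) := by
  rw [rho_U]; rfl

lemma pl_zero (e : ι) : pl L T e 0 = 0 := by
  refine ev_ext fun g => ?_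
  rw [ev_apply, pl_val, map_zero, ip_apply, conjTranspose_zero, zero_mul, trace_zero]
  rfl

variable (L) in
/-- the right transported generator -/
def Yt (T : Slab S ι G) (P : S → G) (e : ι) (a : Fin n) : Mat N :=
  YY L (T.vl e * P (T.tgt e)) a

lemma Yt_eq (e : ι) : Yt L T P e a = L.rho (T.vl e) * YY L (P (T.tgt e)) a * (L.rho (T.vl e))ᴴ := by
  unfold Yt YY
  rw [map_mul, conjTranspose_mul]
  simp only [Matrix.mul_assoc]

lemma ip_lmul (A K W : Mat N) : ip K (A * W) = ip (Aᴴ * K) W := by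
  rw [ip_apply, ip_apply, conjTranspose_mul, conjTranspose_conjTranspose, Matrix.mul_assoc]

lemma ip_rmul (A K W : Mat N) : ip K (W * A) = ip (K * Aᴴ) W := by
  rw [ip_apply, ip_apply, conjTranspose_mul, conjTranspose_conjTranspose, ← Matrix.mul_assoc,
    trace_mul_comm, ← Matrix.mul_assoc]

lemma ip_neg_left (K W : Mat N) : ip (-K) W = -ip K W := by
  rw [ip_comm, map_neg, ip_comm]

lemma ip_smul_left (c : ℝ) (K W : Mat N) : ip (c • K) W = c * ip K W := by
  rw [ip_comm, map_smul, ip_comm, smul_eq_mul]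

/-- the derivative of the linear functions of a plaquette -/
lemma vd_pl (e : ι) (K : Mat N) : vd L P f a (pl L T e K) =
    pl L T e (-(f (T.src e) • (YY L (P (T.src e)) a * K)) + f (T.tgt e) • (K * Yt L T P e a)) := by
  refine ev_ext fun g => ?_
  rw [ev_apply, ev_apply, pl_val]
  unfold pl
  rw [vd_two]
  show ip K ((_ - _) * (L.rho (T.vl e))ᴴ) = _
  obtain ⟨W, hW⟩ : ∃ W, W = L.rho (g (T.src e)) * L.rho (T.vr e) * (L.rho (g (T.tgt e)))ᴴ :=
    ⟨_, rfl⟩
  rw [rho_U, ← hW]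
  have e1 : (W * YY L (P (T.tgt e)) a) * (L.rho (T.vl e))ᴴ =
      (W * (L.rho (T.vl e))ᴴ) * Yt L T P e a := by
    rw [Yt_eq]
    calc _ = W * ((L.rho (T.vl e))ᴴ * L.rho (T.vl e)) * YY L (P (T.tgt e)) a *
        (L.rho (T.vl e))ᴴ := by rw [L.unit', mul_one]
      _ = _ := by noncomm_ring
  have e2 : (YY L (P (T.src e)) a * W) * (L.rho (T.vl e))ᴴ =
      YY L (P (T.src e)) a * (W * (L.rho (T.vl e))ᴴ) := Matrix.mul_assoc _ _ _
  have e3 : (Yt L T P e a)ᴴ = -Yt L T P e a := YY_skew _ _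
  obtain ⟨W', hW'⟩ : ∃ W', W' = W * (L.rho (T.vl e))ᴴ := ⟨_, rfl⟩
  rw [sub_mul, smul_mul_assoc, smul_mul_assoc, e1, e2, ← hW', map_sub, map_smul, map_smul,
    ip_lmul _ K W', ip_rmul _ K W', YY_skew, e3, smul_eq_mul, smul_eq_mul, neg_mul, mul_neg,
    ip_neg_left, ip_neg_left]
  rw [ip_comm (-(f (T.src e) • _) + _), map_add, map_neg, map_smul, map_smul, smul_eq_mul,
    smul_eq_mul, ip_comm W', ip_comm W']
  ring

variable (L) in
/-- the action as a smooth function -/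
def Slab.actS (T : Slab S ι G) : Sm L S := ∑ e, (algebraMap ℝ (Sm L S) N - pl L T e 1)

lemma actS_val (g : S → G) : (T.actS L).1 g = T.act L g := by
  unfold Slab.actS Slab.act
  rw [ev_sum]
  refine Finset.sum_congr rfl fun e _ => ?_
  have h1 : (algebraMap ℝ (Sm L S) N - pl L T e 1).1 g = N - (pl L T e 1).1 g := rfl
  rw [h1, pl_val, we_tr, ip_apply, conjTranspose_one, one_mul]

variable (L) in
/-- the covariant difference of `f` -/
def Zc (T : Slab S ι G) (P : S → G) (f : S → ℝ) (e : ι) (a : Fin n) : Mat N :=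
  f (T.src e) • YY L (P (T.src e)) a - f (T.tgt e) • Yt L T P e a

lemma vd_sub (F H : Sm L S) : vd L P f a (F - H) = vd L P f a F - vd L P f a H := by
  have h := vd_add (P := P) (f := f) (a := a) (F - H) H
  rw [sub_add_cancel] at h
  rw [h, add_sub_cancel_right]

lemma vd_act : vd L P f a (T.actS L) = ∑ e, pl L T e (Zc L T P f e a) := by
  unfold Slab.actS
  rw [vd_sum]
  refine Finset.sum_congr rfl fun e _ => ?_
  rw [vd_sub, vd_const, zero_sub, vd_pl]
  refine ev_ext fun g => ?_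
  rw [map_neg, ev_apply, ev_apply, pl_val, pl_val, ← ip_neg_left]
  congr 2
  unfold Zc
  rw [mul_one, one_mul]
  abel

variable {f' : S → ℝ} {b : Fin n}

lemma vd_vd_act (g : S → G) : (vd L P f' b (vd L P f a (T.actS L))).1 g =
    ∑ e, ip (-(f' (T.src e) • (YY L (P (T.src e)) b * Zc L T P f e a)) +
      f' (T.tgt e) • (Zc L T P f e a * Yt L T P e b)) (L.rho (T.U g e)) := by
  rw [vd_act, vd_sum, ev_sum]
  refine Finset.sum_congr rfl fun e _ => ?_
  rw [vd_pl, pl_val]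

/-- the defect of the transports -/
def Slab.def (L : LD G N n) (T : Slab S ι G) (P : S → G) (e : ι) : ℝ :=
  dv L ((P (T.src e))⁻¹ * (T.vl e * P (T.tgt e)))

lemma Zc_close (e : ι) {F0 : ℝ} (h2 : |f (T.tgt e)| ≤ F0) :
    ‖Zc L T P f e a - (f (T.src e) - f (T.tgt e)) • YY L (P (T.src e)) a‖ ≤
      2 * F0 * T.def L P e := by
  have h1 : Zc L T P f e a - (f (T.src e) - f (T.tgt e)) • YY L (P (T.src e)) a =
      -(f (T.tgt e) • (Yt L T P e a - YY L (P (T.src e)) a)) := by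
    unfold Zc
    rw [sub_smul, smul_sub]; abel
  rw [h1, norm_neg, norm_smul, Real.norm_eq_abs]
  have h3 := YY_close (L := L) (P (T.src e)) (T.vl e * P (T.tgt e)) a
  have h4 : ‖Yt L T P e a - YY L (P (T.src e)) a‖ ≤ 2 * T.def L P e := h3
  calc _ ≤ F0 * (2 * T.def L P e) := mul_le_mul h2 h4 (norm_nonneg _) ((abs_nonneg _).trans h2)
    _ = _ := by ring

lemma norm_Zc (e : ι) {F0 : ℝ} (h1 : |f (T.src e)| ≤ F0) (h2 : |f (T.tgt e)| ≤ F0) :
    ‖Zc L T P f e a‖ ≤ 2 * F0 := by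
  unfold Zc
  refine (norm_sub_le _ _).trans ?_
  rw [norm_smul, norm_smul, norm_YY, Real.norm_eq_abs, Real.norm_eq_abs]
  have : ‖Yt L T P e a‖ = 1 := norm_YY _ _
  rw [this]
  linarith

lemma term_bound (e : ι) (g : S → G) {F0 : ℝ} (h1 : |f (T.src e)| ≤ F0) (h2 : |f (T.tgt e)| ≤ F0)
    (h1' : |f' (T.src e)| ≤ F0) (h2' : |f' (T.tgt e)| ≤ F0) :
    |ip (-(f' (T.src e) • (YY L (P (T.src e)) b * Zc L T P f e a)) +
      f' (T.tgt e) • (Zc L T P f e a * Yt L T P e b)) (L.rho (T.U g e)) -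
      (if a = b then (f (T.src e) - f (T.tgt e)) * (f' (T.src e) - f' (T.tgt e)) else 0)| ≤
      8 * F0 ^ 2 * (dv L (T.U g e) + T.def L P e) := by
  have hF0 : 0 ≤ F0 := (abs_nonneg _).trans h1
  obtain ⟨Z, hZ⟩ : ∃ Z, Z = Zc L T P f e a := ⟨_, rfl⟩
  obtain ⟨Ya, hYa⟩ : ∃ Y, Y = YY L (P (T.src e)) a := ⟨_, rfl⟩
  obtain ⟨Yb, hYb⟩ : ∃ Y, Y = YY L (P (T.src e)) b := ⟨_, rfl⟩
  obtain ⟨Yt', hYt⟩ : ∃ Y, Y = Yt L T P e b := ⟨_, rfl⟩
  obtain ⟨δ, hδ⟩ : ∃ δ, δ = T.def L P e := ⟨_, rfl⟩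
  obtain ⟨D, hD⟩ : ∃ D, D = dv L (T.U g e) := ⟨_, rfl⟩
  obtain ⟨s, hs⟩ : ∃ s, s = f (T.src e) - f (T.tgt e) := ⟨_, rfl⟩
  obtain ⟨s1, hs1⟩ : ∃ s, s = f' (T.src e) := ⟨_, rfl⟩
  obtain ⟨s2, hs2⟩ : ∃ s, s = f' (T.tgt e) := ⟨_, rfl⟩
  have hδ0 : 0 ≤ δ := by rw [hδ]; exact dv_nonneg _
  have hD0 : 0 ≤ D := by rw [hD]; exact dv_nonneg _
  have z1 : ‖Z - s • Ya‖ ≤ 2 * F0 * δ := by
    rw [hZ, hs, hYa, hδ]; exact Zc_close T e h2
  have z2 : ‖Z‖ ≤ 2 * F0 := by rw [hZ]; exact norm_Zc T e h1 h2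
  have y1 : ‖Yt' - Yb‖ ≤ 2 * δ := by
    rw [hYt, hYb, hδ]; exact YY_close (L := L) (P (T.src e)) (T.vl e * P (T.tgt e)) b
  have nYb : ‖Yb‖ = 1 := by rw [hYb]; exact norm_YY _ _
  have nYt : ‖Yt'‖ = 1 := by rw [hYt]; exact norm_YY _ _
  have o1 : ip 1 (Yb * Ya) = -(if a = b then 1 else 0) := by
    rw [hYb, hYa, YY_orth]
    simp only [eq_comm]
  rw [← hs1] at h1'
  rw [← hs2] at h2'
  rw [← hZ, ← hYb, ← hYt, ← hδ, ← hD, ← hs, ← hs1, ← hs2]
  obtain ⟨K, hK⟩ : ∃ K, K = -(s1 • (Yb * Z)) + s2 • (Z * Yt') := ⟨_, rfl⟩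
  rw [← hK]
  have nK : ‖K‖ ≤ 4 * F0 ^ 2 := by
    rw [hK]
    refine (norm_add_le _ _).trans ?_
    rw [norm_neg, norm_smul, norm_smul, Real.norm_eq_abs, Real.norm_eq_abs]
    have e1 : ‖Yb * Z‖ ≤ 2 * F0 := by
      refine (norm_mul_le _ _).trans ?_; rw [nYb, one_mul]; exact z2
    have e2 : ‖Z * Yt'‖ ≤ 2 * F0 := by
      refine (norm_mul_le _ _).trans ?_; rw [nYt, mul_one]; exact z2
    have e3 := mul_le_mul h1' e1 (norm_nonneg _) hF0
    have e4 := mul_le_mul h2' e2 (norm_nonneg _) hF0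
    linarith
  have k1 : |ip K (L.rho (T.U g e) - 1)| ≤ 4 * F0 ^ 2 * D := by
    refine (abs_ip_le _ _).trans ?_
    have : ‖L.rho (T.U g e) - 1‖ = D := by rw [hD]; rfl
    rw [this]
    exact mul_le_mul_of_nonneg_right nK hD0
  have k2 : ip K 1 = -s1 * ip 1 (Yb * Z) + s2 * ip 1 (Z * Yt') := by
    rw [ip_comm, hK, map_add, map_neg, map_smul, map_smul, smul_eq_mul, smul_eq_mul]; ring
  have k3 : ip 1 (Z * Yt') = ip 1 (Yb * Z) + ip 1 (Z * (Yt' - Yb)) := by
    have e1 : ip (1 : Mat N) (Yb * Z) = ip 1 (Z * Yb) := by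
      rw [ip_apply, ip_apply, conjTranspose_one, one_mul, one_mul, trace_mul_comm]
    rw [e1, mul_sub, map_sub]; ring
  have k4 : ip 1 (Yb * Z) = s * ip 1 (Yb * Ya) + ip 1 (Yb * (Z - s • Ya)) := by
    rw [mul_sub, map_sub, mul_smul_comm, map_smul, smul_eq_mul]; ring
  have ab : ∀ A B : Mat N, |ip 1 (A * B)| ≤ ‖A‖ * ‖B‖ := by
    intro A B
    have e1 : ip 1 (A * B) = ip (Aᴴ) B := by
      rw [ip_apply, ip_apply, conjTranspose_one, one_mul, conjTranspose_conjTranspose]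
    rw [e1]
    refine (abs_ip_le _ _).trans ?_
    rw [norm_ct]
  have k5 : |ip 1 (Z * (Yt' - Yb))| ≤ 4 * F0 * δ := by
    refine (ab _ _).trans ?_
    calc _ ≤ (2 * F0) * (2 * δ) := mul_le_mul z2 y1 (norm_nonneg _) (by linarith)
      _ = _ := by ring
  have k6 : |ip 1 (Yb * (Z - s • Ya))| ≤ 2 * F0 * δ := by
    refine (ab _ _).trans ?_
    rw [nYb, one_mul]; exact z1
  have e0 : ip K (L.rho (T.U g e)) = ip K (L.rho (T.U g e) - 1) + ip K 1 := by
    rw [← map_add, sub_add_cancel]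
  have e1 : ip K (L.rho (T.U g e)) - (if a = b then s * (s1 - s2) else 0) =
      ip K (L.rho (T.U g e) - 1) + s2 * ip 1 (Z * (Yt' - Yb)) -
        (s1 - s2) * ip 1 (Yb * (Z - s • Ya)) := by
    rw [e0, k2, k3, k4, o1]
    split_ifs <;> ring
  rw [e1]
  have b1 : |s2 * ip 1 (Z * (Yt' - Yb))| ≤ F0 * (4 * F0 * δ) := by
    rw [abs_mul]; exact mul_le_mul h2' k5 (abs_nonneg _) hF0
  have b2 : |(s1 - s2) * ip 1 (Yb * (Z - s • Ya))| ≤ (2 * F0) * (2 * F0 * δ) := by
    rw [abs_mul]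
    refine mul_le_mul ?_ k6 (abs_nonneg _) (by linarith)
    exact (abs_sub _ _).trans (by linarith)
  have b3 := abs_sub (ip K (L.rho (T.U g e) - 1) + s2 * ip 1 (Z * (Yt' - Yb)))
    ((s1 - s2) * ip 1 (Yb * (Z - s • Ya)))
  have b4 := abs_add_le (ip K (L.rho (T.U g e) - 1)) (s2 * ip 1 (Z * (Yt' - Yb)))
  have hF2 : 0 ≤ F0 ^ 2 := sq_nonneg _
  nlinarith [mul_nonneg hF2 hD0, mul_nonneg hF2 hδ0]

variable (L) in
/-- the total deviation of the active plaquettes -/
def Slab.X (T : Slab S ι G) (P : S → G) (A : Finset ι) (g : S → G) : ℝ :=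
  ∑ e ∈ A, (dv L (T.U g e) + T.def L P e)

/-- the energy form -/
def Slab.gam (T : Slab S ι G) (f f' : S → ℝ) : ℝ :=
  ∑ e, (f (T.src e) - f (T.tgt e)) * (f' (T.src e) - f' (T.tgt e))

theorem second_act {A : Finset ι} (hA : ∀ e, e ∉ A → f (T.src e) = 0 ∧ f (T.tgt e) = 0) {F0 : ℝ}
    (h : ∀ s, |f s| ≤ F0) (h' : ∀ s, |f' s| ≤ F0) (g : S → G) :
    |(vd L P f' b (vd L P f a (T.actS L))).1 g - (if a = b then T.gam f f' else 0)| ≤
      8 * F0 ^ 2 * T.X L P A g := by
  classical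
  rw [vd_vd_act]
  have h1 : (if a = b then T.gam f f' else 0) = ∑ e, (if a = b then
      (f (T.src e) - f (T.tgt e)) * (f' (T.src e) - f' (T.tgt e)) else 0) := by
    unfold Slab.gam
    split_ifs
    · rfl
    · simp
  rw [h1, ← Finset.sum_sub_distrib]
  unfold Slab.X
  rw [Finset.mul_sum]
  have h2 : ∀ e, e ∉ A → ip (-(f' (T.src e) • (YY L (P (T.src e)) b * Zc L T P f e a)) +
      f' (T.tgt e) • (Zc L T P f e a * Yt L T P e b)) (L.rho (T.U g e)) -
      (if a = b then (f (T.src e) - f (T.tgt e)) * (f' (T.src e) - f' (T.tgt e)) else 0) = 0 := by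
    intro e he
    obtain ⟨e1, e2⟩ := hA e he
    have e3 : Zc L T P f e a = 0 := by
      unfold Zc; rw [e1, e2, zero_smul, zero_smul, sub_zero]
    rw [e3, mul_zero, zero_mul, smul_zero, smul_zero, neg_zero, add_zero, e1, e2, sub_zero,
      zero_mul, ite_self, sub_zero, ip_apply, conjTranspose_zero, zero_mul, trace_zero]
    rfl
  rw [← Finset.sum_subset (Finset.subset_univ A) fun e _ he => h2 e he]
  refine (Finset.abs_sum_le_sum_abs _ _).trans (Finset.sum_le_sum fun e _ => ?_)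
  exact term_bound T e g (h _) (h _) (h' _) (h' _)

end

end Pool.Agent.TH190.YV
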