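import Mathlib
import Pool.Agent.TH190.YV.Slab
import Pool.Agent.TH190.YV.Mint

/-!
# One time slab: the contraction
-/

open MeasureTheory Matrix
open scoped Matrix.Norms.Frobenius ContDiff
open Pool.Agent.H906R3.YM Pool.Agent.W793.YM

namespace Pool.Agent.TH190.YV

set_option linter.unusedSectionVars false
set_option linter.unusedVariables false

noncomputable section

variable {G : Type*} [Group G] [TopologicalSpace G] [IsTopologicalGroup G] [CompactSpace G]
  [SecondCountableTopology G] [MeasurableSpace G] [BorelSpace G] (μ : Measure G)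
  [IsProbabilityMeasure μ] [μ.IsMulLeftInvariant] [μ.IsMulRightInvariant] [μ.IsInvInvariant]
  {N n : ℕ} {L : LD G N n}
  {S ι : Type*} [Fintype S] [DecidableEq S] [Fintype ι] (T : Slab S ι G)

lemma act_contS : Continuous (T.act L) := by
  have h : T.act L = (T.actS L).1 := by funext g; exact (actS_val T g).symm
  rw [h]; exact Sm_cont _

lemma U_cont (e : ι) : Continuous fun g : S → G => T.U g e := by
  unfold Slab.U
  have h1 : Continuous fun g : S → G => g (T.src e) := continuous_apply _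
  have h2 : Continuous fun g : S → G => g (T.tgt e) := continuous_apply _
  exact ((h1.mul continuous_const).mul h2.inv).mul continuous_const

lemma X_cont (P : S → G) (A : Finset ι) : Continuous (T.X L P A) := by
  unfold Slab.X
  exact continuous_finsetSum _ fun e _ => (dv_cont.comp (U_cont T e)).add continuous_const

variable (L) in
/-- the unnormalised expectation of the slab -/
def SE (T : Slab S ι G) (β : ℝ) (F : (S → G) → ℝ) : ℝ :=
  ∫ g, F g * Real.exp (-(β * T.act L g)) ∂(ME μ S)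

variable {T} {β : ℝ} {F H : (S → G) → ℝ}

lemma wtS_cont : Continuous fun g : S → G => Real.exp (-(β * T.act L g)) :=
  Real.continuous_exp.comp (continuous_const.mul (act_contS T)).neg

lemma SE_mono (hF : Continuous F) (hH : Continuous H) (h : ∀ g, F g ≤ H g) :
    SE μ L T β F ≤ SE μ L T β H := by
  unfold SE
  exact integral_mono (integrable_cont μ (hF.mul wtS_cont)) (integrable_cont μ (hH.mul wtS_cont))
    fun g => mul_le_mul_of_nonneg_right (h g) (Real.exp_pos _).le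

lemma SE_add (hF : Continuous F) (hH : Continuous H) :
    SE μ L T β (fun g => F g + H g) = SE μ L T β F + SE μ L T β H := by
  unfold SE
  have i1 : Integrable (fun g => F g * Real.exp (-(β * T.act L g))) (ME μ S) :=
    integrable_cont μ (hF.mul wtS_cont)
  have i2 : Integrable (fun g => H g * Real.exp (-(β * T.act L g))) (ME μ S) :=
    integrable_cont μ (hH.mul wtS_cont)
  rw [← integral_add i1 i2]
  exact integral_congr_ae (Filter.Eventually.of_forall fun g => by simp only; ring)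

lemma SE_smul (c : ℝ) : SE μ L T β (fun g => c * F g) = c * SE μ L T β F := by
  unfold SE
  rw [← integral_const_mul]
  exact integral_congr_ae (Filter.Eventually.of_forall fun g => by simp only; ring)

lemma SE_neg : SE μ L T β (fun g => -F g) = -SE μ L T β F := by
  have := SE_smul μ (L := L) (T := T) (β := β) (F := F) (-1)
  simpa using this

lemma SE_sub (hF : Continuous F) (hH : Continuous H) :
    SE μ L T β (fun g => F g - H g) = SE μ L T β F - SE μ L T β H := by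
  have hH' : Continuous fun g => -H g := hH.neg
  simp only [sub_eq_add_neg]
  rw [SE_add μ hF hH', SE_neg]

lemma SE_sum {κ : Type*} (s : Finset κ) {F : κ → (S → G) → ℝ} (hF : ∀ i, Continuous (F i)) :
    SE μ L T β (fun g => ∑ i ∈ s, F i g) = ∑ i ∈ s, SE μ L T β (F i) := by
  unfold SE
  simp only [Finset.sum_mul]
  rw [integral_finsetSum]
  intro i hi
  exact integrable_cont μ ((hF i).mul wtS_cont)

lemma SE_nonneg (h : ∀ g, 0 ≤ F g) : 0 ≤ SE μ L T β F :=
  integral_nonneg fun g => mul_nonneg (h g) (Real.exp_pos _).le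

lemma SE_pos : 0 < SE μ L T β (fun _ => 1) := by
  unfold SE
  simp only [one_mul]
  exact integral_exp_pos (integrable_cont μ wtS_cont)

lemma SE_const (c : ℝ) : SE μ L T β (fun _ => c) = c * SE μ L T β (fun _ => 1) := by
  have := SE_smul μ (L := L) (T := T) (β := β) (F := fun _ => 1) c
  simpa using this

/-- Schwinger-Dyson -/
lemma SE_SD (P : S → G) (f : S → ℝ) (a : Fin n) (Φ : Sm L S) :
    SE μ L T β (vd L P f a Φ).1 = β * SE μ L T β (fun g => Φ.1 g * (vd L P f a (T.actS L)).1 g) := by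
  have h1 := I_vd μ (P := P) (f := f) (a := a) (Φ * sexp ((-β) • T.actS L))
  rw [vd_mul, vd_sexp, vd_smul, map_add, I_apply, I_apply] at h1
  have e1 : ∀ g, (Φ * (sexp ((-β) • T.actS L) * ((-β) • vd L P f a (T.actS L)))).1 g =
      -β * (Φ.1 g * (vd L P f a (T.actS L)).1 g * Real.exp (-(β * T.act L g))) := by
    intro g
    have e2 : (sexp ((-β) • T.actS L)).1 g = Real.exp (-(β * T.act L g)) := by
      rw [sexp_apply, ← actS_val]
      congr 1
      show (-β) * (T.actS L).1 g = _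
      ring
    show Φ.1 g * ((sexp ((-β) • T.actS L)).1 g * ((-β) * (vd L P f a (T.actS L)).1 g)) = _
    rw [e2]; ring
  have e3 : ∀ g, (sexp ((-β) • T.actS L) * vd L P f a Φ).1 g =
      (vd L P f a Φ).1 g * Real.exp (-(β * T.act L g)) := by
    intro g
    have e2 : (sexp ((-β) • T.actS L)).1 g = Real.exp (-(β * T.act L g)) := by
      rw [sexp_apply, ← actS_val]
      congr 1
      show (-β) * (T.actS L).1 g = _
      ring
    show (sexp ((-β) • T.actS L)).1 g * (vd L P f a Φ).1 g = _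
    rw [e2]; ring
  simp only [e1, e3] at h1
  rw [integral_const_mul] at h1
  unfold SE
  linarith

/-- Jensen's inequality -/
lemma SE_jensen (hF : Continuous F) :
    SE μ L T β (fun _ => 1) * Real.exp (SE μ L T β F / SE μ L T β (fun _ => 1)) ≤
      SE μ L T β (fun g => Real.exp (F g)) := by
  obtain ⟨z, hz⟩ : ∃ z, z = SE μ L T β (fun _ => 1) := ⟨_, rfl⟩
  have hz0 : 0 < z := by rw [hz]; exact SE_pos μ
  rw [← hz]
  obtain ⟨y, hy⟩ : ∃ y, y = SE μ L T β F / z := ⟨_, rfl⟩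
  rw [← hy]
  have h1 : ∀ g, Real.exp y * (1 - y) + Real.exp y * F g ≤ Real.exp (F g) := by
    intro g
    have h2 := Real.add_one_le_exp (F g - y)
    have h3 : Real.exp (F g) = Real.exp y * Real.exp (F g - y) := by
      rw [← Real.exp_add]; congr 1; ring
    rw [h3]
    have h4 := mul_le_mul_of_nonneg_left h2 (Real.exp_pos y).le
    linarith
  have c1 : Continuous fun g : S → G => Real.exp y * F g := continuous_const.mul hF
  have h2 := SE_mono μ (L := L) (T := T) (β := β) (F := fun g => Real.exp y * (1 - y) +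
    Real.exp y * F g) (continuous_const.add c1) (Real.continuous_exp.comp hF) h1
  rw [SE_add μ continuous_const c1, SE_const, SE_smul, ← hz] at h2
  have h3 : SE μ L T β F = y * z := by rw [hy]; field_simp
  rw [h3] at h2
  refine le_trans (le_of_eq ?_) h2
  ring

variable (L) in
/-- the generator -/
def TT (P : S → G) (f : S → ℝ) (x y : S) (a : Fin n) (u : Mat N) : Mat N :=
  f x • (YY L (P x) a * u) - f y • (u * YY L (P y) a)

section TT

variable {P : S → G} {f : S → ℝ} {x y : S} {a : Fin n}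

lemma TT_sub (u v : Mat N) : TT L P f x y a (u - v) = TT L P f x y a u - TT L P f x y a v := by
  unfold TT
  rw [mul_sub, sub_mul, smul_sub, smul_sub]; abel

lemma TT_anti (u v : Mat N) : ip (TT L P f x y a u) v = -ip u (TT L P f x y a v) := by
  have e1 : ip (TT L P f x y a u) v = f x * ip (YY L (P x) a * u) v -
      f y * ip (u * YY L (P y) a) v := by
    unfold TT
    rw [ip_comm, map_sub, map_smul, map_smul, smul_eq_mul, smul_eq_mul, ip_comm v, ip_comm v]
  have e2 : ip u (TT L P f x y a v) = f x * ip u (YY L (P x) a * v) -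
      f y * ip u (v * YY L (P y) a) := by
    unfold TT
    rw [map_sub, map_smul, map_smul, smul_eq_mul, smul_eq_mul]
  have e3 : ip (YY L (P x) a * u) v = -ip u (YY L (P x) a * v) := by
    rw [ip_lmul, YY_skew, neg_mul, ip_neg_left, neg_neg]
  have e4 : ip (u * YY L (P y) a) v = -ip u (v * YY L (P y) a) := by
    rw [ip_rmul, YY_skew, mul_neg, ip_neg_left, neg_neg]
  rw [e1, e2, e3, e4]; ring

lemma TT_self (u : Mat N) : ip (TT L P f x y a u) u = 0 := by
  have h := TT_anti (L := L) (P := P) (f := f) (x := x) (y := y) (a := a) u u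
  have h2 := ip_comm (TT L P f x y a u) u
  linarith

lemma norm_TT {F0 : ℝ} (hx : |f x| ≤ F0) (hy : |f y| ≤ F0) (u : Mat N) :
    ‖TT L P f x y a u‖ ≤ 2 * F0 * ‖u‖ := by
  unfold TT
  refine (norm_sub_le _ _).trans ?_
  rw [norm_smul, norm_smul, Real.norm_eq_abs, Real.norm_eq_abs]
  have h1 := norm_YY_mul (L := L) (P x) a u
  have h2 := norm_mul_YY (L := L) (P y) a u
  have hF : 0 ≤ F0 := (abs_nonneg _).trans hx
  have h3 := mul_le_mul hx h1 (norm_nonneg _) hF
  have h4 := mul_le_mul hy h2 (norm_nonneg _) hF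
  linarith

lemma TT_cont : Continuous (TT L P f x y a) := by
  have h1 : Continuous fun u : Mat N => YY L (P x) a * u := continuous_const.mul continuous_id
  have h2 : Continuous fun u : Mat N => u * YY L (P y) a := continuous_id.mul continuous_const
  exact (h1.const_smul (f x)).sub (h2.const_smul (f y))

end TT

/-- the observable -/
def Fm (L : LD G N n) (x y : S) (M : Mat N) (g : S → G) : Mat N :=
  L.rho (g x) * M * (L.rho (g y))ᴴ

lemma Fm_cont (x y : S) (M : Mat N) : Continuous (Fm L x y M) := by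
  unfold Fm
  exact ((L.cont.comp (continuous_apply x)).mul continuous_const).mul
    (L.cont.comp (continuous_apply y)).matrix_conjTranspose

lemma norm_Fm (x y : S) (M : Mat N) (g : S → G) : ‖Fm L x y M g‖ = ‖M‖ := by
  unfold Fm
  rw [norm_ctmul, norm_lmul]

lemma vd_Fm (P : S → G) (f : S → ℝ) (a : Fin n) (K : Mat N) (x y : S) (M : Mat N) (g : S → G) :
    (vd L P f a (Pool.Agent.H906R3.YM.lin (ip K) _ (SmM_two (L := L) x y M))).1 g =
      ip K (TT L P f x y a (Fm L x y M g)) := vd_two (L := L) (ip K) x y M g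

lemma ip_cont (K : Mat N) : Continuous (ip K) := (ip K).continuous

lemma ip_cont2 {X : Type*} [TopologicalSpace X] {A B : X → Mat N} (hA : Continuous A)
    (hB : Continuous B) : Continuous fun z => ip (A z) (B z) := by
  have h : (fun z => ip (A z) (B z)) = fun z => (trace ((A z)ᴴ * B z)).re := by
    funext z; exact ip_apply _ _
  rw [h]
  have h1 : Continuous fun z => (A z)ᴴ * B z := hA.matrix_conjTranspose.mul hB
  exact Complex.continuous_re.comp (Continuous.matrix_trace h1)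

lemma ip_sum_left {κ : Type*} (s : Finset κ) (A : κ → Mat N) (B : Mat N) :
    ip (∑ i ∈ s, A i) B = ∑ i ∈ s, ip (A i) B := by
  rw [ip_comm, map_sum]
  exact Finset.sum_congr rfl fun i _ => ip_comm _ _

variable {J : Type*} [Fintype J]

theorem slab_quad {P : S → G} {f : J → S → ℝ} {c : J → ℝ} {F0 q : ℝ} {x y : S} {A : Finset ι}
    (hβ : 0 < β) (hF : ∀ j s, |f j s| ≤ F0) (hc : ∀ j, 0 ≤ c j)
    (hcγ : ∀ j, c j * T.gam (f j) (f j) = 1) (ho : ∀ j k, j ≠ k → T.gam (f j) (f k) = 0)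
    (hA : ∀ j e, e ∉ A → f j (T.src e) = 0 ∧ f j (T.tgt e) = 0) (hq0 : 0 ≤ q)
    (hq : ∀ u : Mat N, q * ‖u‖ ^ 2 ≤ ∑ j, c j * ∑ a, ‖TT L P (f j) x y a u‖ ^ 2)
    {M u : Mat N} (hM : ‖M‖ = 1) (hu : ‖u‖ = 1) :
    (1 - 4 * F0 ^ 2 * n * (∑ j, c j) / Real.sqrt β) * q * SE μ L T β (fun _ => 1) -
      4 * F0 ^ 2 * n * (∑ j, c j) / Real.sqrt β * SE μ L T β (fun _ => 1) -
      32 * F0 ^ 4 * n ^ 2 * (∑ j, c j) ^ 2 * SE μ L T β (T.X L P A) ≤
      β * SE μ L T β (fun g => ‖Fm L x y M g - u‖ ^ 2) := by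
  classical
  obtain ⟨z, hz⟩ : ∃ z, z = SE μ L T β (fun _ => 1) := ⟨_, rfl⟩
  have hz0 : 0 < z := by rw [hz]; exact SE_pos μ
  obtain ⟨C0, hC0⟩ : ∃ C0, C0 = ∑ j, c j := ⟨_, rfl⟩
  have hC00 : 0 ≤ C0 := by rw [hC0]; exact Finset.sum_nonneg fun j _ => hc j
  have hXc : Continuous (T.X L P A) := X_cont T P A
  have hX0 : ∀ g, 0 ≤ T.X L P A g := fun g =>
    Finset.sum_nonneg fun e _ => add_nonneg (dv_nonneg _) (dv_nonneg _)
  obtain ⟨Xb, hXb⟩ : ∃ Xb, Xb = SE μ L T β (T.X L P A) := ⟨_, rfl⟩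
  have hXb0 : 0 ≤ Xb := by rw [hXb]; exact SE_nonneg μ hX0
  obtain ⟨D2, hD2⟩ : ∃ D2, D2 = SE μ L T β (fun g => ‖Fm L x y M g - u‖ ^ 2) := ⟨_, rfl⟩
  have hD20 : 0 ≤ D2 := by rw [hD2]; exact SE_nonneg μ fun g => sq_nonneg _
  rw [← hz, ← hXb, ← hD2, ← hC0]
  -- notation
  obtain ⟨V, hV⟩ : ∃ V : J × Fin n → Mat N, V = fun i => TT L P (f i.1) x y i.2 u := ⟨_, rfl⟩
  obtain ⟨s, hs⟩ : ∃ s : J × Fin n → Sm L S, s = fun i => vd L P (f i.1) i.2 (T.actS L) := ⟨_, rfl⟩
  obtain ⟨w, hw⟩ : ∃ w : J × Fin n → ℝ, w = fun i => c i.1 := ⟨_, rfl⟩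
  have hw0 : ∀ i, 0 ≤ w i := fun i => by rw [hw]; exact hc _
  obtain ⟨qu, hqu⟩ : ∃ qu, qu = ∑ i, w i * ‖V i‖ ^ 2 := ⟨_, rfl⟩
  have hqu1 : q ≤ qu := by
    have h := hq u
    rw [hu, one_pow, mul_one] at h
    rw [hqu, Fintype.sum_prod_type, hw, hV]
    refine h.trans (le_of_eq ?_)
    exact Finset.sum_congr rfl fun j _ => Finset.mul_sum _ _ _
  have hwsum : ∑ i, w i = n * C0 := by
    rw [hw, Fintype.sum_prod_type, hC0, Finset.mul_sum]
    refine Finset.sum_congr rfl fun j _ => ?_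
    simp
  have hVn : ∀ i, ‖V i‖ ≤ 2 * F0 := fun i => by
    have := norm_TT (L := L) (P := P) (f := f i.1) (x := x) (y := y) (a := i.2) (hF _ _) (hF _ _) u
    rw [hu, mul_one] at this
    rw [hV]; exact this
  have hJn : 0 ≤ F0 ∨ ∀ i, w i = 0 := by
    by_cases h : Nonempty J
    · exact Or.inl ((abs_nonneg _).trans (hF h.some x))
    · exact Or.inr fun i => absurd ⟨i.1⟩ h
  have hFu : ∀ g, ‖Fm L x y M g - u‖ ≤ 1 / 2 * (Real.sqrt β * ‖Fm L x y M g - u‖ ^ 2 +
      1 / Real.sqrt β) := by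
    intro g
    have hsb : 0 < Real.sqrt β := Real.sqrt_pos.2 hβ
    obtain ⟨r, hr⟩ : ∃ r, r = ‖Fm L x y M g - u‖ := ⟨_, rfl⟩
    rw [← hr]
    obtain ⟨t, ht⟩ : ∃ t, t = Real.sqrt β := ⟨_, rfl⟩
    rw [← ht] at hsb ⊢
    have h1 : 0 ≤ (t * r - 1) ^ 2 / t := by positivity
    have h2 : (t * r - 1) ^ 2 / t = t * r ^ 2 + 1 / t - 2 * r := by field_simp; ring
    rw [h2] at h1
    linarith
  have hFc : Continuous (Fm L x y M) := Fm_cont x y M
  have cFu : Continuous fun g => Fm L x y M g - u := hFc.sub continuous_const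
  have cN : Continuous fun g => ‖Fm L x y M g - u‖ := cFu.norm
  have cN2 : Continuous fun g => ‖Fm L x y M g - u‖ ^ 2 := cN.pow 2
  have cs : ∀ i, Continuous (s i).1 := fun i => Sm_cont _
  -- (i) the Schwinger-Dyson equations
  have sd1 : ∀ i, SE μ L T β (fun g => ip (V i) (TT L P (f i.1) x y i.2 (Fm L x y M g))) =
      β * SE μ L T β (fun g => ip (V i) (Fm L x y M g) * (s i).1 g) := by
    intro i
    have h := SE_SD μ (T := T) (β := β) P (f i.1) i.2
      (Pool.Agent.H906R3.YM.lin (ip (V i)) _ (SmM_two (L := L) x y M))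
    have h2 : (vd L P (f i.1) i.2 (Pool.Agent.H906R3.YM.lin (ip (V i)) _
        (SmM_two (L := L) x y M))).1 = fun g => ip (V i) (TT L P (f i.1) x y i.2 (Fm L x y M g)) := by
      funext g; exact vd_Fm P (f i.1) i.2 (V i) x y M g
    rw [h2] at h
    rw [h, hs]
    rfl
  have sd2 : ∀ i k, β * SE μ L T β (fun g => (s i).1 g * (s k).1 g) =
      SE μ L T β (vd L P (f k.1) k.2 (s i)).1 := by
    intro i k
    rw [SE_SD μ (T := T) (β := β) P (f k.1) k.2 (s i), hs]
  -- the vector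
  obtain ⟨H, hH⟩ : ∃ H : (S → G) → Mat N, H = fun g => ∑ i, (w i * (s i).1 g) • V i := ⟨_, rfl⟩
  have hHc : Continuous H := by
    rw [hH]
    exact continuous_finsetSum _ fun i _ => (continuous_const.mul (cs i)).smul continuous_const
  have hHu : ∀ g, ip (H g) u = 0 := by
    intro g
    rw [hH]
    simp only
    rw [ip_sum_left]
    refine Finset.sum_eq_zero fun i _ => ?_
    rw [ip_smul_left, hV]
    simp only
    rw [TT_self, mul_zero]
  have e1 : ∑ i, w i * SE μ L T β (fun g => ip (V i) (TT L P (f i.1) x y i.2 (Fm L x y M g))) =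
      β * SE μ L T β (fun g => ip (H g) (Fm L x y M g - u)) := by
    have h1 : (fun g => ip (H g) (Fm L x y M g - u)) =
        fun g => ∑ i, w i * (ip (V i) (Fm L x y M g) * (s i).1 g) := by
      funext g
      rw [map_sub, hHu, sub_zero, hH]
      simp only
      rw [ip_sum_left]
      refine Finset.sum_congr rfl fun i _ => ?_
      rw [ip_smul_left]; ring
    rw [h1, SE_sum μ Finset.univ (F := fun i g => w i * (ip (V i) (Fm L x y M g) * (s i).1 g))
      fun i => continuous_const.mul (((ip_cont _).comp hFc).mul (cs i)), Finset.mul_sum]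
    refine Finset.sum_congr rfl fun i _ => ?_
    rw [SE_smul, sd1]; ring
  -- (iv)
  have hcip : ∀ i k, SE μ L T β (vd L P (f k.1) k.2 (s i)).1 * ip (V i) (V k) ≤
      (if i = k then T.gam (f i.1) (f i.1) * z * ‖V i‖ ^ 2 else 0) +
        8 * F0 ^ 2 * Xb * (‖V i‖ * ‖V k‖) := by
    intro i k
    have h1 : ∀ g, |(vd L P (f k.1) k.2 (s i)).1 g -
        (if i.2 = k.2 then T.gam (f i.1) (f k.1) else 0)| ≤ 8 * F0 ^ 2 * T.X L P A g := by
      intro g
      rw [hs]
      exact second_act T (fun e he => hA _ e he) (hF _) (hF _) g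
    have h2 : |SE μ L T β (vd L P (f k.1) k.2 (s i)).1 -
        (if i.2 = k.2 then T.gam (f i.1) (f k.1) else 0) * z| ≤ 8 * F0 ^ 2 * Xb := by
      have c1 : Continuous (vd L P (f k.1) k.2 (s i)).1 := Sm_cont _
      have e2 : SE μ L T β (vd L P (f k.1) k.2 (s i)).1 -
          (if i.2 = k.2 then T.gam (f i.1) (f k.1) else 0) * z =
          SE μ L T β (fun g => (vd L P (f k.1) k.2 (s i)).1 g -
            (if i.2 = k.2 then T.gam (f i.1) (f k.1) else 0)) := by
        rw [SE_sub μ (F := (vd L P (f k.1) k.2 (s i)).1)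
          (H := fun _ => if i.2 = k.2 then T.gam (f i.1) (f k.1) else 0) c1 continuous_const,
          SE_const μ (if i.2 = k.2 then T.gam (f i.1) (f k.1) else 0), ← hz]
      rw [e2, abs_le]
      have c2 : Continuous fun g => 8 * F0 ^ 2 * T.X L P A g := continuous_const.mul hXc
      have c3 : Continuous fun g => (vd L P (f k.1) k.2 (s i)).1 g -
            (if i.2 = k.2 then T.gam (f i.1) (f k.1) else 0) := c1.sub continuous_const
      have e3 : SE μ L T β (fun g => 8 * F0 ^ 2 * T.X L P A g) = 8 * F0 ^ 2 * Xb := by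
        rw [SE_smul, hXb]
      constructor
      · rw [← e3, ← SE_neg]
        exact SE_mono μ c2.neg c3 fun g => (abs_le.1 (h1 g)).1
      · rw [← e3]
        exact SE_mono μ c3 c2 fun g => (abs_le.1 (h1 g)).2
    obtain ⟨Q, hQ⟩ : ∃ Q, Q = SE μ L T β (vd L P (f k.1) k.2 (s i)).1 := ⟨_, rfl⟩
    rw [← hQ] at h2 ⊢
    obtain ⟨R, hR⟩ : ∃ R, R = (if i.2 = k.2 then T.gam (f i.1) (f k.1) else 0) * z := ⟨_, rfl⟩
    rw [← hR] at h2
    have h3 : (if i = k then T.gam (f i.1) (f i.1) * z * ‖V i‖ ^ 2 else 0) = R * ip (V i) (V k) := by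
      by_cases hik : i = k
      · subst hik
        rw [hR]
        simp only [if_true]
        rw [norm_sq_ip]
      · rw [if_neg hik, hR]
        by_cases h4 : i.2 = k.2
        · have h5 : i.1 ≠ k.1 := fun h5 => hik (Prod.ext h5 h4)
          rw [if_pos h4, ho _ _ h5]; ring
        · rw [if_neg h4]; ring
    rw [h3]
    have h6 : (Q - R) * ip (V i) (V k) ≤ 8 * F0 ^ 2 * Xb * (‖V i‖ * ‖V k‖) := by
      refine (le_abs_self _).trans ?_
      rw [abs_mul]
      exact mul_le_mul h2 (abs_ip_le _ _) (abs_nonneg _) (by positivity)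
    linarith
  have e2 : β * SE μ L T β (fun g => ‖H g‖ ^ 2) ≤ qu * z +
      32 * F0 ^ 4 * n ^ 2 * C0 ^ 2 * Xb := by
    have h1 : (fun g => ‖H g‖ ^ 2) = fun g => ∑ i, ∑ k, w i * w k * ip (V i) (V k) *
        ((s i).1 g * (s k).1 g) := by
      funext g
      rw [norm_sq_ip, hH]
      simp only
      rw [ip_sum_left]
      refine Finset.sum_congr rfl fun i _ => ?_
      rw [map_sum]
      refine Finset.sum_congr rfl fun k _ => ?_
      rw [ip_smul_left, map_smul, smul_eq_mul]; ring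
    have h2 : β * SE μ L T β (fun g => ‖H g‖ ^ 2) = ∑ i, ∑ k, w i * w k *
        (SE μ L T β (vd L P (f k.1) k.2 (s i)).1 * ip (V i) (V k)) := by
      rw [h1, SE_sum μ Finset.univ (F := fun i g => ∑ k, w i * w k * ip (V i) (V k) *
        ((s i).1 g * (s k).1 g)) fun i => continuous_finsetSum _ fun k _ => continuous_const.mul
        ((cs i).mul (cs k)), Finset.mul_sum]
      refine Finset.sum_congr rfl fun i _ => ?_
      rw [SE_sum μ Finset.univ (F := fun k g => w i * w k * ip (V i) (V k) *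
        ((s i).1 g * (s k).1 g)) fun k => continuous_const.mul ((cs i).mul (cs k)),
        Finset.mul_sum]
      refine Finset.sum_congr rfl fun k _ => ?_
      rw [SE_smul, ← sd2]; ring
    rw [h2]
    calc ∑ i, ∑ k, w i * w k * (SE μ L T β (vd L P (f k.1) k.2 (s i)).1 * ip (V i) (V k)) ≤
        ∑ i, ∑ k, w i * w k * ((if i = k then T.gam (f i.1) (f i.1) * z * ‖V i‖ ^ 2 else 0) +
          8 * F0 ^ 2 * Xb * (‖V i‖ * ‖V k‖)) :=
          Finset.sum_le_sum fun i _ => Finset.sum_le_sum fun k _ =>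
            mul_le_mul_of_nonneg_left (hcip i k) (mul_nonneg (hw0 _) (hw0 _))
      _ = ∑ i, w i * (w i * T.gam (f i.1) (f i.1)) * ‖V i‖ ^ 2 * z +
          8 * F0 ^ 2 * Xb * (∑ i, w i * ‖V i‖) ^ 2 := by
          simp only [mul_add, Finset.sum_add_distrib]
          congr 1
          · refine Finset.sum_congr rfl fun i _ => ?_
            simp only [mul_ite, mul_zero, Finset.sum_ite_eq, Finset.mem_univ, if_true]
            ring
          · rw [pow_two (∑ i, w i * ‖V i‖), Finset.sum_mul_sum, Finset.mul_sum]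
            refine Finset.sum_congr rfl fun i _ => ?_
            rw [Finset.mul_sum]
            exact Finset.sum_congr rfl fun k _ => by ring
      _ ≤ _ := by
          refine add_le_add (le_of_eq ?_) ?_
          · rw [hqu, Finset.sum_mul]
            refine Finset.sum_congr rfl fun i _ => ?_
            have : w i * T.gam (f i.1) (f i.1) = 1 := by rw [hw]; exact hcγ _
            rw [this, mul_one]
          · have h3 : ∑ i, w i * ‖V i‖ ≤ n * C0 * (2 * F0) := by
              rw [← hwsum, Finset.sum_mul]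
              exact Finset.sum_le_sum fun i _ => mul_le_mul_of_nonneg_left (hVn i) (hw0 i)
            have h4 : 0 ≤ ∑ i, w i * ‖V i‖ := Finset.sum_nonneg fun i _ =>
              mul_nonneg (hw0 i) (norm_nonneg _)
            have h5 := pow_le_pow_left₀ h4 h3 2
            calc 8 * F0 ^ 2 * Xb * (∑ i, w i * ‖V i‖) ^ 2 ≤
                8 * F0 ^ 2 * Xb * (n * C0 * (2 * F0)) ^ 2 :=
                  mul_le_mul_of_nonneg_left h5 (by positivity)
              _ = _ := by ring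
  -- (iii)
  have e3 : β * SE μ L T β (fun g => ip (H g) (Fm L x y M g - u)) ≤
      1 / 2 * (β * SE μ L T β (fun g => ‖H g‖ ^ 2)) + 1 / 2 * (β * D2) := by
    have h1 : SE μ L T β (fun g => ip (H g) (Fm L x y M g - u)) ≤
        SE μ L T β (fun g => 1 / 2 * ‖H g‖ ^ 2 + 1 / 2 * ‖Fm L x y M g - u‖ ^ 2) := by
      refine SE_mono μ (ip_cont2 hHc cFu) ((continuous_const.mul (hHc.norm.pow 2)).add
        (continuous_const.mul cN2)) fun g => ?_
      refine (le_abs_self _).trans ((abs_ip_le _ _).trans ?_)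
      nlinarith [sq_nonneg (‖H g‖ - ‖Fm L x y M g - u‖)]
    rw [SE_add μ (F := fun g => 1 / 2 * ‖H g‖ ^ 2) (H := fun g => 1 / 2 * ‖Fm L x y M g - u‖ ^ 2)
      (continuous_const.mul (hHc.norm.pow 2)) (continuous_const.mul cN2), SE_smul,
      SE_smul, ← hD2] at h1
    have := mul_le_mul_of_nonneg_left h1 hβ.le
    linarith
  -- (v)
  have e4 : qu * z - 4 * F0 ^ 2 * n * C0 * SE μ L T β (fun g => ‖Fm L x y M g - u‖) ≤
      ∑ i, w i * SE μ L T β (fun g => ip (V i) (TT L P (f i.1) x y i.2 (Fm L x y M g))) := by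
    have h1 : ∀ i, ‖V i‖ ^ 2 * z - 4 * F0 ^ 2 * SE μ L T β (fun g => ‖Fm L x y M g - u‖) ≤
        SE μ L T β (fun g => ip (V i) (TT L P (f i.1) x y i.2 (Fm L x y M g))) := by
      intro i
      have h2 : SE μ L T β (fun g => ‖V i‖ ^ 2 - 4 * F0 ^ 2 * ‖Fm L x y M g - u‖) ≤
          SE μ L T β (fun g => ip (V i) (TT L P (f i.1) x y i.2 (Fm L x y M g))) := by
        refine SE_mono μ (continuous_const.sub (continuous_const.mul cN))
          ((ip_cont _).comp (TT_cont.comp hFc)) fun g => ?_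
        have h3 : TT L P (f i.1) x y i.2 (Fm L x y M g) =
            TT L P (f i.1) x y i.2 (Fm L x y M g - u) + V i := by
          rw [TT_sub, hV]; simp only; abel
        rw [h3, map_add, ← norm_sq_ip]
        have h4 := abs_ip_le (V i) (TT L P (f i.1) x y i.2 (Fm L x y M g - u))
        have h5 := norm_TT (L := L) (P := P) (f := f i.1) (x := x) (y := y) (a := i.2)
          (hF _ _) (hF _ _) (Fm L x y M g - u)
        have hF0 : 0 ≤ F0 := (abs_nonneg _).trans (hF i.1 x)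
        have h6 : |ip (V i) (TT L P (f i.1) x y i.2 (Fm L x y M g - u))| ≤
            4 * F0 ^ 2 * ‖Fm L x y M g - u‖ := by
          refine h4.trans ?_
          calc _ ≤ (2 * F0) * (2 * F0 * ‖Fm L x y M g - u‖) :=
                mul_le_mul (hVn i) h5 (norm_nonneg _) (by linarith)
            _ = _ := by ring
        have := (abs_le.1 h6).1
        linarith
      have h7 : SE μ L T β (fun g => ‖V i‖ ^ 2 - 4 * F0 ^ 2 * ‖Fm L x y M g - u‖) =
          ‖V i‖ ^ 2 * z - 4 * F0 ^ 2 * SE μ L T β (fun g => ‖Fm L x y M g - u‖) := by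
        rw [SE_sub μ (F := fun _ => ‖V i‖ ^ 2) (H := fun g => 4 * F0 ^ 2 * ‖Fm L x y M g - u‖)
          continuous_const (continuous_const.mul cN), SE_const, SE_smul, ← hz]
      rw [← h7]; exact h2
    calc _ = ∑ i, w i * (‖V i‖ ^ 2 * z - 4 * F0 ^ 2 *
          SE μ L T β (fun g => ‖Fm L x y M g - u‖)) := by
          simp only [mul_sub, Finset.sum_sub_distrib]
          rw [hqu, Finset.sum_mul]
          congr 1
          · exact Finset.sum_congr rfl fun i _ => by ring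
          · rw [← Finset.sum_mul, hwsum]; ring
      _ ≤ _ := Finset.sum_le_sum fun i _ => mul_le_mul_of_nonneg_left (h1 i) (hw0 i)
  have e5 : SE μ L T β (fun g => ‖Fm L x y M g - u‖) ≤
      1 / 2 * (Real.sqrt β * D2 + 1 / Real.sqrt β * z) := by
    have h1 := SE_mono μ (L := L) (T := T) (β := β) (F := fun g => ‖Fm L x y M g - u‖)
      (H := fun g => 1 / 2 * (Real.sqrt β * ‖Fm L x y M g - u‖ ^ 2 + 1 / Real.sqrt β)) cN
      (continuous_const.mul ((continuous_const.mul cN2).add continuous_const)) hFu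
    rw [SE_smul, SE_add μ (F := fun g => Real.sqrt β * ‖Fm L x y M g - u‖ ^ 2)
      (H := fun _ => 1 / Real.sqrt β) (continuous_const.mul cN2) continuous_const, SE_smul,
      SE_const μ (1 / Real.sqrt β), ← hD2, ← hz] at h1
    exact h1
  -- conclusion
  obtain ⟨K2, hK2⟩ : ∃ K2, K2 = 4 * F0 ^ 2 * n * C0 := ⟨_, rfl⟩
  have hK20 : 0 ≤ K2 := by rw [hK2]; positivity
  obtain ⟨K3, hK3⟩ : ∃ K3, K3 = 32 * F0 ^ 4 * n ^ 2 * C0 ^ 2 := ⟨_, rfl⟩
  have hK30 : 0 ≤ K3 := by rw [hK3]; positivity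
  rw [← hK2] at e4 ⊢
  rw [← hK3] at e2 ⊢
  obtain ⟨t, ht⟩ : ∃ t, t = Real.sqrt β := ⟨_, rfl⟩
  have ht0 : 0 < t := by rw [ht]; exact Real.sqrt_pos.2 hβ
  have ht2 : t ^ 2 = β := by rw [ht]; exact Real.sq_sqrt hβ.le
  rw [← ht] at e5 ⊢
  obtain ⟨η, hη⟩ : ∃ η, η = K2 / t := ⟨_, rfl⟩
  have hη0 : 0 ≤ η := by rw [hη]; positivity
  rw [← hη]
  have e6 : K2 * SE μ L T β (fun g => ‖Fm L x y M g - u‖) ≤ 1 / 2 * (η * (β * D2) + η * z) := by
    refine (mul_le_mul_of_nonneg_left e5 hK20).trans (le_of_eq ?_)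
    rw [hη, ← ht2]; field_simp
  have e7 : qu * z - K3 * Xb - η * z ≤ (1 + η) * (β * D2) := by
    rw [e1] at e4
    linarith
  have hA0 : 0 ≤ β * D2 := by positivity
  have e8 : q * z ≤ qu * z := mul_le_mul_of_nonneg_right hqu1 hz0.le
  obtain ⟨r, hr⟩ : ∃ r, r = K3 * Xb + η * z := ⟨_, rfl⟩
  have hr0 : 0 ≤ r := by rw [hr]; positivity
  have e9 : q * z - r ≤ (1 + η) * (β * D2) := by rw [hr]; linarith
  have e10 : (1 + η) * ((1 - η) * q * z - r) ≤ (1 + η) * (β * D2) := by
    refine le_trans ?_ e9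
    have h1 : 0 ≤ η ^ 2 * (q * z) := by positivity
    have h2 : 0 ≤ η * r := by positivity
    nlinarith
  have e11 := le_of_mul_le_mul_left e10 (by linarith : 0 < 1 + η)
  rw [hr] at e11
  linarith

/-- the contraction constant -/
def kap (F0 C0 : ℝ) (n : ℕ) (q β : ℝ) : ℝ :=
  (1 - 4 * F0 ^ 2 * n * C0 / Real.sqrt β) * q - 4 * F0 ^ 2 * n * C0 / Real.sqrt β

theorem slab_ip {P : S → G} {f : J → S → ℝ} {c : J → ℝ} {F0 q : ℝ} {x y : S} {A : Finset ι}
    (hβ : 0 < β) (hF : ∀ j s, |f j s| ≤ F0) (hc : ∀ j, 0 ≤ c j)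
    (hcγ : ∀ j, c j * T.gam (f j) (f j) = 1) (ho : ∀ j k, j ≠ k → T.gam (f j) (f k) = 0)
    (hA : ∀ j e, e ∉ A → f j (T.src e) = 0 ∧ f j (T.tgt e) = 0) (hq0 : 0 ≤ q)
    (hq : ∀ u : Mat N, q * ‖u‖ ^ 2 ≤ ∑ j, c j * ∑ a, ‖TT L P (f j) x y a u‖ ^ 2)
    {M u : Mat N} (hM : ‖M‖ = 1) (hu : ‖u‖ = 1) :
    SE μ L T β (fun g => ip u (Fm L x y M g)) ≤
      Real.exp (-(kap F0 (∑ j, c j) n q β / (2 * β))) * SE μ L T β (fun g =>
        Real.exp (16 * F0 ^ 4 * n ^ 2 * (∑ j, c j) ^ 2 / β * T.X L P A g)) := by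
  have h := slab_quad μ hβ hF hc hcγ ho hA hq0 hq hM hu
  obtain ⟨z, hz⟩ : ∃ z, z = SE μ L T β (fun _ => 1) := ⟨_, rfl⟩
  have hz0 : 0 < z := by rw [hz]; exact SE_pos μ
  have hXc : Continuous (T.X L P A) := X_cont T P A
  obtain ⟨K, hK⟩ : ∃ K, K = 16 * F0 ^ 4 * n ^ 2 * (∑ j, c j) ^ 2 / β := ⟨_, rfl⟩
  have hFc : Continuous (Fm L x y M) := Fm_cont x y M
  have c0 : Continuous fun g => ip u (Fm L x y M g) := (ip_cont _).comp hFc
  have e1 : SE μ L T β (fun g => ‖Fm L x y M g - u‖ ^ 2) =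
      2 * z - 2 * SE μ L T β (fun g => ip u (Fm L x y M g)) := by
    have h1 : (fun g => ‖Fm L x y M g - u‖ ^ 2) = fun g => 2 - 2 * ip u (Fm L x y M g) := by
      funext g
      rw [norm_sq_ip, map_sub]
      have e2 : ip (Fm L x y M g - u) (Fm L x y M g) = 1 - ip u (Fm L x y M g) := by
        rw [ip_comm, map_sub, ← norm_sq_ip, norm_Fm, hM, ip_comm _ u]; norm_num
      have e3 : ip (Fm L x y M g - u) u = ip u (Fm L x y M g) - 1 := by
        rw [ip_comm, map_sub, ← norm_sq_ip, hu]; norm_num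
      rw [e2, e3]; ring
    rw [h1, SE_sub μ (F := fun _ => (2 : ℝ)) (H := fun g => 2 * ip u (Fm L x y M g))
      continuous_const (continuous_const.mul c0), SE_const, SE_smul, ← hz]
  have e2 := SE_jensen μ (L := L) (T := T) (β := β) (F := fun g => K * T.X L P A g)
    (continuous_const.mul hXc)
  rw [SE_smul, ← hz] at e2
  rw [← hK]
  rw [e1, ← hz] at h
  obtain ⟨Xb, hXb⟩ : ∃ Xb, Xb = SE μ L T β (T.X L P A) := ⟨_, rfl⟩
  obtain ⟨I, hI⟩ : ∃ I, I = SE μ L T β (fun g => ip u (Fm L x y M g)) := ⟨_, rfl⟩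
  rw [← hXb] at h e2
  rw [← hI] at h ⊢
  obtain ⟨κ, hκ⟩ : ∃ κ, κ = kap F0 (∑ j, c j) n q β := ⟨_, rfl⟩
  have h3 : κ * z - 32 * F0 ^ 4 * n ^ 2 * (∑ j, c j) ^ 2 * Xb ≤ β * (2 * z - 2 * I) := by
    rw [hκ]
    unfold kap
    refine le_trans (le_of_eq ?_) h
    ring
  rw [← hκ]
  have h4 : I ≤ z * (1 + (-(κ / (2 * β)) + K * Xb / z)) := by
    have e3 : z * (1 + (-(κ / (2 * β)) + K * Xb / z)) =
        z - (κ * z - 32 * F0 ^ 4 * n ^ 2 * (∑ j, c j) ^ 2 * Xb) / (2 * β) := by
      rw [hK]; field_simp; ring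
    rw [e3]
    have h5 : (κ * z - 32 * F0 ^ 4 * n ^ 2 * (∑ j, c j) ^ 2 * Xb) / (2 * β) ≤ z - I := by
      rw [div_le_iff₀ (by positivity)]
      linarith
    linarith
  have h6 : z * (1 + (-(κ / (2 * β)) + K * Xb / z)) ≤
      z * Real.exp (-(κ / (2 * β)) + K * Xb / z) := by
    refine mul_le_mul_of_nonneg_left ?_ hz0.le
    have := Real.add_one_le_exp (-(κ / (2 * β)) + K * Xb / z)
    linarith
  refine (h4.trans h6).trans ?_
  rw [Real.exp_add]
  calc z * (Real.exp (-(κ / (2 * β))) * Real.exp (K * Xb / z)) =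
      Real.exp (-(κ / (2 * β))) * (z * Real.exp (K * Xb / z)) := by ring
    _ ≤ _ := mul_le_mul_of_nonneg_left e2 (Real.exp_pos _).le

/-- the contraction of one slab -/
theorem slab_norm {P : S → G} {f : J → S → ℝ} {c : J → ℝ} {F0 q : ℝ} {x y : S} {A : Finset ι}
    (hβ : 0 < β) (hF : ∀ j s, |f j s| ≤ F0) (hc : ∀ j, 0 ≤ c j)
    (hcγ : ∀ j, c j * T.gam (f j) (f j) = 1) (ho : ∀ j k, j ≠ k → T.gam (f j) (f k) = 0)
    (hA : ∀ j e, e ∉ A → f j (T.src e) = 0 ∧ f j (T.tgt e) = 0) (hq0 : 0 ≤ q)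
    (hq : ∀ u : Mat N, q * ‖u‖ ^ 2 ≤ ∑ j, c j * ∑ a, ‖TT L P (f j) x y a u‖ ^ 2) (M : Mat N) :
    ‖mint (ME μ S) (fun g => Real.exp (-(β * T.act L g)) • Fm L x y M g)‖ ≤
      ‖M‖ * (Real.exp (-(kap F0 (∑ j, c j) n q β / (2 * β))) * SE μ L T β (fun g =>
        Real.exp (16 * F0 ^ 4 * n ^ 2 * (∑ j, c j) ^ 2 / β * T.X L P A g))) := by
  have hcont : Continuous fun g : S → G => Real.exp (-(β * T.act L g)) • Fm L x y M g :=
    wtS_cont.smul (Fm_cont x y M)
  obtain ⟨v, hv⟩ : ∃ v, v = mint (ME μ S) (fun g => Real.exp (-(β * T.act L g)) •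
    Fm L x y M g) := ⟨_, rfl⟩
  have hvi : ∀ w, ip w v = ∫ g, ip w (Real.exp (-(β * T.act L g)) • Fm L x y M g) ∂(ME μ S) :=
    fun w => by rw [hv, ip_mint w hcont]
  rw [← hv]
  obtain ⟨R, hR⟩ : ∃ R, R = Real.exp (-(kap F0 (∑ j, c j) n q β / (2 * β))) *
    SE μ L T β (fun g =>
        Real.exp (16 * F0 ^ 4 * n ^ 2 * (∑ j, c j) ^ 2 / β * T.X L P A g)) := ⟨_, rfl⟩
  have hR0 : 0 ≤ R := by
    rw [hR]
    exact mul_nonneg (Real.exp_pos _).le (SE_nonneg μ fun g => (Real.exp_pos _).le)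
  rw [← hR]
  by_cases hv0 : v = 0
  · rw [hv0, norm_zero]; positivity
  have hvn : 0 < ‖v‖ := norm_pos_iff.2 hv0
  by_cases hM : M = 0
  · exfalso
    apply hv0
    have h1 : ip v v = 0 := by
      rw [hvi, hM]
      have : ∀ g, ip v (Real.exp (-(β * T.act L g)) • Fm L x y (0 : Mat N) g) = 0 := by
        intro g
        unfold Fm
        rw [mul_zero, zero_mul, smul_zero, map_zero]
      simp only [this, integral_zero]
    rw [← norm_sq_ip] at h1
    exact norm_eq_zero.1 (pow_eq_zero_iff two_ne_zero |>.1 h1)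
  have hMn : 0 < ‖M‖ := norm_pos_iff.2 hM
  have h1 := slab_ip μ hβ hF hc hcγ ho hA hq0 hq (M := (‖M‖⁻¹ : ℝ) • M) (u := (‖v‖⁻¹ : ℝ) • v)
    (by rw [norm_smul, norm_inv, norm_norm, inv_mul_cancel₀ hMn.ne'])
    (by rw [norm_smul, norm_inv, norm_norm, inv_mul_cancel₀ hvn.ne'])
  rw [← hR] at h1
  have h2 : SE μ L T β (fun g => ip ((‖v‖⁻¹ : ℝ) • v) (Fm L x y ((‖M‖⁻¹ : ℝ) • M) g)) =
      ‖M‖⁻¹ * ‖v‖ := by
    have e1 : ∀ g, ip ((‖v‖⁻¹ : ℝ) • v) (Fm L x y ((‖M‖⁻¹ : ℝ) • M) g) *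
        Real.exp (-(β * T.act L g)) = ‖v‖⁻¹ * ‖M‖⁻¹ *
          ip v (Real.exp (-(β * T.act L g)) • Fm L x y M g) := by
      intro g
      have e2 : Fm L x y ((‖M‖⁻¹ : ℝ) • M) g = (‖M‖⁻¹ : ℝ) • Fm L x y M g := by
        unfold Fm
        rw [mul_smul_comm, smul_mul_assoc]
      rw [e2, ip_smul_left, map_smul, map_smul, smul_eq_mul, smul_eq_mul]; ring
    unfold SE
    simp only [e1]
    rw [integral_const_mul, ← hvi, ← norm_sq_ip]
    field_simp
  rw [h2] at h1
  rw [inv_mul_le_iff₀ hMn] at h1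
  exact h1

end

end Pool.Agent.TH190.YV
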