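import Mathlib
import Pool.Agent.TH190.YV.Slab2

/-!
# The Casimir element
-/

open MeasureTheory Matrix
open scoped Matrix.Norms.Frobenius ContDiff
open Pool.Agent.H906R3.YM Pool.Agent.W793.YM

namespace Pool.Agent.TH190.YV

set_option linter.unusedSectionVars false
set_option linter.unusedVariables false

noncomputable section

variable {G : Type*} [Group G] [TopologicalSpace G] [IsTopologicalGroup G] [CompactSpace G]
  [SecondCountableTopology G] [MeasurableSpace G] [BorelSpace G] {N n : ℕ} {L : LD G N n}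

variable (L) in
/-- the sum of the squares of the generators -/
def LD.cas : Mat N := ∑ a, L.X a * L.X a

variable (L) in
/-- irreducibility: the commutant is scalar -/
def Irr : Prop := ∀ M : Mat N, (∀ g, L.rho g * M = M * L.rho g) → ∃ c : ℂ, M = c • (1 : Mat N)

lemma sum_YY (g : G) : ∑ a, YY L g a * YY L g a = LD.cas L := by
  have h1 : ∀ a, YY L g a = ∑ b, L.adm g b a • L.X b := fun a => conj_eq g a
  unfold LD.cas
  have h2 : ∀ a, YY L g a * YY L g a =
      ∑ b, ∑ b', (L.adm g b a * L.adm g b' a) • (L.X b * L.X b') := by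
    intro a
    rw [h1, Finset.sum_mul]
    refine Finset.sum_congr rfl fun b _ => ?_
    rw [Finset.mul_sum]
    refine Finset.sum_congr rfl fun b' _ => ?_
    rw [smul_mul_assoc, mul_smul_comm, smul_smul]
  simp only [h2]
  rw [Finset.sum_comm]
  refine Finset.sum_congr rfl fun b _ => ?_
  rw [Finset.sum_comm]
  have h3 : ∀ b', ∑ a, (L.adm g b a * L.adm g b' a) • (L.X b * L.X b') =
      (if b = b' then (1 : ℝ) else 0) • (L.X b * L.X b') := by
    intro b'
    rw [← Finset.sum_smul, sum_adm_adm]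
  simp only [h3, ite_smul, one_smul, zero_smul]
  rw [Finset.sum_ite_eq Finset.univ b, if_pos (Finset.mem_univ b)]

lemma cas_comm (g : G) : L.rho g * LD.cas L = LD.cas L * L.rho g := by
  have h1 := sum_YY (L := L) g
  have h2 : ∑ a, YY L g a * YY L g a = L.rho g * LD.cas L * (L.rho g)ᴴ := by
    unfold LD.cas
    rw [Finset.mul_sum, Finset.sum_mul]
    refine Finset.sum_congr rfl fun a _ => ?_
    unfold YY
    calc L.rho g * L.X a * (L.rho g)ᴴ * (L.rho g * L.X a * (L.rho g)ᴴ) =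
        L.rho g * L.X a * ((L.rho g)ᴴ * L.rho g) * L.X a * (L.rho g)ᴴ := by noncomm_ring
      _ = _ := by rw [L.unit']; noncomm_ring
  rw [h2] at h1
  calc L.rho g * LD.cas L = L.rho g * LD.cas L * ((L.rho g)ᴴ * L.rho g) := by
        rw [L.unit', mul_one]
    _ = (L.rho g * LD.cas L * (L.rho g)ᴴ) * L.rho g := by noncomm_ring
    _ = _ := by rw [h1]

lemma trace_cas : trace (LD.cas L) = -(n : ℂ) := by
  unfold LD.cas
  rw [trace_sum]
  have h1 : ∀ a, trace (L.X a * L.X a) = -1 := by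
    intro a
    have h2 : L.X a * L.X a = -((L.X a)ᴴ * L.X a) := by rw [skew]; noncomm_ring
    rw [h2, trace_neg]
    congr 1
    apply Complex.ext
    · have := L.orth a a
      rw [if_pos rfl] at this
      rw [this]; rfl
    · have h3 : star (trace ((L.X a)ᴴ * L.X a)) = trace ((L.X a)ᴴ * L.X a) := by
        rw [← trace_conjTranspose, conjTranspose_mul, conjTranspose_conjTranspose]
      have h4 := Complex.conj_eq_iff_im.1 h3
      rw [h4]; rfl
  simp only [h1]
  simp

lemma cas_eq (hN : 1 ≤ N) (h : Irr L) : LD.cas L = (-(n / N : ℝ)) • (1 : Mat N) := by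
  obtain ⟨c, hc⟩ := h (LD.cas L) cas_comm
  have h1 := trace_cas (L := L)
  rw [hc, trace_smul, trace_one, Fintype.card_fin, smul_eq_mul] at h1
  have hN0 : (N : ℂ) ≠ 0 := by
    have : N ≠ 0 := by omega
    exact_mod_cast this
  have h2 : c = ((-(n / N : ℝ) : ℝ) : ℂ) := by
    have : c = -(n : ℂ) / N := by
      field_simp
      exact h1
    rw [this]; push_cast; ring
  rw [hc, h2]
  ext i j
  simp [Matrix.smul_apply]

variable {c0 : ℝ}

lemma sum_YYu (hcas : LD.cas L = (-c0) • (1 : Mat N)) (g : G) (u : Mat N) :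
    ∑ a, ‖YY L g a * u‖ ^ 2 = c0 * ‖u‖ ^ 2 := by
  have h1 : ∀ a, ‖YY L g a * u‖ ^ 2 = -ip u ((YY L g a * YY L g a) * u) := by
    intro a
    rw [norm_sq_ip, ip_apply, ip_apply, conjTranspose_mul, YY_skew]
    rw [← Complex.neg_re, ← trace_neg]
    congr 2
    noncomm_ring
  simp only [h1]
  rw [Finset.sum_neg_distrib, ← map_sum, ← Finset.sum_mul, sum_YY, hcas, smul_mul_assoc, one_mul,
    map_smul, smul_eq_mul, norm_sq_ip]
  ring

lemma sum_uYY (hcas : LD.cas L = (-c0) • (1 : Mat N)) (g : G) (u : Mat N) :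
    ∑ a, ‖u * YY L g a‖ ^ 2 = c0 * ‖u‖ ^ 2 := by
  have h1 : ∀ a, ‖u * YY L g a‖ ^ 2 = -ip u (u * (YY L g a * YY L g a)) := by
    intro a
    rw [norm_sq_ip, ip_apply, ip_apply, conjTranspose_mul, YY_skew]
    rw [← Complex.neg_re, ← trace_neg]
    congr 1
    have e1 : -YY L g a * uᴴ * (u * YY L g a) = -(YY L g a * (uᴴ * u * YY L g a)) := by
      noncomm_ring
    have e2 : -(uᴴ * (u * (YY L g a * YY L g a))) = -((uᴴ * u * YY L g a) * YY L g a) := by
      noncomm_ring
    rw [e1, e2, trace_neg, trace_neg, trace_mul_comm]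
  simp only [h1]
  rw [Finset.sum_neg_distrib, ← map_sum, ← Finset.mul_sum, sum_YY, hcas, mul_smul_comm, mul_one,
    map_smul, smul_eq_mul, norm_sq_ip]
  ring

variable {S : Type*} [Fintype S] [DecidableEq S]

/-- the quadratic form of the two test functions -/
theorem hq_two (hcas : LD.cas L = (-c0) • (1 : Mat N)) {P : S → G} {f : Bool → S → ℝ}
    {c : Bool → ℝ} {x y : S} {s : ℝ} (hx : f false x = s) (hy : f false y = -s)
    (hx' : f true x = |s|) (hy' : f true y = |s|) (hc : c false ≤ c true) (u : Mat N) :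
    c false * (4 * s ^ 2 * c0) * ‖u‖ ^ 2 ≤ ∑ j, c j * ∑ a, ‖TT L P (f j) x y a u‖ ^ 2 := by
  obtain ⟨k, hk⟩ : ∃ k, k = ∑ a, ip (YY L (P x) a * u) (u * YY L (P y) a) := ⟨_, rfl⟩
  have h1 := sum_YYu hcas (P x) u
  have h2 := sum_uYY hcas (P y) u
  have hT : ∀ j, ∑ a, ‖TT L P (f j) x y a u‖ ^ 2 = f j x ^ 2 * (c0 * ‖u‖ ^ 2) +
      f j y ^ 2 * (c0 * ‖u‖ ^ 2) - 2 * (f j x * f j y) * k := by
    intro j
    have h3 : ∀ a, ‖TT L P (f j) x y a u‖ ^ 2 = f j x ^ 2 * ‖YY L (P x) a * u‖ ^ 2 +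
        f j y ^ 2 * ‖u * YY L (P y) a‖ ^ 2 -
        2 * (f j x * f j y) * ip (YY L (P x) a * u) (u * YY L (P y) a) := by
      intro a
      obtain ⟨A, hA⟩ : ∃ A, A = YY L (P x) a * u := ⟨_, rfl⟩
      obtain ⟨B, hB⟩ : ∃ B, B = u * YY L (P y) a := ⟨_, rfl⟩
      have e : TT L P (f j) x y a u = f j x • A - f j y • B := by rw [hA, hB]; rfl
      rw [e, ← hA, ← hB, norm_sq_ip, norm_sq_ip, norm_sq_ip]
      have e1 : ip (f j x • A - f j y • B) (f j x • A - f j y • B) =
          f j x * ip A (f j x • A - f j y • B) - f j y * ip B (f j x • A - f j y • B) := by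
        rw [ip_comm (f j x • A - f j y • B), map_sub, map_smul, map_smul, smul_eq_mul, smul_eq_mul,
          ip_comm _ A, ip_comm _ B]
      rw [e1, map_sub, map_sub, map_smul, map_smul, map_smul, map_smul, smul_eq_mul, smul_eq_mul,
        smul_eq_mul, smul_eq_mul, ip_comm B A]
      ring
    simp only [h3]
    rw [Finset.sum_sub_distrib, Finset.sum_add_distrib, ← Finset.mul_sum, ← Finset.mul_sum,
      ← Finset.mul_sum, h2, h1, hk]
  have hk1 : |k| ≤ c0 * ‖u‖ ^ 2 := by
    rw [hk]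
    refine (Finset.abs_sum_le_sum_abs _ _).trans ?_
    have h4 : ∀ a ∈ (Finset.univ : Finset (Fin n)),
        |ip (YY L (P x) a * u) (u * YY L (P y) a)| ≤
        (‖YY L (P x) a * u‖ ^ 2 + ‖u * YY L (P y) a‖ ^ 2) / 2 := by
      intro a _
      refine (abs_ip_le _ _).trans ?_
      nlinarith [sq_nonneg (‖YY L (P x) a * u‖ - ‖u * YY L (P y) a‖)]
    refine (Finset.sum_le_sum h4).trans (le_of_eq ?_)
    rw [← Finset.sum_div, Finset.sum_add_distrib, h1, h2]; ring
  have hk2 := (abs_le.1 hk1).2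
  rw [Fintype.sum_bool, hT, hT, hx, hy, hx', hy']
  have h5 : |s| * |s| = s ^ 2 := by rw [← pow_two, sq_abs]
  rw [sq_abs, h5]
  have h6 : 0 ≤ (c true - c false) * (2 * s ^ 2 * (c0 * ‖u‖ ^ 2 - k)) := by
    refine mul_nonneg (by linarith) ?_
    exact mul_nonneg (by positivity) (by linarith)
  nlinarith

end

end Pool.Agent.TH190.YV
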