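import Mathlib
import Pool.Agent.W793.YM.Lat2

/-!
# Successive averages over disjoint sets of links
-/

open MeasureTheory Matrix
open scoped Matrix.Norms.Frobenius ContDiff
open Pool.Agent.H906R3.YM Pool.Agent.W793.YM

namespace Pool.Agent.TH190.YV

set_option linter.unusedSectionVars false
set_option linter.unusedVariables false

noncomputable section

variable {E : Type*} [Fintype E] [DecidableEq E] {G : Type*} [Group G] [TopologicalSpace G]
  [IsTopologicalGroup G] [CompactSpace G] [SecondCountableTopology G] [MeasurableSpace G]
  [BorelSpace G] (μ : Measure G) [IsProbabilityMeasure μ]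

/-- the values of `g` on `p`, of `U` elsewhere -/
def mixp (p : E → Prop) [DecidablePred p] (g U : E → G) : E → G := fun e => if p e then g e else U e

variable (p : E → Prop) [DecidablePred p]

omit [Fintype E] [DecidableEq E] [IsTopologicalGroup G] [CompactSpace G]
  [SecondCountableTopology G] [MeasurableSpace G] [BorelSpace G] in
lemma mixp_cont : Continuous fun z : (E → G) × (E → G) => mixp p z.1 z.2 := by
  refine continuous_pi fun e => ?_
  unfold mixp
  by_cases h : p e
  · simp only [h, if_true]; exact (continuous_apply e).comp continuous_fst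
  · simp only [h, if_false]; exact (continuous_apply e).comp continuous_snd

lemma mixp_mp : MeasurePreserving (fun z : (E → G) × (E → G) => mixp p z.1 z.2)
    ((ME μ E).prod (ME μ E)) (ME μ E) := by
  refine ⟨(mixp_cont p).measurable, ?_⟩
  symm
  refine Measure.pi_eq fun s hs => ?_
  rw [Measure.map_apply (mixp_cont p).measurable (MeasurableSet.univ_pi hs)]
  have h1 : (fun z : (E → G) × (E → G) => mixp p z.1 z.2) ⁻¹' (Set.univ.pi s) =
      (Set.univ.pi fun e => if p e then s e else Set.univ) ×ˢ
        (Set.univ.pi fun e => if p e then Set.univ else s e) := by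
    ext z
    simp only [Set.mem_preimage, Set.mem_pi, Set.mem_univ, forall_true_left, Set.mem_prod]
    constructor
    · intro h
      refine ⟨fun e => ?_, fun e => ?_⟩
      · have := h e
        unfold mixp at this
        split_ifs with he
        · rwa [if_pos he] at this
        · trivial
      · have := h e
        unfold mixp at this
        split_ifs with he
        · trivial
        · rwa [if_neg he] at this
    · rintro ⟨h, h'⟩ e
      have h2 := h e
      have h3 := h' e
      unfold mixp
      split_ifs with he
      · rwa [if_pos he] at h2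
      · rwa [if_neg he] at h3
  rw [h1, Measure.prod_prod]
  unfold ME
  rw [Measure.pi_pi, Measure.pi_pi, ← Finset.prod_mul_distrib]
  refine Finset.prod_congr rfl fun e _ => ?_
  by_cases h : p e
  · simp only [h, if_true, measure_univ, mul_one]
  · simp only [h, if_false, measure_univ, one_mul]

section avg

variable {V : Type*} [NormedAddCommGroup V] [NormedSpace ℝ V]

lemma cont_int {X : Type*} [TopologicalSpace X] [CompactSpace X] [MeasurableSpace X]
    [SecondCountableTopology X] [OpensMeasurableSpace X] {ν : Measure X} [IsFiniteMeasure ν]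
    {f : X → V} (hf : Continuous f) : Integrable f ν :=
  hf.integrable_of_hasCompactSupport (HasCompactSupport.of_compactSpace _)

theorem integral_mixp {F : (E → G) → V} (hF : Continuous F) :
    ∫ U, ∫ g, F (mixp p g U) ∂(ME μ E) ∂(ME μ E) = ∫ U, F U ∂(ME μ E) := by
  have hc : Continuous fun z : (E → G) × (E → G) => F (mixp p z.1 z.2) := hF.comp (mixp_cont p)
  have hc' : Continuous fun z : (E → G) × (E → G) => F (mixp p z.2 z.1) :=
    hc.comp continuous_swap
  have h1 : ∫ z, F (mixp p z.1 z.2) ∂((ME μ E).prod (ME μ E)) = ∫ U, F U ∂(ME μ E) := by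
    rw [← (mixp_mp μ p).map_eq, integral_map (mixp_cont p).measurable.aemeasurable
      hF.aestronglyMeasurable, (mixp_mp μ p).map_eq]
  rw [← h1]
  rw [integral_prod_symm _ (cont_int hc)]

/-- the average over the links of `p` -/
def avg (K : (E → G) → V) (U : E → G) : V := ∫ g, K (mixp p g U) ∂(ME μ E)

variable {p} {μ}

lemma avg_cont {K : (E → G) → V} (hK : Continuous K) : Continuous (avg μ p K) := by
  have hc : Continuous (Function.uncurry fun (U g : E → G) => K (mixp p g U)) :=
    (hK.comp (mixp_cont p)).comp continuous_swap
  have h := continuous_parametric_integral_of_continuous (μ := ME μ E) hc isCompact_univ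
  simp only [Measure.restrict_univ] at h
  exact h

lemma avg_dep {q : E → Prop} {K : (E → G) → V} (hK : Dep q K) :
    Dep (fun e => q e ∧ ¬p e) (avg μ p K) := by
  intro U U' h
  unfold avg
  congr 1
  funext g
  refine hK _ _ fun e he => ?_
  unfold mixp
  split_ifs with hp
  · rfl
  · exact h e ⟨he, hp⟩

lemma dep_mix {α : Type*} {q : E → Prop} {K : (E → G) → α} (hK : Dep q K)
    (hq : ∀ e, q e → ¬p e) (g U : E → G) : K (mixp p g U) = K U := by
  refine hK _ _ fun e he => ?_
  unfold mixp
  rw [if_neg (hq e he)]

end avg

section chain

variable {𝓐 : Type*} [NormedRing 𝓐] [NormedAlgebra ℝ 𝓐] [CompleteSpace 𝓐]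

/-- the product of the first factors -/
def pk (K : ℕ → (E → G) → 𝓐) : ℕ → (E → G) → 𝓐
  | 0 => fun _ => 1
  | t + 1 => fun U => pk K t U * K t U

lemma pk_cont {K : ℕ → (E → G) → 𝓐} {T : ℕ} (hK : ∀ t < T, Continuous (K t)) :
    Continuous (pk K T) := by
  induction T with
  | zero => exact continuous_const
  | succ t ih => exact (ih fun s hs => hK s (by omega)).mul (hK t (by omega))

lemma pk_dep {K : ℕ → (E → G) → 𝓐} {q : E → Prop} {T : ℕ} (hK : ∀ t < T, Dep q (K t)) :
    Dep q (pk K T) := by
  induction T with
  | zero => intro U U' _; rfl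
  | succ t ih =>
    intro U U' h
    show pk K t U * K t U = pk K t U' * K t U'
    rw [ih (fun s hs => hK s (by omega)) U U' h, hK t (by omega) U U' h]

lemma integral_mul3 {X : Type*} [TopologicalSpace X] [CompactSpace X] [MeasurableSpace X]
    [SecondCountableTopology X] [OpensMeasurableSpace X] {ν : Measure X} [IsFiniteMeasure ν]
    {f : X → 𝓐} (hf : Continuous f) (a b : 𝓐) : ∫ x, a * f x * b ∂ν = a * (∫ x, f x ∂ν) * b := by
  have h := ContinuousLinearMap.integral_comp_comm
    ((ContinuousLinearMap.mul ℝ 𝓐 a).comp ((ContinuousLinearMap.mul ℝ 𝓐).flip b)) (cont_int (ν := ν) hf)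
  simp only [ContinuousLinearMap.comp_apply, ContinuousLinearMap.flip_apply,
    ContinuousLinearMap.mul_apply'] at h
  rw [mul_assoc, ← h]
  simp only [mul_assoc]

/-- successive averages over disjoint sets -/
theorem chain {p : ℕ → E → Prop} [∀ t, DecidablePred (p t)] {K : ℕ → (E → G) → 𝓐} {T : ℕ}
    (hK : ∀ t < T, Continuous (K t))
    (hKd : ∀ t < T, Dep (fun e => ∀ s < T, s ≠ t → ¬p s e) (K t))
    {C R : (E → G) → 𝓐} (hC : Continuous C) (hR : Continuous R)
    (hCd : Dep (fun e => ∀ s < T, ¬p s e) C) (hRd : Dep (fun e => ∀ s < T, ¬p s e) R) :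
    ∫ U, C U * pk K T U * R U ∂(ME μ E) =
      ∫ U, C U * pk (fun t => avg μ (p t) (K t)) T U * R U ∂(ME μ E) := by
  -- replace the first `k` factors
  have key : ∀ k ≤ T, ∀ R' : (E → G) → 𝓐, Continuous R' →
      Dep (fun e => ∀ s < k, ¬p s e) R' →
      ∫ U, C U * pk K k U * R' U ∂(ME μ E) =
        ∫ U, C U * pk (fun t => avg μ (p t) (K t)) k U * R' U ∂(ME μ E) := by
    intro k
    induction k with
    | zero => intro _ R' _ _; rfl
    | succ k ih =>
      intro hk R' hR' hRd'
      have hKk := hK k (by omega)
      have e1 : ∀ U, C U * pk K (k + 1) U * R' U = C U * pk K k U * (K k U * R' U) := by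
        intro U
        show C U * (pk K k U * K k U) * R' U = _
        noncomm_ring
      simp only [e1]
      rw [ih (by omega) (fun U => K k U * R' U) (hKk.mul hR') (by
        intro U U' h
        show K k U * R' U = K k U' * R' U'
        have a1 : K k U = K k U' := by
          -- only the links outside of the first sets matter
          have h3 : ∀ e, (∀ s < k, ¬p s e) → U e = U' e := h
          refine hKd k (by omega) U U' fun e he => h3 e fun s hs => he s (by omega) (by omega)
        have a2 : R' U = R' U' := by
          refine hRd' U U' fun e he => h e fun s hs => he s (by omega)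
        rw [a1, a2])]
      have hpc : Continuous (pk (fun t => avg μ (p t) (K t)) k) :=
        pk_cont fun t ht => avg_cont (hK t (by omega))
      rw [← integral_mixp μ (p k) (F := fun U => C U * pk (fun t => avg μ (p t) (K t)) k U *
        (K k U * R' U)) ((hC.mul hpc).mul (hKk.mul hR'))]
      refine integral_congr_ae (Filter.Eventually.of_forall fun U => ?_)
      simp only
      have b1 : ∀ g, C (mixp (p k) g U) = C U := fun g =>
        dep_mix hCd (fun e he => he k (by omega)) g U
      have b2 : ∀ g, R' (mixp (p k) g U) = R' U := fun g =>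
        dep_mix hRd' (fun e he => he k (by omega)) g U
      have b3 : ∀ g, pk (fun t => avg μ (p t) (K t)) k (mixp (p k) g U) =
          pk (fun t => avg μ (p t) (K t)) k U := by
        intro g
        have hd : Dep (fun e => ¬p k e) (pk (fun t => avg μ (p t) (K t)) k) := by
          refine pk_dep fun t ht => ?_
          intro V V' h
          refine avg_dep (hKd t (by omega)) V V' fun e he => h e ?_
          exact he.1 k (by omega) (by omega)
        exact dep_mix hd (fun e he => he) g U
      simp only [b1, b2, b3]
      have b4 : ∀ g, C U * pk (fun t => avg μ (p t) (K t)) k U * (K k (mixp (p k) g U) * R' U) =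
          (C U * pk (fun t => avg μ (p t) (K t)) k U) * K k (mixp (p k) g U) * R' U := by
        intro g; noncomm_ring
      simp only [b4]
      have hcg : Continuous fun g => K k (mixp (p k) g U) :=
        hKk.comp ((mixp_cont (p k)).comp (Continuous.prodMk continuous_id continuous_const))
      rw [integral_mul3 hcg]
      show _ = C U * (pk (fun t => avg μ (p t) (K t)) k U * avg μ (p k) (K k) U) * R' U
      unfold avg
      noncomm_ring
  exact key T le_rfl R hR hRd

end chain

end

end Pool.Agent.TH190.YV
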