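import Mathlib
import Pool.Agent.W793.YM.Lat2

/-!
# Exponential moments of the action in a tube
-/

open MeasureTheory Matrix
open scoped Matrix.Norms.Frobenius ContDiff
open Pool.Agent.H906R3.YM Pool.Agent.W793.YM

namespace Pool.Agent.TH190.YV

set_option linter.unusedSectionVars false
set_option linter.unusedVariables false

noncomputable section

section basic

variable {E : Type*} [DecidableEq E] {G : Type*} [Group G]

/-- `g` on `s`, `1` elsewhere -/
def onJ (s : Finset E) (g : E → G) : E → G := fun e => if e ∈ s then g e else 1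

/-- the reflection of `onJ` -/
def onT (T : Refl E) (s : Finset E) (g : E → G) : E → G :=
  fun e => if T.th e ∈ s then g (T.th e) else 1

lemma onJ_mul_inv (s : Finset E) (g : E → G) : onJ s g * onJ s g⁻¹ = 1 := by
  funext e
  rw [Pi.mul_apply, Pi.one_apply]
  unfold onJ
  split_ifs
  · rw [Pi.inv_apply, mul_inv_cancel]
  · rw [mul_one]

lemma onT_mul_inv (T : Refl E) (s : Finset E) (g : E → G) : onT T s g * onT T s g⁻¹ = 1 := by
  funext e
  rw [Pi.mul_apply, Pi.one_apply]
  unfold onT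
  split_ifs
  · rw [Pi.inv_apply, mul_inv_cancel]
  · rw [mul_one]

variable {T : Refl E} {s : Finset E} (hs : s ⊆ T.J)

include hs

lemma tU_onT (g : E → G) (U : E → G) : T.tU (onT T s g * U) = onJ s g * T.tU U := by
  classical
  funext e'
  unfold Refl.tU
  rw [Pi.mul_apply, Pi.mul_apply]
  have h1 : onT T s g (T.th e') = onJ s g e' := by
    unfold onT onJ
    rw [T.th_th]
  rw [h1]
  by_cases h : e' ∈ s
  · have hne : ¬T.iv e' := T.J_iv e' (hs h)
    rw [if_neg hne, if_neg hne]
  · have h2 : onJ s g e' = 1 := by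
      unfold onJ; rw [if_neg h]
    rw [h2, one_mul, one_mul]

lemma tU_onJ (g : E → G) (U : E → G) : T.tU (onJ s g * U) = onT T s g * T.tU U := by
  have h := tU_onT hs g (T.tU U)
  rw [T.tU_tU] at h
  rw [← h, T.tU_tU]

lemma onT_R (g : E → G) {e : E} (he : T.R e) : onT T s g e = 1 := by
  unfold onT
  rw [if_neg]
  intro h
  exact T.th_R e he (T.J_R _ (hs h))

lemma onJ_th (g : E → G) {e : E} (he : T.R e) : onJ s g (T.th e) = 1 := by
  unfold onJ
  rw [if_neg]
  intro h
  exact T.th_R e he (T.J_R _ (hs h))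

lemma onT_th (g : E → G) (e : E) : onT T s g (T.th e) = onJ s g e := by
  unfold onT onJ
  rw [T.th_th]

lemma W_onT (g U : E → G) {e : E} (he : e ∈ T.J) :
    T.W (onT T s g⁻¹ * U) e = T.W U e * onJ s g e := by
  unfold Refl.W
  rw [Pi.mul_apply, Pi.mul_apply, onT_R hs _ (T.J_R e he), onT_th hs, one_mul, _root_.mul_inv_rev,
    mul_assoc]
  congr 2
  unfold onJ
  split_ifs
  · rw [Pi.inv_apply, inv_inv]
  · rw [inv_one]

lemma W_onJT (g U : E → G) {e : E} (he : e ∈ T.J) :
    T.W (onJ s g * (onT T s g * U)) e = onJ s g e * T.W U e * (onJ s g e)⁻¹ := by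
  unfold Refl.W
  simp only [Pi.mul_apply]
  rw [onT_R hs _ (T.J_R e he), onT_th hs, onJ_th hs _ (T.J_R e he)]
  group

end basic

variable {E : Type*} [Fintype E] [DecidableEq E] {G : Type*} [Group G] [TopologicalSpace G]
  [IsTopologicalGroup G] [CompactSpace G] [SecondCountableTopology G] [MeasurableSpace G]
  [BorelSpace G] (μ : Measure G) [IsProbabilityMeasure μ] [μ.IsMulLeftInvariant]
  [μ.IsMulRightInvariant] [μ.IsInvInvariant] {N n : ℕ} {L : LD G N n} {T : Refl E} {s : Finset E}

section dom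

variable (hs : s ⊆ T.J)

include hs

lemma ker_onT (g U : E → G) : T.ker L (onT T s g⁻¹ * U) = T.ker L U +
    ∑ e ∈ s, ((trace (L.rho (T.W U e * g e))).re - (trace (L.rho (T.W U e))).re) := by
  rw [ker_eqW, ker_eqW]
  have h1 : ∀ e ∈ T.J, (trace (L.rho (T.W (onT T s g⁻¹ * U) e))).re =
      (trace (L.rho (T.W U e))).re + if e ∈ s then
        ((trace (L.rho (T.W U e * g e))).re - (trace (L.rho (T.W U e))).re) else 0 := by
    intro e he
    rw [W_onT hs g U he]
    unfold onJ
    split_ifs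
    · ring
    · rw [mul_one, add_zero]
  rw [Finset.sum_congr rfl h1, Finset.sum_add_distrib, ← Finset.sum_filter,
    Finset.filter_mem_eq_inter, Finset.inter_eq_right.2 hs]

lemma ker_onJT (g U : E → G) : T.ker L (onJ s g * (onT T s g * U)) = T.ker L U := by
  rw [ker_eqW, ker_eqW]
  refine Finset.sum_congr rfl fun e he => ?_
  rw [W_onJT hs g U he, Pool.Agent.W793.YM.trace_conj]

theorem dom_set {β : ℝ} (hβ : 0 ≤ β) {w : (E → G) → ℝ} (hw : Continuous w) (hd : Dep T.R w)
    (g : E → G) :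
    T.Ew μ L β w (fun U => Real.exp (β * ∑ e ∈ s, ((trace (L.rho (T.W U e * g e))).re -
      (trace (L.rho (T.W U e))).re))) ≤ T.Ew μ L β w (fun _ => 1) := by
  have hms : ∀ (h : E → G), Continuous fun U : E → G => h * U := fun h =>
    continuous_const.mul continuous_id
  obtain ⟨f, hf⟩ : ∃ f : (E → G) → ℝ, f = fun U => w (onJ s g * U) := ⟨_, rfl⟩
  have hfc : Continuous f := by rw [hf]; exact hw.comp (hms _)
  have hfd : Dep T.R f := by
    intro U U' h
    rw [hf]
    refine hd _ _ fun e' he' => ?_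
    rw [Pi.mul_apply, Pi.mul_apply, h e' he']
  have h1 := T.B_quad μ (L := L) hβ hw hd hfc hfd (-1)
  have hwT : ∀ (h U : E → G), w (onT T s h * U) = w U := fun h U => hd _ _ fun e' he' => by
    rw [Pi.mul_apply, onT_R hs _ he', one_mul]
  have h2 : T.B μ L β w f = T.Ew μ L β w (fun U => Real.exp (β * ∑ e ∈ s,
      ((trace (L.rho (T.W U e * g e))).re - (trace (L.rho (T.W U e))).re))) := by
    unfold Refl.B Refl.Ew
    have h3 := integral_mul_left_eq_self (μ := ME μ E)
      (fun U => w U * f (T.tU U) * Real.exp (β * T.ker L U)) (onT T s g⁻¹)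
    rw [← h3]
    refine integral_congr_ae (Filter.Eventually.of_forall fun U => ?_)
    simp only
    rw [ker_onT hs, tU_onT hs, hf]
    have e2 : onJ s g * (onJ s g⁻¹ * T.tU U) = T.tU U := by
      rw [← mul_assoc, onJ_mul_inv, one_mul]
    simp only
    rw [hwT, e2, mul_add, Real.exp_add]; ring
  have h4 : T.B μ L β f f = T.B μ L β w w := by
    unfold Refl.B
    have h3 := integral_mul_left_eq_self (μ := ME μ E)
      (fun U => f U * f (T.tU U) * Real.exp (β * T.ker L U))
      (onJ s g⁻¹ * onT T s g⁻¹)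
    rw [← h3]
    refine integral_congr_ae (Filter.Eventually.of_forall fun U => ?_)
    simp only
    rw [mul_assoc (onJ s g⁻¹ : E → G), ker_onJT hs, hf]
    simp only
    rw [tU_onJ hs, tU_onT hs]
    have e1 : w (onJ s g * (onJ s g⁻¹ * (onT T s g⁻¹ * U))) = w U := by
      rw [← mul_assoc, onJ_mul_inv, one_mul, hwT]
    have e2 : w (onJ s g * (onT T s g⁻¹ * (onJ s g⁻¹ * T.tU U))) = w (T.tU U) := by
      refine hd _ _ fun e' he' => ?_
      simp only [Pi.mul_apply]
      rw [onT_R hs _ he', one_mul, ← mul_assoc]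
      have := congrFun (onJ_mul_inv s g) e'
      rw [Pi.mul_apply, Pi.one_apply] at this
      rw [this, one_mul]
    rw [e1, e2]
  have h5 : T.B μ L β w w = T.Ew μ L β w (fun _ => 1) := by
    unfold Refl.B Refl.Ew
    simp only [one_mul]
  rw [h4, h2, h5] at h1
  linarith

theorem expm_set {β : ℝ} (hβ : 0 ≤ β) {w : (E → G) → ℝ} (hw : Continuous w) (hd : Dep T.R w) :
    zz μ L β ^ s.card * T.Ew μ L β w (fun U => Real.exp (β * ∑ e ∈ s, we L (T.W U e))) ≤
      T.Ew μ L β w (fun _ => 1) := by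
  have hWc : ∀ e, Continuous fun U : E → G => T.W U e := fun e => cont_W (G := G) T e
  have h1 : ∀ g : E → G, T.Ew μ L β w (fun U => Real.exp (β * ∑ e ∈ s,
      ((trace (L.rho (T.W U e * g e))).re - (trace (L.rho (T.W U e))).re))) ≤
      T.Ew μ L β w (fun _ => 1) := dom_set μ hs hβ hw hd
  have hcont : Continuous fun z : (E → G) × (E → G) => Real.exp (β * ∑ e ∈ s,
      ((trace (L.rho (T.W z.2 e * z.1 e))).re -
      (trace (L.rho (T.W z.2 e))).re)) * (w z.2 * w (T.tU z.2) * Real.exp (β * T.ker L z.2)) := by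
    refine Continuous.mul ?_ ((T.wt_cont hw).comp continuous_snd)
    refine Real.continuous_exp.comp (continuous_const.mul (continuous_finsetSum _ fun e _ =>
      Continuous.sub ?_ ?_))
    · exact cont_retr.comp (((hWc e).comp continuous_snd).mul
        ((continuous_apply e).comp continuous_fst))
    · exact cont_retr.comp ((hWc e).comp continuous_snd)
  have hint : Integrable (fun z : (E → G) × (E → G) => Real.exp (β * ∑ e ∈ s,
      ((trace (L.rho (T.W z.2 e * z.1 e))).re -
      (trace (L.rho (T.W z.2 e))).re)) * (w z.2 * w (T.tU z.2) * Real.exp (β * T.ker L z.2)))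
      ((ME μ E).prod (ME μ E)) := cont_integrable hcont
  have h2 : ∫ g, T.Ew μ L β w (fun U => Real.exp (β * ∑ e ∈ s,
      ((trace (L.rho (T.W U e * g e))).re -
      (trace (L.rho (T.W U e))).re))) ∂(ME μ E) ≤ ∫ g, T.Ew μ L β w (fun _ => 1) ∂(ME μ E) :=
    integral_mono hint.integral_prod_left (integrable_const _) h1
  rw [integral_const, probReal_univ, one_smul] at h2
  refine le_trans (le_of_eq ?_) h2
  unfold Refl.Ew
  rw [integral_integral_swap hint, ← integral_const_mul]
  refine integral_congr_ae (Filter.Eventually.of_forall fun U => ?_)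
  simp only
  rw [integral_mul_const]
  have h3 : ∀ g : E → G, Real.exp (β * ∑ e ∈ s, ((trace (L.rho (T.W U e * g e))).re -
      (trace (L.rho (T.W U e))).re)) = Real.exp (β * ∑ e ∈ s, we L (T.W U e)) *
      ∏ e, (if e ∈ s then Real.exp (-(β * we L (T.W U e * g e))) else 1) := by
    intro g
    rw [← Finset.prod_filter, Finset.filter_mem_eq_inter, Finset.univ_inter, ← Real.exp_sum,
      ← Real.exp_add]
    congr 1
    rw [Finset.mul_sum, Finset.mul_sum, ← Finset.sum_add_distrib]
    refine Finset.sum_congr rfl fun e _ => ?_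
    rw [we_tr, we_tr]; ring
  simp only [h3]
  rw [integral_const_mul]
  have h4 : ∫ g : E → G, ∏ e, (if e ∈ s then Real.exp (-(β * we L (T.W U e * g e))) else 1)
      ∂(ME μ E) = zz μ L β ^ s.card := by
    have h5 := integral_fintype_prod_eq_prod (𝕜 := ℝ) (μ := fun _ : E => μ)
      (fun (e : E) (x : G) => if e ∈ s then Real.exp (-(β * we L (T.W U e * x))) else 1)
    unfold ME
    rw [h5]
    have h6 : ∀ e, ∫ x, (if e ∈ s then Real.exp (-(β * we L (T.W U e * x))) else 1) ∂μ =
        if e ∈ s then zz μ L β else 1 := by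
      intro e
      split_ifs
      · exact integral_mul_left_eq_self (μ := μ) (fun g => Real.exp (-(β * we L g))) (T.W U e)
      · simp
    simp only [h6]
    rw [← Finset.prod_filter, Finset.filter_mem_eq_inter, Finset.univ_inter, Finset.prod_const]
  rw [h4]
  ring

end dom

section torus

variable {d m : ℕ} [NeZero m]

/-- plaquettes in a hyperplane -/
theorem expm_plane (hm : 2 ≤ m) {β : ℝ} (hβ : 0 ≤ β) {i0 k : Fin d} (hk : k ≠ i0)
    (Z : Finset (Fin d → ZMod (2 * m))) (hZ : ∀ z ∈ Z, z i0 = 0) :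
    zz μ L β ^ Z.card * Zt μ L β (fun U : Ed d (2 * m) → G =>
      Real.exp (β * ∑ z ∈ Z, we L (plqT U z k i0))) ≤ Zt μ L β (fun _ : Ed d (2 * m) → G => 1) := by
  obtain ⟨c, hc, hred⟩ := Zt_red μ (L := L) hm i0 β
  have hcont : Continuous fun U : Ed d (2 * m) → G =>
      Real.exp (β * ∑ z ∈ Z, we L (plqT U z k i0)) :=
    Real.continuous_exp.comp (continuous_const.mul
      (continuous_finsetSum _ fun z _ => Sm_cont ⟨_, we_mem (L := L) z k i0⟩))
  have hgi : GI fun U : Ed d (2 * m) → G => Real.exp (β * ∑ z ∈ Z, we L (plqT U z k i0)) := by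
    intro γ U
    show Real.exp (β * ∑ z ∈ Z, we L (plqT (gt γ U) z k i0)) = _
    simp only [plqT_gt, we_conj]
  have hgi1 : GI fun _ : Ed d (2 * m) → G => (1 : ℝ) := fun γ U => rfl
  rw [hred _ hcont hgi, hred _ continuous_const hgi1]
  obtain ⟨s, hs⟩ : ∃ s : Finset (Ed d (2 * m)), s = Z.image fun z => (z + eT i0, k) := ⟨_, rfl⟩
  have hinj : Function.Injective fun z : Fin d → ZMod (2 * m) => ((z + eT i0, k) : Ed d (2 * m)) := by
    intro z z' h
    have := congrArg Prod.fst h
    exact add_right_cancel this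
  have hcard : s.card = Z.card := by
    rw [hs, Finset.card_image_of_injective _ hinj]
  have hsJ : s ⊆ (TR hm i0).J := by
    intro e he
    rw [hs, Finset.mem_image] at he
    obtain ⟨z, hz, rfl⟩ := he
    show _ ∈ Finset.univ.filter _
    rw [Finset.mem_filter]
    refine ⟨Finset.mem_univ _, hk, Or.inl ?_⟩
    simp only [add_same, hZ z hz, zero_add]
  have h1 := expm_set μ (L := L) hsJ hβ (w := (wR L β m i0).1) (Sm_cont _) (wR_dep hm _ _)
  rw [hcard] at h1
  have h2 : (fun U : Ed d (2 * m) → G => Real.exp (β * ∑ z ∈ Z, we L (plqT (fix i0 U) z k i0))) =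
      fun U => Real.exp (β * ∑ e ∈ s, we L ((TR hm i0).W U e)) := by
    funext U
    congr 2
    rw [hs, Finset.sum_image (fun a _ b _ h => hinj h)]
    refine Finset.sum_congr rfl fun z hz => ?_
    have hz0 := hZ z hz
    have h3 : plqT (fix i0 U) z k i0 = ((TR hm i0).W U (z + eT i0, k))⁻¹ := by
      have h5 : rB i0 z = z := by
        unfold rB
        rw [hz0, neg_zero, ← hz0, Function.update_eq_self]
      have h4 : (TR hm i0).W U (z + eT i0, k) =
          U (z + eT i0, k) * (U (rA i0 (z + eT i0), k))⁻¹ := by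
        unfold Refl.W TR
        simp [hk]
      rw [h4, rA_eq', h5]
      unfold plqT
      rw [fix_i0' U z (Or.inl hz0), fix_i0' U _ (Or.inl (by rw [add_ne z hk, hz0])),
        fix_ne _ _ hk, fix_ne _ _ hk]
      group
    rw [h3, we_inv]
  rw [h2]
  calc zz μ L β ^ Z.card * (c * (TR hm i0).Ew μ L β (wR L β m i0).1 fun U =>
        Real.exp (β * ∑ e ∈ s, we L ((TR hm i0).W U e))) =
      c * (zz μ L β ^ Z.card * (TR hm i0).Ew μ L β (wR L β m i0).1 fun U =>
        Real.exp (β * ∑ e ∈ s, we L ((TR hm i0).W U e))) := by ring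
    _ ≤ c * (TR hm i0).Ew μ L β (wR L β m i0).1 (fun _ => 1) :=
        mul_le_mul_of_nonneg_left h1 hc.le

/-- the tube of one plaquette -/
def tb (L : LD G N n) (j i k : Fin d) (x : St d (2 * m)) (T : ℕ) (U : Ed d (2 * m) → G) : ℝ :=
  ∑ t ∈ Finset.range T, we L (plqT U (x + t • eT j) i k)

lemma tb_cont (j i k : Fin d) (x : St d (2 * m)) (T : ℕ) :
    Continuous (tb L j i k x T : (Ed d (2 * m) → G) → ℝ) := by
  unfold tb
  exact continuous_finsetSum _ fun t _ => Sm_cont ⟨_, we_mem (L := L) _ i k⟩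

lemma expm_tb0 (hm : 2 ≤ m) {β : ℝ} (hβ : 0 ≤ β) {j i0 k : Fin d} (hk : k ≠ i0) (hj : i0 ≠ j)
    (x : St d (2 * m)) {T : ℕ} (hT : T ≤ 2 * m) :
    zz μ L β ^ T * Zt μ L β (fun U : Ed d (2 * m) → G =>
      Real.exp (β * tb L j k i0 x T U)) ≤ Zt μ L β (fun _ : Ed d (2 * m) → G => 1) := by
  obtain ⟨Z, hZ⟩ : ∃ Z : Finset (St d (2 * m)), Z = (Finset.range T).image fun t => t • eT j :=
    ⟨_, rfl⟩
  have hinj : ∀ a ∈ Finset.range T, ∀ b ∈ Finset.range T,
      (a • eT j : St d (2 * m)) = b • eT j → a = b := by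
    intro a ha b hb h
    have h1 := congrFun h j
    simp only [Pi.smul_apply, eT, Pi.single_eq_same, nsmul_eq_mul, mul_one] at h1
    have ha' := Finset.mem_range.1 ha
    have hb' := Finset.mem_range.1 hb
    have h2 := congrArg ZMod.val h1
    rwa [ZMod.val_natCast_of_lt (by omega), ZMod.val_natCast_of_lt (by omega)] at h2
  have hcard : Z.card = T := by
    rw [hZ, Finset.card_image_of_injOn (fun a ha b hb h => hinj a ha b hb h), Finset.card_range]
  have h0 : ∀ z ∈ Z, z i0 = 0 := by
    intro z hz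
    rw [hZ, Finset.mem_image] at hz
    obtain ⟨t, _, rfl⟩ := hz
    simp [eT, hj]
  have h1 := expm_plane μ (L := L) hm hβ hk Z h0
  rw [hcard] at h1
  refine le_trans (le_of_eq ?_) h1
  congr 1
  rw [← Zt_tr μ β x (fun U : Ed d (2 * m) → G => Real.exp (β * ∑ z ∈ Z, we L (plqT U z k i0)))]
  congr 1
  funext U
  congr 2
  unfold tb
  rw [hZ, Finset.sum_image hinj]
  refine Finset.sum_congr rfl fun t _ => ?_
  rw [plqT_tr, add_comm]

lemma tb_swap (j i k : Fin d) (x : St d (2 * m)) (T : ℕ) (U : Ed d (2 * m) → G) :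
    tb L j i k x T U = tb L j k i x T U := by
  unfold tb
  refine Finset.sum_congr rfl fun t _ => ?_
  rw [plqT_swap U _ k i, we_inv]

theorem expm_tb (hm : 2 ≤ m) {β : ℝ} (hβ : 0 ≤ β) (j : Fin d) {i k : Fin d} (hik : i ≠ k)
    (x : St d (2 * m)) {T : ℕ} (hT : T ≤ 2 * m) :
    zz μ L β ^ T * Zt μ L β (fun U : Ed d (2 * m) → G =>
      Real.exp (β * tb L j i k x T U)) ≤ Zt μ L β (fun _ : Ed d (2 * m) → G => 1) := by
  by_cases hk : k = j
  · have hi : i ≠ j := fun h => hik (h.trans hk.symm)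
    have h1 := expm_tb0 μ (L := L) hm hβ (j := j) (i0 := i) (k := k) hik.symm hi x hT
    simp only [tb_swap (L := L) j k i x T] at h1
    exact h1
  · exact expm_tb0 μ (L := L) hm hβ (j := j) (i0 := k) (k := i) hik hk x hT

lemma zz_pos (β : ℝ) : 0 < zz μ L β := by
  unfold zz
  refine integral_exp_pos ?_
  exact cont_integrable (Real.continuous_exp.comp (continuous_const.mul we_cont).neg)

/-- exponential moments of the weights in a tube -/
theorem exp_tube (hm : 2 ≤ m) {β : ℝ} (hβ : 0 < β) (j : Fin d) {Q : Type*} (P : Finset Q)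
    (X : Q → St d (2 * m)) (I J : Q → Fin d) (hIJ : ∀ p ∈ P, I p ≠ J p) {T : ℕ} (hT : T ≤ 2 * m)
    {v ε : ℝ} (hv : 0 ≤ v) (hε : 0 < ε) (hθ : P.card * v / (ε * β) ≤ 1) :
    EX μ L β (fun U : Ed d (2 * m) → G => Real.exp (v * ∑ p ∈ P, ∑ t ∈ Finset.range T,
      dv L (plqT U (X p + t • eT j) (I p) (J p)))) ≤
    Real.exp (T * (P.card * v * ε / 2 +
      P.card * v / (ε * β) * Real.log (1 / zz μ L β))) := by
  have hz := zz_pos μ (L := L) β
  rcases P.eq_empty_or_nonempty with hP | hP
  · subst hP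
    simp only [Finset.sum_empty, mul_zero, Real.exp_zero, Finset.card_empty, Nat.cast_zero,
      zero_mul, zero_div, add_zero]
    rw [EX_one]
  have hcard : (0 : ℝ) < P.card := by exact_mod_cast hP.card_pos
  obtain ⟨θ, hθe⟩ : ∃ θ, θ = P.card * v / (ε * β) := ⟨_, rfl⟩
  rw [← hθe] at hθ ⊢
  have hθ0 : 0 ≤ θ := by rw [hθe]; positivity
  obtain ⟨Λ, hΛ⟩ : ∃ Λ : ℝ, Λ = T * Real.log (1 / zz μ L β) := ⟨_, rfl⟩
  have hΛz : Real.exp (-Λ) = zz μ L β ^ T := by
    rw [hΛ, one_div, Real.log_inv, mul_neg, neg_neg, mul_comm, Real.exp_mul, Real.exp_log hz,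
      Real.rpow_natCast]
  -- pointwise bound
  have hpt : ∀ U : Ed d (2 * m) → G, Real.exp (v * ∑ p ∈ P, ∑ t ∈ Finset.range T,
      dv L (plqT U (X p + t • eT j) (I p) (J p))) ≤
      Real.exp (T * (P.card * v * ε / 2) + θ * Λ) * (1 - θ + θ * (1 / P.card *
        ∑ p ∈ P, Real.exp (-Λ) * Real.exp (β * tb L j (I p) (J p) (X p) T U))) := by
    intro U
    have hd : ∀ g : G, dv L g ≤ ε / 2 + we L g / ε := by
      intro g
      have h1 := dv_sq (L := L) g
      rw [← sub_nonneg]
      have h2 : ε / 2 + we L g / ε - dv L g = (ε - dv L g) ^ 2 / (2 * ε) := by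
        have : we L g = dv L g ^ 2 / 2 := by rw [h1]; ring
        rw [this]
        field_simp
        ring
      rw [h2]; positivity
    have h1 : v * ∑ p ∈ P, ∑ t ∈ Finset.range T,
        dv L (plqT U (X p + t • eT j) (I p) (J p)) ≤
        T * (P.card * v * ε / 2) + v / ε * ∑ p ∈ P, tb L j (I p) (J p) (X p) T U := by
      calc v * ∑ p ∈ P, ∑ t ∈ Finset.range T, dv L (plqT U (X p + t • eT j) (I p) (J p)) ≤
          v * ∑ p ∈ P, ∑ t ∈ Finset.range T,
            (ε / 2 + we L (plqT U (X p + t • eT j) (I p) (J p)) / ε) :=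
            mul_le_mul_of_nonneg_left (Finset.sum_le_sum fun p _ =>
              Finset.sum_le_sum fun t _ => hd _) hv
        _ = _ := by
            simp only [Finset.sum_add_distrib, Finset.sum_const, Finset.card_range,
              ← Finset.sum_div]
            rw [nsmul_eq_mul, nsmul_eq_mul]
            unfold tb
            field_simp
    have h2 : v / ε * ∑ p ∈ P, tb L j (I p) (J p) (X p) T U =
        θ * (∑ p ∈ P, (1 / (P.card : ℝ)) * (β * tb L j (I p) (J p) (X p) T U - Λ)) + θ * Λ := by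
      simp only [← Finset.mul_sum, Finset.sum_sub_distrib, Finset.sum_const, nsmul_eq_mul]
      rw [hθe]
      field_simp
      ring
    obtain ⟨y, hy⟩ : ∃ y, y = ∑ p ∈ P, (1 / (P.card : ℝ)) *
      (β * tb L j (I p) (J p) (X p) T U - Λ) := ⟨_, rfl⟩
    rw [← hy] at h2
    have h3 : Real.exp (θ * y) ≤ 1 - θ + θ * Real.exp y := by
      have h4 := (convexOn_exp.2 (Set.mem_univ 0) (Set.mem_univ y) (by linarith : 0 ≤ 1 - θ)
        hθ0 (by ring))
      simp only [smul_eq_mul, mul_zero, zero_add, Real.exp_zero, mul_one] at h4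
      exact h4
    have h5 : Real.exp y ≤ 1 / P.card *
        ∑ p ∈ P, Real.exp (-Λ) * Real.exp (β * tb L j (I p) (J p) (X p) T U) := by
      have h6 := convexOn_exp.map_sum_le (t := P) (w := fun _ => (1 / (P.card : ℝ)))
        (p := fun p => β * tb L j (I p) (J p) (X p) T U - Λ) (fun _ _ => by positivity)
        (by rw [Finset.sum_const, nsmul_eq_mul]; field_simp) (fun _ _ => Set.mem_univ _)
      simp only [smul_eq_mul] at h6
      rw [← hy] at h6
      refine h6.trans (le_of_eq ?_)
      rw [Finset.mul_sum]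
      refine Finset.sum_congr rfl fun p _ => ?_
      rw [← Real.exp_add]
      congr 2
      ring
    have h7 : Real.exp (v * ∑ p ∈ P, ∑ t ∈ Finset.range T,
        dv L (plqT U (X p + t • eT j) (I p) (J p))) ≤
        Real.exp (T * (P.card * v * ε / 2) + θ * Λ) * Real.exp (θ * y) := by
      rw [← Real.exp_add, Real.exp_le_exp]
      linarith
    refine h7.trans (mul_le_mul_of_nonneg_left ?_ (Real.exp_pos _).le)
    exact h3.trans (by
      have := mul_le_mul_of_nonneg_left h5 hθ0
      linarith)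
  have htc : ∀ p, Continuous fun U : Ed d (2 * m) → G =>
      Real.exp (β * tb L j (I p) (J p) (X p) T U) := fun p =>
    Real.continuous_exp.comp (continuous_const.mul (tb_cont _ _ _ _ _))
  have hc2 : Continuous fun U : Ed d (2 * m) → G => (1 / (P.card : ℝ) *
        ∑ p ∈ P, Real.exp (-Λ) * Real.exp (β * tb L j (I p) (J p) (X p) T U)) :=
    continuous_const.mul (continuous_finsetSum _ fun p _ => continuous_const.mul (htc p))
  have hc1 : Continuous fun U : Ed d (2 * m) → G => Real.exp (v * ∑ p ∈ P, ∑ t ∈ Finset.range T,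
      dv L (plqT U (X p + t • eT j) (I p) (J p))) := by
    refine Real.continuous_exp.comp (continuous_const.mul (continuous_finsetSum _ fun p _ =>
      continuous_finsetSum _ fun t _ => dv_cont.comp (plqT_cont _ _ _)))
  refine (EX_mono μ (H := fun U : Ed d (2 * m) → G =>
    Real.exp (T * (P.card * v * ε / 2) + θ * Λ) * (1 - θ + θ * (1 / (P.card : ℝ) *
        ∑ p ∈ P, Real.exp (-Λ) * Real.exp (β * tb L j (I p) (J p) (X p) T U))))
    hc1 (continuous_const.mul (continuous_const.add (continuous_const.mul hc2)))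
    hpt).trans ?_
  rw [EX_smul]
  have hE : EX μ L β (fun U : Ed d (2 * m) → G => 1 - θ + θ * (1 / (P.card : ℝ) *
        ∑ p ∈ P, Real.exp (-Λ) * Real.exp (β * tb L j (I p) (J p) (X p) T U))) ≤ 1 := by
    have e1 := EX_add μ (L := L) (β := β) (F := fun _ : Ed d (2 * m) → G => 1 - θ)
      (H := fun U => θ * (1 / (P.card : ℝ) *
        ∑ p ∈ P, Real.exp (-Λ) * Real.exp (β * tb L j (I p) (J p) (X p) T U)))
      continuous_const (continuous_const.mul hc2)
    rw [e1, EX_const, EX_smul, EX_smul, EX_sum μ P (F := fun p (U : Ed d (2 * m) → G) =>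
      Real.exp (-Λ) * Real.exp (β * tb L j (I p) (J p) (X p) T U))
      fun p _ => continuous_const.mul (htc p)]
    have e2 : ∀ p ∈ P, EX μ L β (fun U : Ed d (2 * m) → G =>
        Real.exp (-Λ) * Real.exp (β * tb L j (I p) (J p) (X p) T U)) ≤ 1 := by
      intro p hp
      rw [EX_smul, hΛz]
      have := expm_tb μ (L := L) hm hβ.le j (hIJ p hp) (X p) hT
      unfold EX
      rw [mul_div_assoc', div_le_one (Zt_pos μ _)]
      exact this
    have e3 := Finset.sum_le_sum e2
    rw [Finset.sum_const, nsmul_eq_mul, mul_one] at e3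
    have e4 : (1 / (P.card : ℝ)) * ∑ p ∈ P, EX μ L β (fun U : Ed d (2 * m) → G =>
        Real.exp (-Λ) * Real.exp (β * tb L j (I p) (J p) (X p) T U)) ≤ 1 := by
      calc _ ≤ (1 / (P.card : ℝ)) * P.card := mul_le_mul_of_nonneg_left e3 (by positivity)
        _ = 1 := by field_simp
    have e5 := mul_le_mul_of_nonneg_left e4 hθ0
    linarith
  refine (mul_le_mul_of_nonneg_left hE (Real.exp_pos _).le).trans (le_of_eq ?_)
  rw [mul_one]
  congr 1
  rw [hΛ]; ring

end torus

end

end Pool.Agent.TH190.YV
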