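import Mathlib
import Pool.Agent.TH190.YV.Casi
import Pool.Agent.TH190.YV.Chain
import Pool.Agent.TH190.YV.Tube
import Pool.Agent.TH618.YM.RP

/-!
# The time slabs of the periodic lattice
-/

open MeasureTheory Matrix
open scoped Matrix.Norms.Frobenius ContDiff
open Pool.Agent.H906R3.YM hiding Pl
open Pool.Agent.W793.YM Pool.Agent.TH618.YM

namespace Pool.Agent.TH190.YV

set_option linter.unusedSectionVars false
set_option linter.unusedVariables false

noncomputable section

/-! ### geometry -/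

section geo

variable {d l : ℕ}

/-- the vertical links of a slab -/
def vt (j : Fin d) (t : ZMod l) (e : Ed d l) : Prop := e.2 = j ∧ e.1 j = t

instance (j : Fin d) (t : ZMod l) : DecidablePred (vt (l := l) j t) := fun e => by
  unfold vt; infer_instance

/-- the spatial links of a slice -/
abbrev Ih (j : Fin d) (t : ZMod l) : Type := {e : Ed d l // e.2 ≠ j ∧ e.1 j = t}

lemma cast_inj [NeZero l] {s t : ℕ} (hs : s < l) (ht : t < l) (h : (s : ZMod l) = t) : s = t := by
  have h2 := congrArg ZMod.val h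
  rwa [ZMod.val_natCast_of_lt hs, ZMod.val_natCast_of_lt ht] at h2

lemma add_smul_j {j : Fin d} {x : St d l} (hx : x j = 0) (t : ℕ) :
    (x + t • eT j : St d l) j = (t : ZMod l) := by
  simp [eT, hx]

variable {G : Type*} [Group G]

/-- the slab at the time `t` -/
def slb (j : Fin d) (t : ZMod l) (U : Ed d l → G) : Slab (Ed d l) (Ih j t) G where
  src e := (e.1.1, j)
  tgt e := (e.1.1 + eT e.1.2, j)
  vr e := U (e.1.1 + eT j, e.1.2)
  vl e := U e.1

variable {j : Fin d} {t : ZMod l}

lemma mix_v {g U : Ed d l → G} {x : St d l} (h : x j = t) : mixp (vt j t) g U (x, j) = g (x, j) := by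
  unfold mixp
  rw [if_pos ⟨rfl, h⟩]

lemma mix_h {g U : Ed d l → G} {x : St d l} {k : Fin d} (h : k ≠ j) :
    mixp (vt j t) g U (x, k) = U (x, k) := by
  unfold mixp
  rw [if_neg (fun h' => h h'.1)]

lemma mix_v' {g U : Ed d l → G} {x : St d l} (h : x j ≠ t) : mixp (vt j t) g U (x, j) = U (x, j) := by
  unfold mixp
  rw [if_neg (fun h' => h h'.2)]

lemma slb_U (g U : Ed d l → G) (e : Ih j t) :
    (slb j t U).U g e = plqT (mixp (vt j t) g U) e.1.1 j e.1.2 := by
  obtain ⟨⟨x, k⟩, hk, hx⟩ := e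
  simp only at hk hx
  have hx' : (x + eT k : St d l) j = t := by rw [add_ne x hk, hx]
  unfold Slab.U slb plqT
  simp only
  rw [mix_v hx, mix_h hk, mix_v hx', mix_h hk]

variable [TopologicalSpace G] [IsTopologicalGroup G] [CompactSpace G]
  [SecondCountableTopology G] [MeasurableSpace G] [BorelSpace G] {N n : ℕ} {L : LD G N n}
  [NeZero l]

variable (L) in
/-- the action of the slab -/
def Ss (j : Fin d) (t : ZMod l) (U : Ed d l → G) : ℝ :=
  ∑ e : Ih j t, we L (plqT U e.1.1 j e.1.2)

lemma slb_act (g U : Ed d l → G) : (slb j t U).act L g = Ss L j t (mixp (vt j t) g U) := by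
  unfold Slab.act Ss
  exact Finset.sum_congr rfl fun e _ => by rw [slb_U]

lemma Ss_eq (U : Ed d l → G) : Ss L j t U = ∑ x, if x j = t then aB L j U x else 0 := by
  unfold Ss
  have h1 : ∑ e ∈ (Finset.univ.filter fun e : Ed d l => e.2 ≠ j ∧ e.1 j = t),
      we L (plqT U e.1 j e.2) = ∑ e : Ih j t, we L (plqT U e.1.1 j e.1.2) :=
    Finset.sum_subtype _ (fun e => by simp) _
  rw [← h1, Finset.sum_filter, Fintype.sum_prod_type]
  refine Finset.sum_congr rfl fun x _ => ?_
  unfold aB
  simp only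
  by_cases hx : x j = t
  · simp only [hx, and_true, if_true]
  · simp only [hx, and_false, if_false, Finset.sum_const_zero]

variable (L) in
/-- the rest of the action -/
def Rst (j : Fin d) (T : ℕ) (U : Ed d l → G) : ℝ :=
  ∑ x, aA L j U x + ∑ x, if (x j).val < T then 0 else aB L j U x

lemma act_slabs {T : ℕ} (hT : T ≤ l) (U : Ed d l → G) :
    act L U = Rst L j T U + ∑ t ∈ Finset.range T, Ss L j (t : ZMod l) U := by
  rw [act_eq j]
  unfold Rst
  rw [add_assoc]
  congr 1
  simp only [Ss_eq]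
  rw [Finset.sum_comm, ← Finset.sum_add_distrib]
  refine Finset.sum_congr rfl fun x _ => ?_
  by_cases hx : (x j).val < T
  · rw [if_pos hx, zero_add, Finset.sum_eq_single (x j).val]
    · rw [if_pos (ZMod.natCast_zmod_val _).symm]
    · intro t ht hne
      rw [if_neg]
      intro h
      apply hne
      have := congrArg ZMod.val h
      rw [ZMod.val_natCast_of_lt (lt_of_lt_of_le (Finset.mem_range.1 ht) hT)] at this
      exact this.symm
    · intro h
      exact absurd (Finset.mem_range.2 hx) h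
  · rw [if_neg hx, Finset.sum_eq_zero, add_zero]
    intro t ht
    rw [if_neg]
    intro h
    apply hx
    have := congrArg ZMod.val h
    rw [ZMod.val_natCast_of_lt (lt_of_lt_of_le (Finset.mem_range.1 ht) hT)] at this
    rw [this]
    exact Finset.mem_range.1 ht

lemma Ss_cont : Continuous (Ss L j t : (Ed d l → G) → ℝ) := by
  unfold Ss
  exact continuous_finsetSum _ fun e _ => we_cont.comp (plqT_cont _ _ _)

lemma Ss_dep : Dep (fun e : Ed d l => e.2 = j → e.1 j = t) (Ss L j t : (Ed d l → G) → ℝ) := by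
  intro U U' h
  unfold Ss
  refine Finset.sum_congr rfl fun e _ => ?_
  obtain ⟨⟨x, k⟩, hk, hx⟩ := e
  simp only at hk hx ⊢
  congr 1
  refine plqT_congr (h _ fun _ => hx) (h _ fun hkj => absurd hkj hk) (h _ fun _ => ?_)
    (h _ fun hkj => absurd hkj hk)
  show (x + eT k : St d l) j = t
  rw [add_ne x hk, hx]

lemma Rst_cont (T : ℕ) : Continuous (Rst L j T : (Ed d l → G) → ℝ) := by
  unfold Rst
  refine (continuous_finsetSum _ fun x _ => Sm_cont ⟨_, aA_mem (L := L) j x⟩).add
    (continuous_finsetSum _ fun x _ => ?_)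
  split_ifs
  · exact continuous_const
  · exact Sm_cont ⟨_, aB_mem (L := L) j x⟩

lemma Rst_dep (T : ℕ) : Dep (fun e : Ed d l => ∀ s < T, ¬vt j (s : ZMod l) e)
    (Rst L j T : (Ed d l → G) → ℝ) := by
  intro U U' h
  unfold Rst
  have hh : ∀ y k, k ≠ j → U (y, k) = U' (y, k) := fun y k hk => h _ fun s _ hs => hk hs.1
  congr 1
  · exact Finset.sum_congr rfl fun x _ => aA_congr fun y k hk _ => hh y k hk
  · refine Finset.sum_congr rfl fun x _ => ?_
    split_ifs with hx
    · rfl
    · refine aB_congr (fun y k hk _ => hh y k hk) fun y hy => h _ fun s hs hv => hx ?_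
      have h2 : y j = (s : ZMod l) := hv.2
      rw [← hy, h2]
      refine lt_of_le_of_lt ?_ hs
      rw [ZMod.val_natCast]
      exact Nat.mod_le _ _

/-! ### the transports -/

lemma fr_dep {u u' : Pt d → Fin d → G} (w : Pt d) (hw : w j = 0)
    (h : ∀ v k, k ≠ j → u v k = u' v k) : fr u w = fr u' w := by
  induction hn : sz w generalizing w with
  | zero =>
    have h1 : ¬∃ i, 0 < w i := by
      rintro ⟨i, hi⟩
      have := sz_sub hi
      omega
    rw [fr_zero u h1, fr_zero u' h1]
  | succ q ih =>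
    by_cases hw' : ∃ i, 0 < w i
    · have h2 := mi_pos w hw'
      have h3 := sz_sub h2
      have h4 : mi w hw' ≠ j := by
        intro hj
        rw [hj, hw] at h2
        exact lt_irrefl _ h2
      rw [fr_succ u hw', fr_succ u' hw', h _ _ h4, ih (w - es (mi w hw')) (by
        show w j - _ = 0
        rw [hw, Nat.zero_sub]) (by omega)]
    · rw [fr_zero u hw', fr_zero u' hw']

lemma wv_zero {x : St d l} (h : x j = 0) : wv x j = 0 := by
  unfold wv; rw [h]; exact ZMod.val_zero

lemma Pc_dep {V V' : Ed d l → G} {x : St d l} (hx : x j = 0)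
    (h : ∀ y k, k ≠ j → V (y, k) = V' (y, k)) : Pc V x = Pc V' x := by
  unfold Pc
  exact fr_dep (wv x) (wv_zero hx) fun v k hk => h _ _ hk

lemma tlT_dep {V V' : Ed d l → G} {x : St d l} {k : Fin d} (hx : x j = 0) (hk : k ≠ j)
    (h : ∀ y k, k ≠ j → V (y, k) = V' (y, k)) : tlT V x k = tlT V' x k := by
  unfold tlT
  rw [Pc_dep hx h, h _ _ hk, Pc_dep (x := x + eT k) (by rw [add_ne x hk, hx]) h]

/-- the transports to the time slice -/
def Ptr (j : Fin d) (t : ℕ) (U : Ed d l → G) (e : Ed d l) : G :=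
  (Pc (tr (t • eT j) U) (e.1 - t • eT j))⁻¹

lemma slb_def (t : ℕ) (U : Ed d l → G) (e : Ih j (t : ZMod l)) :
    (slb j (t : ZMod l) U).def L (Ptr j t U) e =
      dv L (tlT (tr (t • eT j) U) (e.1.1 - t • eT j) e.1.2) := by
  unfold Slab.def Ptr tlT slb
  simp only
  congr 1
  rw [inv_inv]
  have h1 : tr (t • eT j) U (e.1.1 - t • eT j, e.1.2) = U e.1 := by
    unfold tr
    simp only [sub_add_cancel]
  have h2 : e.1.1 + eT e.1.2 - t • eT j = e.1.1 - t • eT j + eT e.1.2 := by abel
  rw [h1, h2]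
  group

variable (L) in
/-- the deviation of the active plaquettes -/
def Xs (j : Fin d) (t : ℕ) (A : Finset (Ih (d := d) (l := l) j (t : ZMod l))) (U : Ed d l → G) : ℝ :=
  ∑ e ∈ A, (dv L (plqT U e.1.1 j e.1.2) + dv L (tlT (tr (t • eT j) U) (e.1.1 - t • eT j) e.1.2))

lemma sub_j {x : St d l} {t : ℕ} (h : x j = (t : ZMod l)) :
    (x - t • eT j : St d l) j = 0 := by
  simp [eT, h]

lemma Xs_mix (t : ℕ) (A : Finset (Ih (d := d) (l := l) j (t : ZMod l))) (g U : Ed d l → G) :
    Xs L j t A (mixp (vt j (t : ZMod l)) g U) = (slb j (t : ZMod l) U).X L (Ptr j t U) A g := by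
  unfold Xs Slab.X
  refine Finset.sum_congr rfl fun e _ => ?_
  rw [slb_U, slb_def]
  congr 2
  obtain ⟨⟨x, k⟩, hk, hx⟩ := e
  simp only at hk hx ⊢
  refine tlT_dep (j := j) (sub_j hx) hk fun y k hk => ?_
  unfold tr
  exact mix_h hk

lemma Xs_dep (t : ℕ) (A : Finset (Ih (d := d) (l := l) j (t : ZMod l))) :
    Dep (fun e : Ed d l => e.2 = j → e.1 j = (t : ZMod l)) (Xs L j t A : (Ed d l → G) → ℝ) := by
  intro U U' h
  have hh : ∀ y k, k ≠ j → U (y, k) = U' (y, k) := fun y k hk => h _ fun hk' => absurd hk' hk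
  unfold Xs
  refine Finset.sum_congr rfl fun e _ => ?_
  obtain ⟨⟨x, k⟩, hk, hx⟩ := e
  simp only at hk hx ⊢
  have h1 : plqT U x j k = plqT U' x j k := by
    refine plqT_congr (h _ fun _ => hx) (hh _ _ hk) (h _ fun _ => ?_) (hh _ _ hk)
    show (x + eT k : St d l) j = t
    rw [add_ne x hk, hx]
  have h2 : tlT (tr (t • eT j) U) (x - t • eT j) k = tlT (tr (t • eT j) U') (x - t • eT j) k := by
    refine tlT_dep (j := j) (sub_j hx) hk fun y k hk => ?_
    unfold tr
    exact hh _ _ hk
  rw [h1, h2]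

lemma fr_cont {X : Type*} [TopologicalSpace X] {u : X → Pt d → Fin d → G}
    (h : ∀ v k, Continuous fun z => u z v k) (w : Pt d) : Continuous fun z => fr (u z) w := by
  induction hn : sz w generalizing w with
  | zero =>
    have h1 : ¬∃ i, 0 < w i := by
      rintro ⟨i, hi⟩
      have := sz_sub hi
      omega
    simp only [fr_zero _ h1]
    exact continuous_const
  | succ q ih =>
    by_cases hw' : ∃ i, 0 < w i
    · have h3 := sz_sub (mi_pos w hw')
      simp only [fr_succ _ hw']
      exact (ih _ (by omega)).mul (h _ _)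
    · simp only [fr_zero _ hw']
      exact continuous_const

lemma tlT_cont' (x : St d l) (k : Fin d) : Continuous fun U : Ed d l → G => tlT U x k := by
  unfold tlT Pc
  have h : ∀ w : Pt d, Continuous fun U : Ed d l → G => fr (uu U) w := fun w =>
    fr_cont (u := fun U : Ed d l → G => uu U) (fun v k => by
      unfold uu; exact continuous_apply _) w
  exact ((h _).mul (continuous_apply _)).mul (h _).inv

lemma Xs_cont (t : ℕ) (A : Finset (Ih (d := d) (l := l) j (t : ZMod l))) :
    Continuous (Xs L j t A : (Ed d l → G) → ℝ) := by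
  unfold Xs
  refine continuous_finsetSum _ fun e _ => (dv_cont.comp (plqT_cont _ _ _)).add ?_
  exact dv_cont.comp ((tlT_cont' _ _).comp (tr_cont _))

end geo

end

end Pool.Agent.TH190.YV
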