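import Mathlib
import Pool.Agent.TH190.YV.SlabT

/-!
# The bound of the loops by the slabs
-/

open MeasureTheory Matrix
open scoped Matrix.Norms.Frobenius ContDiff
open Pool.Agent.H906R3.YM hiding Pl
open Pool.Agent.W793.YM Pool.Agent.TH618.YM

namespace Pool.Agent.TH190.YV

set_option linter.unusedSectionVars false
set_option linter.unusedVariables false

noncomputable section

/-! ### operators -/

section op

variable {N : ℕ}

/-- matrices with the Frobenius norm -/
def FM (N : ℕ) : Type := Mat N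

instance : NormedAddCommGroup (FM N) := Matrix.frobeniusNormedAddCommGroup

instance : NormedSpace ℝ (FM N) := Matrix.frobeniusNormedSpace

instance : FiniteDimensional ℝ (FM N) := inferInstanceAs (FiniteDimensional ℝ (Mat N))

instance : CompleteSpace (FM N) := FiniteDimensional.complete ℝ (FM N)

/-- operators on matrices -/
abbrev Op (N : ℕ) := FM N →L[ℝ] FM N

/-- a matrix as an element of `FM` -/
def toF (M : Mat N) : FM N := M

/-- back -/
def ofF (M : FM N) : Mat N := M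

lemma norm_toF (M : Mat N) : ‖toF M‖ = ‖M‖ := rfl

lemma norm_ofF (M : FM N) : ‖ofF M‖ = ‖M‖ := rfl

/-- the map `M ↦ A M Bᴴ` -/
def cjl (A B : Mat N) : FM N →ₗ[ℝ] FM N where
  toFun M := toF (A * ofF M * Bᴴ)
  map_add' M M' := by
    show A * (ofF M + ofF M') * Bᴴ = A * ofF M * Bᴴ + A * ofF M' * Bᴴ
    rw [mul_add, add_mul]
  map_smul' c M := by
    show A * (c • ofF M) * Bᴴ = c • (A * ofF M * Bᴴ)
    rw [mul_smul_comm, smul_mul_assoc]

/-- the map `M ↦ A M Bᴴ` -/
def cj (A B : Mat N) : Op N := LinearMap.toContinuousLinearMap (cjl A B)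

lemma cj_apply (A B : Mat N) (M : FM N) : cj A B M = toF (A * ofF M * Bᴴ) := rfl

lemma cj_cont {X : Type*} [TopologicalSpace X] {A B : X → Mat N} (hA : Continuous A)
    (hB : Continuous B) : Continuous fun x => cj (A x) (B x) := by
  refine continuous_clm_apply.2 fun M => ?_
  exact (hA.mul continuous_const).mul hB.matrix_conjTranspose

lemma cj_mul (A B A' B' : Mat N) : cj A B * cj A' B' = cj (A * A') (B * B') := by
  ext M
  show A * (A' * ofF M * B'ᴴ) * Bᴴ = A * A' * ofF M * (B * B')ᴴ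
  rw [conjTranspose_mul]
  noncomm_ring

lemma cj3 (A B A' B' A'' B'' : Mat N) (r w : ℝ) : cj A B * (r • cj A' B') * (w • cj A'' B'') =
    (r * w) • cj (A * A' * A'') (B * B' * B'') := by
  rw [mul_smul_comm, mul_smul_comm, smul_mul_assoc, cj_mul, cj_mul, smul_smul, mul_comm w]

lemma cj_one : cj (1 : Mat N) 1 = 1 := by
  ext M
  show (1 : Mat N) * ofF M * (1 : Mat N)ᴴ = ofF M
  rw [conjTranspose_one, one_mul, mul_one]

/-- the functional `ip u` -/
def ipF (u : Mat N) : FM N →L[ℝ] ℝ :=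
  LinearMap.toContinuousLinearMap
    { toFun := fun M => ip u (ofF M)
      map_add' := fun M M' => by
        show ip u (ofF M + ofF M') = _
        rw [map_add]
      map_smul' := fun c M => by
        show ip u (c • ofF M) = _
        rw [map_smul]; rfl }

lemma ipF_apply (u : Mat N) (M : FM N) : ipF u M = ip u (ofF M) := rfl

lemma integral_FM {X : Type*} [TopologicalSpace X] [CompactSpace X] [MeasurableSpace X]
    [SecondCountableTopology X] [OpensMeasurableSpace X] {ν : Measure X} [IsFiniteMeasure ν]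
    {F : X → Mat N} (hF : Continuous F) : ofF (∫ x, toF (F x) ∂ν) = mint ν F := by
  have hF' : Continuous fun x => toF (F x) := hF
  refine ip_ext fun u => ?_
  rw [ip_mint u hF, ← ipF_apply, ← ContinuousLinearMap.integral_comp_comm (ipF u) (cont_int hF')]
  rfl

/-- the functional on the operators -/
def tF (N : ℕ) : Op N →L[ℝ] ℝ := (ipF (1 : Mat N)).comp (ContinuousLinearMap.apply ℝ (FM N) (toF 1))

lemma tF_apply (Φ : Op N) : tF N Φ = ip 1 (ofF (Φ (toF 1))) := rfl

lemma norm_one_sq : ‖(1 : Mat N)‖ ^ 2 = N := by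
  rw [norm_sq_ip, ip_apply, conjTranspose_one, one_mul, trace_one, Fintype.card_fin]
  simp

lemma abs_tF (Φ : Op N) : |tF N Φ| ≤ N * ‖Φ‖ := by
  rw [tF_apply]
  have h1 := abs_ip_le (1 : Mat N) (ofF (Φ (toF 1)))
  have h2 := Φ.le_opNorm (toF 1)
  rw [norm_toF] at h2
  rw [norm_ofF] at h1
  calc |ip 1 (ofF (Φ (toF 1)))| ≤ ‖(1 : Mat N)‖ * ‖Φ (toF 1)‖ := h1
    _ ≤ ‖(1 : Mat N)‖ * (‖Φ‖ * ‖(1 : Mat N)‖) := mul_le_mul_of_nonneg_left h2 (norm_nonneg _)
    _ = ‖(1 : Mat N)‖ ^ 2 * ‖Φ‖ := by ring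
    _ = _ := by rw [norm_one_sq]

end op

variable {d l : ℕ} [NeZero l] {G : Type*} [Group G] [TopologicalSpace G] [IsTopologicalGroup G]
  [CompactSpace G] [SecondCountableTopology G] [MeasurableSpace G] [BorelSpace G] (μ : Measure G)
  [IsProbabilityMeasure μ] [μ.IsMulLeftInvariant] [μ.IsMulRightInvariant] [μ.IsInvInvariant]
  {N n : ℕ} {L : LD G N n} {j : Fin d}

lemma norm_cj (g h : G) : ‖cj (L.rho g) (L.rho h)‖ ≤ 1 := by
  refine ContinuousLinearMap.opNorm_le_bound _ zero_le_one fun M => ?_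
  rw [cj_apply, norm_toF, norm_ctmul, norm_lmul, norm_ofF, one_mul]

variable (L) in
/-- the operator of one slab -/
def Ko (j : Fin d) (β : ℝ) (x y : St d l) (t : ℕ) (U : Ed d l → G) : Op N :=
  Real.exp (-(β * Ss L j (t : ZMod l) U)) •
    cj (L.rho (U (x + t • eT j, j))) (L.rho (U (y + t • eT j, j)))

lemma Ko_cont (β : ℝ) (x y : St d l) (t : ℕ) : Continuous (Ko L j β x y t) := by
  unfold Ko
  refine (Real.continuous_exp.comp (continuous_const.mul Ss_cont).neg).smul ?_
  exact cj_cont (L.cont.comp (continuous_apply _)) (L.cont.comp (continuous_apply _))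

lemma Ko_dep (β : ℝ) {x y : St d l} (hx : x j = 0) (hy : y j = 0) (t : ℕ) :
    Dep (fun e : Ed d l => e.2 = j → e.1 j = (t : ZMod l)) (Ko L j β x y t) := by
  intro U U' h
  unfold Ko
  rw [Ss_dep U U' h, h _ fun _ => add_smul_j hx t, h _ fun _ => add_smul_j hy t]

lemma pk_Ko (β : ℝ) (x y : St d l) (T : ℕ) (U : Ed d l → G) :
    pk (Ko L j β x y) T U = Real.exp (-(β * ∑ t ∈ Finset.range T, Ss L j (t : ZMod l) U)) •
      cj (L.rho (ln U j T x)) (L.rho (ln U j T y)) := by
  induction T with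
  | zero =>
    show (1 : Op N) = _
    rw [Finset.sum_range_zero, mul_zero, neg_zero, Real.exp_zero, one_smul, ln_zero, ln_zero,
      map_one, cj_one]
  | succ T ih =>
    show pk (Ko L j β x y) T U * Ko L j β x y T U = _
    rw [ih]
    unfold Ko
    rw [smul_mul_smul_comm, cj_mul, ← map_mul, ← map_mul, ← ln_succ', ← ln_succ',
      Finset.sum_range_succ, ← Real.exp_add]
    congr 2
    ring

variable (L) in
/-- the bound of the operator of one slab -/
def bo (j : Fin d) (β κ v : ℝ) (A : ∀ t : ℕ, Finset (Ih (d := d) (l := l) j (t : ZMod l)))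
    (t : ℕ) (U : Ed d l → G) : ℝ :=
  Real.exp (-κ) * (Real.exp (v * Xs L j t (A t) U) * Real.exp (-(β * Ss L j (t : ZMod l) U)))

lemma bo_cont (β κ v : ℝ) (A : ∀ t : ℕ, Finset (Ih (d := d) (l := l) j (t : ZMod l))) (t : ℕ) :
    Continuous (bo L j β κ v A t) := by
  unfold bo
  exact continuous_const.mul ((Real.continuous_exp.comp (continuous_const.mul (Xs_cont _ _))).mul
    (Real.continuous_exp.comp (continuous_const.mul Ss_cont).neg))

lemma bo_pos (β κ v : ℝ) (A : ∀ t : ℕ, Finset (Ih (d := d) (l := l) j (t : ZMod l))) (t : ℕ)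
    (U : Ed d l → G) : 0 < bo L j β κ v A t U := by
  unfold bo; positivity

lemma bo_dep (β κ v : ℝ) (A : ∀ t : ℕ, Finset (Ih (d := d) (l := l) j (t : ZMod l))) (t : ℕ) :
    Dep (fun e : Ed d l => e.2 = j → e.1 j = (t : ZMod l)) (bo L j β κ v A t) := by
  intro U U' h
  unfold bo
  rw [Ss_dep U U' h, Xs_dep t (A t) U U' h]

lemma pk_bo (β κ v : ℝ) (A : ∀ t : ℕ, Finset (Ih (d := d) (l := l) j (t : ZMod l))) (T : ℕ)
    (U : Ed d l → G) : pk (bo L j β κ v A) T U =
      Real.exp (-(T * κ)) * (Real.exp (v * ∑ t ∈ Finset.range T, Xs L j t (A t) U) *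
        Real.exp (-(β * ∑ t ∈ Finset.range T, Ss L j (t : ZMod l) U))) := by
  induction T with
  | zero =>
    show (1 : ℝ) = _
    simp
  | succ T ih =>
    show pk (bo L j β κ v A) T U * bo L j β κ v A T U = _
    rw [ih]
    unfold bo
    rw [Finset.sum_range_succ, Finset.sum_range_succ]
    simp only [← Real.exp_add]
    congr 1
    push_cast
    ring

/-- the energy form of a slab -/
def gmT (j : Fin d) (t : ZMod l) (h h' : St d l → ℝ) : ℝ :=
  ∑ e : Ih (d := d) (l := l) j t, (h e.1.1 - h (e.1.1 + eT e.1.2)) *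
    (h' e.1.1 - h' (e.1.1 + eT e.1.2))

/-- one slab -/
lemma norm_avg_Ko {β F0 q v : ℝ} (hβ : 0 < β) {x y : St d l} (hx : x j = 0) (hy : y j = 0)
    {h : Bool → St d l → ℝ} {c : Bool → ℝ} {t : ℕ}
    {A : ∀ t : ℕ, Finset (Ih (d := d) (l := l) j (t : ZMod l))}
    (hF : ∀ b z, |h b z| ≤ F0) (hc : ∀ b, 0 ≤ c b)
    (hcγ : ∀ b, c b * gmT j (t : ZMod l) (h b) (h b) = 1)
    (ho : gmT j (t : ZMod l) (h false) (h true) = 0)
    (hA : ∀ b (e : Ih (d := d) (l := l) j (t : ZMod l)), e ∉ A t →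
      h b e.1.1 = 0 ∧ h b (e.1.1 + eT e.1.2) = 0) (hq0 : 0 ≤ q)
    (hq : ∀ (P : Ed d l → G) (u : Mat N), q * ‖u‖ ^ 2 ≤
      ∑ b, c b * ∑ a, ‖TT L P (fun e => h b e.1) (x + t • eT j, j) (y + t • eT j, j) a u‖ ^ 2)
    (hv : v = 16 * F0 ^ 4 * n ^ 2 * (∑ b, c b) ^ 2 / β) (U : Ed d l → G) :
    ‖avg μ (vt j (t : ZMod l)) (Ko L j β x y t) U‖ ≤
      avg μ (vt j (t : ZMod l)) (bo L j β (kap F0 (∑ b, c b) n q β / (2 * β)) v A t) U := by
  have hnn : 0 ≤ avg μ (vt j (t : ZMod l))
      (bo L j β (kap F0 (∑ b, c b) n q β / (2 * β)) v A t) U :=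
    integral_nonneg fun g => (bo_pos _ _ _ _ _ _).le
  refine ContinuousLinearMap.opNorm_le_bound _ hnn fun M => ?_
  have hcont : Continuous fun g => Ko L j β x y t (mixp (vt j (t : ZMod l)) g U) :=
    (Ko_cont _ _ _ _).comp ((mixp_cont _).comp (Continuous.prodMk continuous_id continuous_const))
  -- the operator as an integral of matrices
  have h1 : (avg μ (vt j (t : ZMod l)) (Ko L j β x y t) U) M =
      toF (mint (ME μ (Ed d l)) fun g => Real.exp (-(β * (slb j (t : ZMod l) U).act L g)) •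
        Fm L (x + t • eT j, j) (y + t • eT j, j) (ofF M) g) := by
    unfold avg
    rw [ContinuousLinearMap.integral_apply (cont_int hcont) M]
    have hc2 : Continuous fun g : Ed d l → G =>
        Real.exp (-(β * (slb j (t : ZMod l) U).act L g)) •
        Fm L (x + t • eT j, j) (y + t • eT j, j) (ofF M) g := wtS_cont.smul (Fm_cont _ _ _)
    have h2 := integral_FM (ν := ME μ (Ed d l)) hc2
    rw [← h2]
    show _ = ∫ g, toF _ ∂(ME μ (Ed d l))
    refine integral_congr_ae (Filter.Eventually.of_forall fun g => ?_)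
    simp only
    unfold Ko
    rw [slb_act, mix_v (add_smul_j hx t), mix_v (add_smul_j hy t)]
    rfl
  rw [h1, norm_toF]
  have hgm : ∀ b b', (slb j (t : ZMod l) U).gam (fun e => h b e.1) (fun e => h b' e.1) =
      gmT j (t : ZMod l) (h b) (h b') := fun b b' => rfl
  have hsym : gmT j (t : ZMod l) (h true) (h false) = 0 := by
    rw [← ho]
    unfold gmT
    exact Finset.sum_congr rfl fun e _ => mul_comm _ _
  have h3 := slab_norm μ (T := slb j (t : ZMod l) U) (L := L) (J := Bool)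
    (P := Ptr j t U) (f := fun b e => h b e.1) (c := c) (F0 := F0) (q := q)
    (x := (x + t • eT j, j)) (y := (y + t • eT j, j)) (A := A t) hβ (fun b e => hF b e.1) hc
    (fun b => by rw [hgm]; exact hcγ b)
    (fun b b' hbb => by
      rw [hgm]
      cases b <;> cases b'
      · exact absurd rfl hbb
      · exact ho
      · exact hsym
      · exact absurd rfl hbb)
    (fun b e he => hA b e he) hq0 (fun u => hq _ u) (ofF M)
  refine h3.trans (le_of_eq ?_)
  rw [norm_ofF, mul_comm]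
  congr 1
  unfold avg bo SE
  rw [integral_const_mul]
  congr 1
  refine integral_congr_ae (Filter.Eventually.of_forall fun g => ?_)
  simp only
  rw [Xs_mix, slb_act, hv]

lemma norm_pk {K : ℕ → (Ed d l → G) → Op N} {B : ℕ → (Ed d l → G) → ℝ} {T : ℕ}
    {U : Ed d l → G} (h : ∀ t < T, ‖K t U‖ ≤ B t U) : ‖pk K T U‖ ≤ pk B T U := by
  induction T with
  | zero =>
    show ‖(1 : Op N)‖ ≤ 1
    exact ContinuousLinearMap.norm_id_le
  | succ T ih =>
    show ‖pk K T U * K T U‖ ≤ pk B T U * B T U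
    have h1 := ih fun t ht => h t (by omega)
    exact (norm_mul_le _ _).trans (mul_le_mul h1 (h T (by omega)) (norm_nonneg _)
      ((norm_nonneg _).trans h1))

/-- the bound of the loops -/
theorem slab_main {β F0 q v : ℝ} (hβ : 0 < β) {x y : St d l} (hx : x j = 0) (hy : y j = 0)
    {h : Bool → St d l → ℝ} {c : Bool → ℝ} {T : ℕ} (hT : T ≤ l)
    {A : ∀ t : ℕ, Finset (Ih (d := d) (l := l) j (t : ZMod l))}
    (hF : ∀ b z, |h b z| ≤ F0) (hc : ∀ b, 0 ≤ c b)
    (hcγ : ∀ t : ℕ, ∀ b, c b * gmT j (t : ZMod l) (h b) (h b) = 1)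
    (ho : ∀ t : ℕ, gmT j (t : ZMod l) (h false) (h true) = 0)
    (hA : ∀ (t : ℕ) b (e : Ih (d := d) (l := l) j (t : ZMod l)), e ∉ A t →
      h b e.1.1 = 0 ∧ h b (e.1.1 + eT e.1.2) = 0) (hq0 : 0 ≤ q)
    (hq : ∀ (t : ℕ) (P : Ed d l → G) (u : Mat N), q * ‖u‖ ^ 2 ≤
      ∑ b, c b * ∑ a, ‖TT L P (fun e => h b e.1) (x + t • eT j, j) (y + t • eT j, j) a u‖ ^ 2)
    (hv : v = 16 * F0 ^ 4 * n ^ 2 * (∑ b, c b) ^ 2 / β)
    {a0 aT : (Ed d l → G) → G} (hc0 : Continuous a0) (hcT : Continuous aT)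
    (hd0 : Dep (fun e : Ed d l => e.2 ≠ j) a0) (hdT : Dep (fun e : Ed d l => e.2 ≠ j) aT) :
    |Zt μ L β (fun U : Ed d l → G => rt L (ln U j T x * aT U * (ln U j T y)⁻¹ * (a0 U)⁻¹))| ≤
      N * (Real.exp (-(T * (kap F0 (∑ b, c b) n q β / (2 * β)))) *
        Zt μ L β (fun U => Real.exp (v * ∑ t ∈ Finset.range T, Xs L j t (A t) U))) := by
  obtain ⟨κ, hκ⟩ : ∃ κ, κ = kap F0 (∑ b, c b) n q β / (2 * β) := ⟨_, rfl⟩
  rw [← hκ]
  have hsub : ∀ t < T, ∀ e : Ed d l, (e.2 = j → e.1 j = (t : ZMod l)) →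
      ∀ s < T, s ≠ t → ¬vt j (s : ZMod l) e := by
    intro t ht e he s hs hst hv
    have h1 := he hv.1
    rw [hv.2] at h1
    exact hst (cast_inj (by omega) (by omega) h1)
  have hmono : ∀ {α : Type _} {p p' : Ed d l → Prop} {F : (Ed d l → G) → α},
      (∀ e, p e → p' e) → Dep p F → Dep p' F := by
    intro α p p' F hpp hF U U' hU
    exact hF U U' fun e he => hU e (hpp e he)
  have hhor : ∀ e : Ed d l, e.2 ≠ j → ∀ s < T, ¬vt j (s : ZMod l) e := fun e he s _ hs => he hs.1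
  -- the operators
  obtain ⟨C, hC⟩ : ∃ C : (Ed d l → G) → Op N, C = fun U => cj (L.rho 1) (L.rho (a0 U)) := ⟨_, rfl⟩
  obtain ⟨w, hw⟩ : ∃ w : (Ed d l → G) → ℝ, w = fun U => Real.exp (-(β * Rst L j T U)) := ⟨_, rfl⟩
  obtain ⟨R, hR⟩ : ∃ R : (Ed d l → G) → Op N, R = fun U => w U • cj (L.rho (aT U)) (L.rho 1) :=
    ⟨_, rfl⟩
  have hCc : Continuous C := by
    rw [hC]; exact cj_cont continuous_const (L.cont.comp hc0)
  have hwc : Continuous w := by
    rw [hw]; exact Real.continuous_exp.comp (continuous_const.mul (Rst_cont T)).neg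
  have hRc : Continuous R := by
    rw [hR]; exact hwc.smul (cj_cont (L.cont.comp hcT) continuous_const)
  have hCd : Dep (fun e : Ed d l => ∀ s < T, ¬vt j (s : ZMod l) e) C := by
    refine hmono (p := fun e : Ed d l => e.2 ≠ j) hhor ?_
    intro U U' hU
    rw [hC]; simp only; rw [hd0 U U' hU]
  have hwd : Dep (fun e : Ed d l => ∀ s < T, ¬vt j (s : ZMod l) e) w := by
    intro U U' hU
    rw [hw]; simp only; rw [Rst_dep T U U' hU]
  have hRd : Dep (fun e : Ed d l => ∀ s < T, ¬vt j (s : ZMod l) e) R := by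
    intro U U' hU
    rw [hR]; simp only
    rw [hwd U U' hU, hdT U U' fun e he => hU e (hhor e he)]
  have hKd : ∀ t < T, Dep (fun e : Ed d l => ∀ s < T, s ≠ t → ¬vt j (s : ZMod l) e)
      (Ko L j β x y t) := fun t ht => hmono (hsub t ht) (Ko_dep β hx hy t)
  have hbd : ∀ t < T, Dep (fun e : Ed d l => ∀ s < T, s ≠ t → ¬vt j (s : ZMod l) e)
      (bo L j β κ v A t) := fun t ht => hmono (hsub t ht) (bo_dep β κ v A t)
  -- the loop
  have e1 : ∀ U : Ed d l → G, rt L (ln U j T x * aT U * (ln U j T y)⁻¹ * (a0 U)⁻¹) *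
      Real.exp (-(β * act L U)) = tF N (C U * pk (Ko L j β x y) T U * R U) := by
    intro U
    rw [pk_Ko, hC, hR, tF_apply]
    simp only
    rw [cj3, ← map_mul, ← map_mul, ← map_mul, ← map_mul, hw]
    simp only
    rw [← Real.exp_add]
    have f1 : -(β * ∑ t ∈ Finset.range T, Ss L j (t : ZMod l) U) + -(β * Rst L j T U) =
        -(β * act L U) := by rw [act_slabs hT]; ring
    rw [f1]
    show _ = ip 1 (Real.exp (-(β * act L U)) • (L.rho (1 * ln U j T x * aT U) * (1 : Mat N) *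
      (L.rho (a0 U * ln U j T y * 1))ᴴ))
    rw [map_smul, smul_eq_mul, mul_comm, ip_apply, conjTranspose_one, one_mul, mul_one, mul_one,
      one_mul, ← L.rho_inv, ← map_mul]
    unfold rt
    have f2 : ln U j T x * aT U * (ln U j T y)⁻¹ * (a0 U)⁻¹ =
        ln U j T x * aT U * (a0 U * ln U j T y)⁻¹ := by group
    rw [f2]
  have hpkc : Continuous (pk (Ko L j β x y) T) := pk_cont fun t _ => Ko_cont _ _ _ _
  have e2 : Zt μ L β (fun U : Ed d l → G =>
      rt L (ln U j T x * aT U * (ln U j T y)⁻¹ * (a0 U)⁻¹)) =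
      tF N (∫ U, C U * pk (Ko L j β x y) T U * R U ∂(ME μ (Ed d l))) := by
    unfold Zt
    have e3 := ContinuousLinearMap.integral_comp_comm (tF N)
      (φ := fun U => C U * pk (Ko L j β x y) T U * R U) (μ := ME μ (Ed d l))
      (cont_int ((hCc.mul hpkc).mul hRc))
    rw [← e3]
    exact integral_congr_ae (Filter.Eventually.of_forall fun U => e1 U)
  rw [e2, chain μ (fun t _ => Ko_cont β x y t) hKd hCc hRc hCd hRd]
  refine (abs_tF _).trans (mul_le_mul_of_nonneg_left ?_ (Nat.cast_nonneg _))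
  -- the norm
  have hpa : Continuous (pk (fun t => avg μ (vt j (t : ZMod l)) (Ko L j β x y t)) T) :=
    pk_cont fun t _ => avg_cont (Ko_cont _ _ _ _)
  have hpb : Continuous (pk (fun t => avg μ (vt j (t : ZMod l)) (bo L j β κ v A t)) T) :=
    pk_cont fun t _ => avg_cont (bo_cont _ _ _ _ _)
  refine (norm_integral_le_integral_norm _).trans ?_
  have h5 : ∫ U, ‖C U * pk (fun t => avg μ (vt j (t : ZMod l)) (Ko L j β x y t)) T U * R U‖
      ∂(ME μ (Ed d l)) ≤
      ∫ U, 1 * pk (fun t => avg μ (vt j (t : ZMod l)) (bo L j β κ v A t)) T U * w U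
        ∂(ME μ (Ed d l)) := by
    refine integral_mono (integrable_cont μ ((hCc.mul hpa).mul hRc).norm)
      (integrable_cont μ ((continuous_const.mul hpb).mul hwc)) fun U => ?_
    have g1 : ‖pk (fun t => avg μ (vt j (t : ZMod l)) (Ko L j β x y t)) T U‖ ≤
        pk (fun t => avg μ (vt j (t : ZMod l)) (bo L j β κ v A t)) T U := by
      refine norm_pk fun t ht => ?_
      rw [hκ]
      exact norm_avg_Ko μ hβ hx hy hF hc (hcγ t) (ho t) (hA t) hq0 (hq t) hv U
    have g2 : ‖C U‖ ≤ 1 := by rw [hC]; exact norm_cj _ _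
    have hw0 : 0 < w U := by rw [hw]; exact Real.exp_pos _
    have g3 : ‖R U‖ ≤ w U := by
      rw [hR]
      simp only
      rw [norm_smul, Real.norm_eq_abs, abs_of_pos hw0]
      have := norm_cj (L := L) (aT U) 1
      calc w U * ‖cj (L.rho (aT U)) (L.rho 1)‖ ≤ w U * 1 :=
            mul_le_mul_of_nonneg_left this hw0.le
        _ = _ := mul_one _
    refine (norm_mul_le _ _).trans (mul_le_mul ((norm_mul_le _ _).trans
      (mul_le_mul g2 g1 (norm_nonneg _) zero_le_one)) g3 (norm_nonneg _) ?_)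
    rw [one_mul]
    exact (norm_nonneg _).trans g1
  refine h5.trans (le_of_eq ?_)
  rw [← chain μ (C := fun _ => (1 : ℝ)) (R := w) (fun t _ => bo_cont β κ v A t) hbd
    continuous_const hwc (fun _ _ _ => rfl) hwd]
  unfold Zt
  rw [← integral_const_mul]
  refine integral_congr_ae (Filter.Eventually.of_forall fun U => ?_)
  simp only
  rw [pk_bo, act_slabs hT, hw]
  simp only
  rw [one_mul]
  simp only [← Real.exp_add]
  congr 1
  ring

end

end Pool.Agent.TH190.YV
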