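import Mathlib
import Pool.Agent.TH190.YV.SlabM
import Pool.Agent.TH618.YM.Coul

/-!
# The test functions
-/

open MeasureTheory Matrix
open scoped Matrix.Norms.Frobenius ContDiff
open Pool.Agent.H906R3.YM hiding Pl
open Pool.Agent.W793.YM Pool.Agent.TH618.YM

namespace Pool.Agent.TH190.YV

set_option linter.unusedSectionVars false
set_option linter.unusedVariables false

noncomputable section

variable {d l : ℕ} [NeZero l]

/-! ### symmetries of the lazy walk -/

lemma Pl_apply (hd : 0 < d) (f : St d l → ℝ) (z : St d l) :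
    Pl f z = ∑ k, (1 / (4 * d) : ℝ) * (2 * f z + f (z + eT k) + f (z - eT k)) := by
  have hd0 : (d : ℝ) ≠ 0 := by
    have : (0 : ℝ) < d := by exact_mod_cast hd
    exact this.ne'
  unfold Pl
  rw [Pi.sub_apply, Pi.smul_apply, lap_apply, smul_eq_mul, Finset.mul_sum]
  have h1 : f z = ∑ _k : Fin d, (1 / d : ℝ) * f z := by
    rw [Finset.sum_const, Finset.card_univ, Fintype.card_fin, nsmul_eq_mul]
    field_simp
  conv_lhs => rw [h1]
  rw [← Finset.sum_sub_distrib]
  refine Finset.sum_congr rfl fun k _ => ?_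
  rw [← h1]
  field_simp
  ring

lemma Pl_shift (hd : 0 < d) (w : St d l) (f : St d l → ℝ) (z : St d l) :
    Pl (fun z => f (z + w)) z = Pl f (z + w) := by
  rw [Pl_apply hd, Pl_apply hd]
  refine Finset.sum_congr rfl fun k _ => ?_
  have h1 : z + eT k + w = z + w + eT k := by abel
  have h2 : z - eT k + w = z + w - eT k := by abel
  rw [h1, h2]

lemma Plk_shift (hd : 0 < d) (w : St d l) (k : ℕ) (f : St d l → ℝ) :
    Plk k (fun z => f (z + w)) = fun z => Plk k f (z + w) := by
  induction k with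
  | zero => rfl
  | succ k ih =>
    rw [Plk_succ, ih]
    funext z
    rw [Plk_succ, Pl_shift hd w (Plk k f)]

/-- reflection in the direction `i` -/
def rf (i : Fin d) (a : ZMod l) (z : St d l) : St d l := Function.update z i (a - z i)

lemma rf_rf (i : Fin d) (a : ZMod l) (z : St d l) : rf i a (rf i a z) = z := by
  funext k
  unfold rf
  by_cases h : k = i
  · subst h; simp
  · simp [h]

lemma rf_add (i : Fin d) (a : ZMod l) (z : St d l) (k : Fin d) :
    rf i a (z + eT k) = if k = i then rf i a z - eT k else rf i a z + eT k := by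
  funext k'
  unfold rf eT
  by_cases h : k = i
  · subst h
    by_cases h' : k' = k
    · subst h'; simp; ring
    · simp [h']
  · rw [if_neg h]
    by_cases h' : k' = i
    · subst h'; simp [Ne.symm h]
    · simp [h']

lemma rf_sub (i : Fin d) (a : ZMod l) (z : St d l) (k : Fin d) :
    rf i a (z - eT k) = if k = i then rf i a z + eT k else rf i a z - eT k := by
  funext k'
  unfold rf eT
  by_cases h : k = i
  · subst h
    by_cases h' : k' = k
    · subst h'; simp; ring
    · simp [h']
  · rw [if_neg h]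
    by_cases h' : k' = i
    · subst h'; simp [Ne.symm h]
    · simp [h']

lemma Pl_rf (hd : 0 < d) (i : Fin d) (a : ZMod l) (f : St d l → ℝ) (z : St d l) :
    Pl (fun z => f (rf i a z)) z = Pl f (rf i a z) := by
  rw [Pl_apply hd, Pl_apply hd]
  refine Finset.sum_congr rfl fun k _ => ?_
  rw [rf_add, rf_sub]
  split_ifs <;> ring

lemma Plk_rf (hd : 0 < d) (i : Fin d) (a : ZMod l) (k : ℕ) (f : St d l → ℝ) :
    Plk k (fun z => f (rf i a z)) = fun z => Plk k f (rf i a z) := by
  induction k with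
  | zero => rfl
  | succ k ih =>
    rw [Plk_succ, ih]
    funext z
    rw [Plk_succ, Pl_rf hd i a (Plk k f)]

lemma Pl_sup' (hd : 0 < d) {B : ℝ} {f : St d l → ℝ} (h : ∀ z, |f z| ≤ B) (z : St d l) :
    |Pl f z| ≤ B := by
  have hd0 : (0 : ℝ) < d := by exact_mod_cast hd
  rw [Pl_apply hd]
  calc |∑ k, (1 / (4 * d) : ℝ) * (2 * f z + f (z + eT k) + f (z - eT k))| ≤
      ∑ _k : Fin d, (1 / (4 * d) : ℝ) * (4 * B) := by
        refine (Finset.abs_sum_le_sum_abs _ _).trans (Finset.sum_le_sum fun k _ => ?_)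
        rw [abs_mul, abs_of_nonneg (by positivity : (0 : ℝ) ≤ 1 / (4 * d))]
        refine mul_le_mul_of_nonneg_left ?_ (by positivity)
        have h1 := abs_le.1 (h z)
        have h2 := abs_le.1 (h (z + eT k))
        have h3 := abs_le.1 (h (z - eT k))
        rw [abs_le]
        constructor <;> linarith
    _ = B := by
        rw [Finset.sum_const, Finset.card_univ, Fintype.card_fin, nsmul_eq_mul]
        field_simp

lemma Plk_sup' (hd : 0 < d) {B : ℝ} {f : St d l → ℝ} (h : ∀ z, |f z| ≤ B) (k : ℕ) (z : St d l) :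
    |Plk k f z| ≤ B := by
  induction k generalizing z with
  | zero => exact h z
  | succ k ih => rw [Plk_succ]; exact Pl_sup' hd ih z

lemma uK_apply (K : ℕ) (f : St d l → ℝ) (z : St d l) :
    uK K f z = (1 / (4 * d) : ℝ) * ∑ k ∈ Finset.range K, Plk k f z := by
  unfold uK
  rw [Pi.smul_apply, Finset.sum_apply, smul_eq_mul]

lemma uK_sup' (hd : 0 < d) {B : ℝ} {f : St d l → ℝ} (h : ∀ z, |f z| ≤ B) (K : ℕ) (z : St d l) :
    |uK K f z| ≤ K * B := by
  have hd0 : (1 : ℝ) ≤ d := by exact_mod_cast hd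
  have hB : 0 ≤ B := (abs_nonneg _).trans (h z)
  rw [uK_apply, abs_mul, abs_of_nonneg (by positivity : (0 : ℝ) ≤ 1 / (4 * d))]
  have h1 : |∑ k ∈ Finset.range K, Plk k f z| ≤ K * B := by
    refine (Finset.abs_sum_le_sum_abs _ _).trans ?_
    refine (Finset.sum_le_sum fun k _ => Plk_sup' hd h k z).trans (le_of_eq ?_)
    rw [Finset.sum_const, Finset.card_range, nsmul_eq_mul]
  have h2 : (1 / (4 * d) : ℝ) ≤ 1 := by
    rw [div_le_one (by positivity)]; linarith
  calc (1 / (4 * d) : ℝ) * |∑ k ∈ Finset.range K, Plk k f z| ≤ 1 * (K * B) :=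
        mul_le_mul h2 h1 (abs_nonneg _) zero_le_one
    _ = _ := one_mul _

lemma uK_shift (hd : 0 < d) (w : St d l) (K : ℕ) {f : St d l → ℝ} (h : ∀ z, f (z + w) = f z)
    (z : St d l) : uK K f (z + w) = uK K f z := by
  rw [uK_apply, uK_apply]
  congr 1
  refine Finset.sum_congr rfl fun k _ => ?_
  have h1 : (fun z => f (z + w)) = f := funext h
  have h2 := Plk_shift hd w k f
  rw [h1] at h2
  exact (congrFun h2 z).symm

lemma uK_rf (hd : 0 < d) (i : Fin d) (a : ZMod l) (K : ℕ) {f : St d l → ℝ}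
    (h : ∀ z, f (rf i a z) = -f z) (z : St d l) : uK K f (rf i a z) = -uK K f z := by
  rw [uK_apply, uK_apply, ← mul_neg, ← Finset.sum_neg_distrib]
  congr 1
  refine Finset.sum_congr rfl fun k _ => ?_
  have h1 : (fun z => f (rf i a z)) = -f := funext h
  have h2 := Plk_rf hd i a k f
  rw [h1, Plk_neg] at h2
  exact (congrFun h2 z).symm

/-- support in a cube of the directions other than `j` -/
def SJ (j : Fin d) (lo hi : ℕ) (f : St d l → ℝ) : Prop :=
  ∀ z, f z ≠ 0 → ∀ i, i ≠ j → lo ≤ wv z i ∧ wv z i < hi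

lemma SJ.mono {j : Fin d} {lo hi lo' hi' : ℕ} {f : St d l → ℝ} (h : SJ j lo hi f) (h1 : lo' ≤ lo)
    (h2 : hi ≤ hi') : SJ j lo' hi' f :=
  fun z hz i hi => ⟨h1.trans (h z hz i hi).1, lt_of_lt_of_le (h z hz i hi).2 h2⟩

/-- predecessor of a coordinate -/
lemma wv_pred' {z : St d l} {k : Fin d} (h : 1 ≤ wv (z + eT k) k) :
    wv (z + eT k) k = wv z k + 1 := by
  by_cases h1 : wv z k + 1 < l
  · rw [wv_add h1, Pi.add_apply, es_same]
  · exfalso
    have h2 : wv z k + 1 = l := by
      have := wv_lt z k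
      omega
    have h3 : (z + eT k : St d l) k = 0 := by
      have h4 : (z + eT k : St d l) k = z k + 1 := by simp [eT]
      rw [h4]
      have h5 : z k = ((wv z k : ℕ) : ZMod l) := by unfold wv; exact (ZMod.natCast_zmod_val _).symm
      rw [h5]
      have h6 : ((wv z k : ℕ) : ZMod l) + 1 = ((wv z k + 1 : ℕ) : ZMod l) := by push_cast; rfl
      rw [h6, h2, ZMod.natCast_self]
    unfold wv at h
    rw [h3, ZMod.val_zero] at h
    omega

lemma SJ.Pl {j : Fin d} (hd : 0 < d) {lo hi : ℕ} {f : St d l → ℝ} (h : SJ j lo hi f) (hlo : 1 ≤ lo)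
    (hhi : hi < l) : SJ j (lo - 1) (hi + 1) (Pl f) := by
  intro z hz i' hi'
  have h1 : f z ≠ 0 ∨ ∃ k, f (z + eT k) ≠ 0 ∨ f (z - eT k) ≠ 0 := by
    by_contra hc
    push Not at hc
    apply hz
    rw [Pl_apply hd]
    refine Finset.sum_eq_zero fun k _ => ?_
    rw [hc.1, (hc.2 k).1, (hc.2 k).2]; ring
  rcases h1 with h1 | ⟨k, h1 | h1⟩
  · have := h z h1 i' hi'
    omega
  · have h2 := h _ h1 i' hi'
    by_cases hk : i' = k
    · subst hk
      have h3 := wv_pred' (z := z) (k := i') (by omega)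
      omega
    · rw [wv_add_ne hk] at h2
      omega
  · have h2 := h _ h1 i' hi'
    by_cases hk : i' = k
    · subst hk
      have h3 := wv_add (x := z - eT i') (k := i') (by omega)
      rw [sub_add_cancel] at h3
      rw [h3, Pi.add_apply, es_same]
      omega
    · have h3 := wv_add_ne (x := z - eT k) (i := i') (k := k) hk
      rw [sub_add_cancel] at h3
      rw [h3]
      omega

lemma SJ.Plk {j : Fin d} (hd : 0 < d) {lo hi : ℕ} {f : St d l → ℝ} (h : SJ j lo hi f) {k : ℕ}
    (hlo : k ≤ lo) (hhi : hi + k ≤ l) : SJ j (lo - k) (hi + k) (Plk k f) := by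
  induction k with
  | zero => exact h
  | succ k ih =>
    rw [Plk_succ]
    exact ((ih (by omega) (by omega)).Pl hd (by omega) (by omega)).mono (by omega) (by omega)

lemma SJ.uK {j : Fin d} (hd : 0 < d) {lo hi : ℕ} {f : St d l → ℝ} (h : SJ j lo hi f) {K : ℕ}
    (hlo : K ≤ lo) (hhi : hi + K ≤ l) : SJ j (lo - K) (hi + K) (uK K f) := by
  intro z hz i' hi'
  rw [uK_apply] at hz
  have h1 : ∑ k ∈ Finset.range K, Pool.Agent.W793.YM.Plk k f z ≠ 0 :=
    fun h0 => hz (by rw [h0, mul_zero])
  obtain ⟨k, hk, h2⟩ := Finset.exists_ne_zero_of_sum_ne_zero h1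
  have hk' := Finset.mem_range.1 hk
  have h3 := (h.Plk hd (k := k) (by omega) (by omega)) z h2 i' hi'
  omega

/-! ### the full lines -/

/-- the difference of two parallel lines -/
def JJ (x : St d l) (i j : Fin d) (R : ℕ) : St d l → ℝ :=
  sgI (x + R • eT i) j l - sgI x j l

lemma sgI_line (x : St d l) (j : Fin d) (z : St d l) :
    sgI x j l z = if ∀ k, k ≠ j → z k = x k then 1 else 0 := by
  unfold sgI
  by_cases h : ∀ k, k ≠ j → z k = x k
  · rw [if_pos h, Finset.sum_eq_single (z j - x j).val]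
    · rw [if_pos]
      funext k
      by_cases hk : k = j
      · rw [hk]
        have h2 : ∀ v : ℕ, (x + v • eT j : St d l) j = x j + (v : ZMod l) := fun v => by
          simp [eT]
        rw [h2, ZMod.natCast_zmod_val]; ring
      · simp [eT, hk, h k hk]
    · intro s hs hne
      rw [if_neg]
      intro hz
      apply hne
      have h1 := congrFun hz j
      have h2 : (x + s • eT j : St d l) j = x j + s := by simp [eT]
      rw [h2] at h1
      rw [h1, add_sub_cancel_left, ZMod.val_natCast_of_lt (Finset.mem_range.1 hs)]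
    · intro h1
      exact absurd (Finset.mem_range.2 (ZMod.val_lt _)) h1
  · rw [if_neg h]
    refine Finset.sum_eq_zero fun s _ => ?_
    rw [if_neg]
    intro hz
    apply h
    intro k hk
    rw [hz]
    simp [eT, hk]

lemma JJ_apply (x : St d l) (i j : Fin d) (R : ℕ) (z : St d l) :
    JJ x i j R z = (if ∀ k, k ≠ j → z k = (x + R • eT i : St d l) k then 1 else 0) -
      (if ∀ k, k ≠ j → z k = x k then 1 else 0) := by
  unfold JJ
  rw [Pi.sub_apply, sgI_line, sgI_line]

lemma JJ_sup (x : St d l) (i j : Fin d) (R : ℕ) (z : St d l) : |JJ x i j R z| ≤ 1 := by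
  rw [JJ_apply]
  split_ifs <;> norm_num

lemma JJ_shift (x : St d l) (i j : Fin d) (R : ℕ) (z : St d l) :
    JJ x i j R (z + eT j) = JJ x i j R z := by
  rw [JJ_apply, JJ_apply]
  have h1 : ∀ y : St d l, (∀ k, k ≠ j → (z + eT j : St d l) k = y k) ↔
      (∀ k, k ≠ j → z k = y k) := by
    intro y
    refine forall_congr' fun k => ?_
    refine imp_congr_right fun hk => ?_
    rw [add_ne z (Ne.symm hk)]
  simp only [h1]

lemma JJ_rf {x : St d l} {i j : Fin d} (hij : i ≠ j) (R : ℕ) (z : St d l) :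
    JJ x i j R (rf i (2 * x i + R) z) = -JJ x i j R z := by
  rw [JJ_apply, JJ_apply]
  have hr : ∀ k, (x + R • eT i : St d l) k = if k = i then (x i + (R : ZMod l)) else x k := by
    intro k
    by_cases hk : k = i
    · subst hk; simp [eT]
    · simp [eT, hk]
  have hf : ∀ k, rf i (2 * x i + (R : ZMod l)) z k =
      if k = i then (2 * x i + (R : ZMod l) - z i) else z k := by
    intro k
    unfold rf
    by_cases hk : k = i
    · subst hk; simp
    · simp [hk]
  have h1 : (∀ k, k ≠ j → rf i (2 * x i + (R : ZMod l)) z k = (x + R • eT i : St d l) k) ↔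
      (∀ k, k ≠ j → z k = x k) := by
    refine forall_congr' fun k => imp_congr_right fun hk => ?_
    rw [hr, hf]
    by_cases h : k = i
    · subst h
      simp only [if_true]
      constructor
      · intro h2; linear_combination -h2
      · intro h2; rw [h2]; ring
    · simp only [h, if_false]
  have h2 : (∀ k, k ≠ j → rf i (2 * x i + (R : ZMod l)) z k = x k) ↔
      (∀ k, k ≠ j → z k = (x + R • eT i : St d l) k) := by
    refine forall_congr' fun k => imp_congr_right fun hk => ?_
    rw [hr, hf]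
    by_cases h : k = i
    · subst h
      simp only [if_true]
      constructor
      · intro h2; linear_combination -h2
      · intro h2; rw [h2]; ring
    · simp only [h, if_false]
  simp only [h1, h2]
  ring

lemma JJ_SJ {x : St d l} {i j : Fin d} {X0 R : ℕ} (hx : ∀ k, k ≠ j → wv x k = X0)
    (hR : X0 + R < l) : SJ j X0 (X0 + R + 1) (JJ x i j R) := by
  intro z hz k hk
  rw [JJ_apply] at hz
  by_cases h1 : ∀ k, k ≠ j → z k = (x + R • eT i : St d l) k
  · have h2 := h1 k hk
    unfold wv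
    rw [h2]
    by_cases hki : k = i
    · subst hki
      have h3 : (x + R • eT k : St d l) k = ((X0 + R : ℕ) : ZMod l) := by
        have h4 : x k = ((wv x k : ℕ) : ZMod l) := by unfold wv; exact (ZMod.natCast_zmod_val _).symm
        have h5 : (x + R • eT k : St d l) k = x k + R := by simp [eT]
        rw [h5, h4, hx k hk]; push_cast; rfl
      rw [h3, ZMod.val_natCast_of_lt hR]
      omega
    · have h3 : (x + R • eT i : St d l) k = x k := by simp [eT, hki]
      rw [h3]
      have := hx k hk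
      unfold wv at this
      omega
  · by_cases h2 : ∀ k, k ≠ j → z k = x k
    · unfold wv
      rw [h2 k hk]
      have := hx k hk
      unfold wv at this
      omega
    · rw [if_neg h1, if_neg h2] at hz
      simp at hz

lemma ip2_sgI' (x : St d l) (j : Fin d) (q : ℕ) (F : St d l → ℝ) :
    ip2 (sgI x j q) F = ∑ s ∈ Finset.range q, F (x + s • eT j) := by
  unfold ip2 sgI
  simp only [Finset.sum_mul, ite_mul, one_mul, zero_mul]
  rw [Finset.sum_comm]
  refine Finset.sum_congr rfl fun s _ => ?_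
  rw [Finset.sum_ite_eq' Finset.univ]
  simp

lemma inv_smul {j : Fin d} {F : St d l → ℝ} (h : ∀ z, F (z + eT j) = F z) (z : St d l) (s : ℕ) :
    F (z + s • eT j) = F z := by
  induction s with
  | zero => rw [zero_smul, add_zero]
  | succ s ih => rw [add_smul, one_smul, ← add_assoc, h, ih]

lemma ip2_JJ {x : St d l} {i j : Fin d} {R : ℕ} {F : St d l → ℝ} (h : ∀ z, F (z + eT j) = F z) :
    ip2 (JJ x i j R) F = l * (F (x + R • eT i) - F x) := by
  unfold JJ
  rw [ip2_sub_left, ip2_sgI', ip2_sgI']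
  simp only [inv_smul h]
  rw [Finset.sum_const, Finset.sum_const, Finset.card_range, nsmul_eq_mul, nsmul_eq_mul]
  ring

lemma JJ_x {x : St d l} {i j : Fin d} (hij : i ≠ j) {R : ℕ} (hR : 1 ≤ R) (hRl : R < l) :
    JJ x i j R x = -1 ∧ JJ x i j R (x + R • eT i) = 1 := by
  have h1 : ((R : ℕ) : ZMod l) ≠ 0 := by
    intro h
    have := congrArg ZMod.val h
    rw [ZMod.val_natCast_of_lt hRl, ZMod.val_zero] at this
    omega
  have h2 : (x + R • eT i : St d l) i = x i + R := by simp [eT]
  have h3 : ¬∀ k, k ≠ j → x k = (x + R • eT i : St d l) k := by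
    intro h
    have := h i hij
    rw [h2] at this
    apply h1
    linear_combination -this
  have h4 : ¬∀ k, k ≠ j → (x + R • eT i : St d l) k = x k := fun h => h3 fun k hk => (h k hk).symm
  constructor
  · rw [JJ_apply, if_neg h3, if_pos (fun _ _ => rfl)]; norm_num
  · rw [JJ_apply, if_neg h4, if_pos (fun _ _ => rfl)]; norm_num

/-! ### the energy -/

variable {j : Fin d}

lemma inv_single {F : St d l → ℝ} (h : ∀ z, F (z + eT j) = F z) (z : St d l) (c : ZMod l) :
    F (z + (Pi.single j c : St d l)) = F z := by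
  have h1 : (Pi.single j c : St d l) = c.val • eT j := by
    unfold eT
    rw [← Pi.single_smul]
    congr 1
    simp
  rw [h1, inv_smul h]

lemma gmT_eq (t : ZMod l) (h h' : St d l → ℝ) : gmT j t h h' = ∑ x, if x j = t then
    ∑ k, (if k ≠ j then (h x - h (x + eT k)) * (h' x - h' (x + eT k)) else 0) else 0 := by
  unfold gmT
  have h1 : ∑ e ∈ (Finset.univ.filter fun e : Ed d l => e.2 ≠ j ∧ e.1 j = t),
      (h e.1 - h (e.1 + eT e.2)) * (h' e.1 - h' (e.1 + eT e.2)) =
      ∑ e : Ih j t, (h e.1.1 - h (e.1.1 + eT e.1.2)) * (h' e.1.1 - h' (e.1.1 + eT e.1.2)) :=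
    Finset.sum_subtype _ (fun e => by simp) _
  rw [← h1, Finset.sum_filter, Fintype.sum_prod_type]
  refine Finset.sum_congr rfl fun x _ => ?_
  simp only
  by_cases hx : x j = t
  · simp only [hx, and_true, if_true]
  · simp only [hx, and_false, if_false, Finset.sum_const_zero]

lemma gmT_time {h h' : St d l → ℝ} (hh : ∀ z, h (z + eT j) = h z) (hh' : ∀ z, h' (z + eT j) = h' z)
    (t : ZMod l) : gmT j t h h' = gmT j 0 h h' := by
  rw [gmT_eq, gmT_eq]
  symm
  rw [← Equiv.sum_comp (Equiv.addRight (Pi.single j (-t) : St d l))]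
  refine Finset.sum_congr rfl fun x _ => ?_
  have h1 : (Equiv.addRight (Pi.single j (-t) : St d l)) x = x + (Pi.single j (-t) : St d l) := rfl
  rw [h1]
  have h2 : (x + (Pi.single j (-t) : St d l) : St d l) j = x j - t := by
    simp [sub_eq_add_neg]
  rw [h2]
  have h3 : ∀ k : Fin d, x + (Pi.single j (-t) : St d l) + eT k =
      x + eT k + (Pi.single j (-t) : St d l) := fun k => by abel
  simp only [h3, inv_single hh, inv_single hh', sub_eq_zero]

/-- the mean of the energies of the slices -/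
lemma gmT_sum {h h' : St d l → ℝ} (hh : ∀ z, h (z + eT j) = h z) (hh' : ∀ z, h' (z + eT j) = h' z)
    (t : ZMod l) : (l : ℝ) * gmT j t h h' = ∑ k, ip2 (Dp k h) (Dp k h') := by
  have h1 : ∑ t : ZMod l, gmT j t h h' = l * gmT j 0 h h' := by
    rw [Finset.sum_congr rfl fun t _ => gmT_time hh hh' t, Finset.sum_const, Finset.card_univ,
      ZMod.card, nsmul_eq_mul]
  rw [gmT_time hh hh' t, ← h1]
  simp only [gmT_eq]
  rw [Finset.sum_comm]
  have h2 : ∑ k, ip2 (Dp k h) (Dp k h') = ∑ x, ∑ k, Dp k h x * Dp k h' x := by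
    unfold ip2
    exact Finset.sum_comm
  rw [h2]
  refine Finset.sum_congr rfl fun x _ => ?_
  rw [Finset.sum_ite_eq Finset.univ (x j), if_pos (Finset.mem_univ _)]
  refine Finset.sum_congr rfl fun k _ => ?_
  unfold Dp
  by_cases hk : k = j
  · subst hk
    rw [if_neg (by simp), hh, hh']; ring
  · rw [if_pos hk]; ring

lemma gmT_nonneg (t : ZMod l) (h : St d l → ℝ) : 0 ≤ gmT j t h h :=
  Finset.sum_nonneg fun _ _ => mul_self_nonneg _

lemma gmT_abs (t : ZMod l) (h : St d l → ℝ) :
    gmT j t (fun z => |h z|) (fun z => |h z|) ≤ gmT j t h h := by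
  unfold gmT
  refine Finset.sum_le_sum fun e _ => ?_
  simp only
  have h1 := abs_abs_sub_abs_le_abs_sub (h e.1.1) (h (e.1.1 + eT e.1.2))
  rw [← abs_mul_abs_self (|h e.1.1| - |h (e.1.1 + eT e.1.2)|),
    ← abs_mul_abs_self (h e.1.1 - h (e.1.1 + eT e.1.2))]
  exact mul_self_le_mul_self (abs_nonneg _) h1

/-- functions with opposite symmetries are orthogonal -/
lemma gmT_ort {i : Fin d} (hij : i ≠ j) {a : ZMod l} {h h' : St d l → ℝ}
    (ha : ∀ z, h (rf i a z) = -h z) (ha' : ∀ z, h' (rf i a z) = h' z)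
    (hh : ∀ z, h (z + eT j) = h z) (hh' : ∀ z, h' (z + eT j) = h' z) (t : ZMod l) :
    gmT j t h h' = 0 := by
  have hl : (0 : ℝ) < l := by
    have : 0 < l := Nat.pos_of_ne_zero (NeZero.ne l)
    exact_mod_cast this
  have key : ∀ k, ip2 (Dp k h) (Dp k h') = 0 := by
    intro k
    have h1 : ip2 (Dp k h) (Dp k h') = -ip2 (Dp k h) (Dp k h') := by
      have h0 : ip2 (Dp k h) (Dp k h') = ∑ z, Dp k h (rf i a z) * Dp k h' (rf i a z) :=
        (Equiv.sum_comp (⟨rf i a, rf i a, rf_rf i a, rf_rf i a⟩ : St d l ≃ St d l)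
          (fun z => Dp k h z * Dp k h' z)).symm
      conv_lhs => rw [h0]
      unfold ip2 Dp
      rw [← Finset.sum_neg_distrib]
      by_cases hk : k = i
      · -- the reflected edge is `z - e_k → z`
        subst hk
        have h2 : ∀ z : St d l, rf k a z + eT k = rf k a (z - eT k) := by
          intro z
          rw [rf_sub, if_pos rfl]
        have h3 := sum_shift (eT k) (fun z : St d l => (h (rf k a z + eT k) - h (rf k a z)) *
          (h' (rf k a z + eT k) - h' (rf k a z)))
        rw [← h3]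
        refine Finset.sum_congr rfl fun z _ => ?_
        simp only [h2, add_sub_cancel_right, ha, ha']
        ring
      · refine Finset.sum_congr rfl fun z _ => ?_
        have h2 : rf i a z + eT k = rf i a (z + eT k) := by
          rw [rf_add, if_neg hk]
        rw [h2, ha, ha, ha', ha']
        ring
    linarith
  have h2 := gmT_sum hh hh' t
  rw [Finset.sum_eq_zero fun k _ => key k] at h2
  exact (mul_eq_zero.1 h2).resolve_left hl.ne'

/-- lower bound for the energy by a path to the complement of the support -/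
lemma gmT_lower {i : Fin d} (hij : i ≠ j) {h : St d l → ℝ} (hh : ∀ z, h (z + eT j) = h z)
    {x : St d l} {p : ℕ} (hp : p ≤ l) (h0 : h (x - p • eT i) = 0) (t : ZMod l) :
    h x ^ 2 ≤ p * gmT j t h h := by
  rw [gmT_time hh hh t, gmT_time hh hh (x j) |>.symm]
  have h1 : h x = ∑ s ∈ Finset.range p, (h (x - s • eT i) - h (x - (s + 1) • eT i)) := by
    rw [Finset.sum_range_sub' (fun s => h (x - s • eT i)), zero_smul, sub_zero, h0, sub_zero]
  have h2 : h x ^ 2 ≤ p * ∑ s ∈ Finset.range p, (h (x - s • eT i) - h (x - (s + 1) • eT i)) ^ 2 := by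
    rw [h1]
    have := sq_sum_le_card_mul_sum_sq (s := Finset.range p)
      (f := fun s => h (x - s • eT i) - h (x - (s + 1) • eT i))
    rwa [Finset.card_range] at this
  refine h2.trans (mul_le_mul_of_nonneg_left ?_ (Nat.cast_nonneg _))
  -- the edges of the path
  have hmem : ∀ s : ℕ, (i ≠ j ∧ (x - (s + 1) • eT i : St d l) j = x j) := by
    intro s
    refine ⟨hij, ?_⟩
    simp [eT, Ne.symm hij]
  obtain ⟨e, he⟩ : ∃ e : ℕ → Ih (d := d) (l := l) j (x j), e = fun s =>
    ⟨((x - (s + 1) • eT i : St d l), i), hmem s⟩ := ⟨_, rfl⟩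
  have hinj : Set.InjOn e (Finset.range p) := by
    intro a ha b hb hab
    rw [he] at hab
    simp only [Subtype.mk.injEq, Prod.mk.injEq, and_true] at hab
    have h3 := congrFun hab i
    have h4 : ∀ s : ℕ, (x - (s + 1) • eT i : St d l) i = x i - ((s : ℕ) : ZMod l) - 1 := by
      intro s; simp [eT]; ring
    rw [h4, h4] at h3
    have h5 : ((a : ℕ) : ZMod l) = b := by linear_combination -h3
    have ha' := Finset.mem_range.1 (Finset.mem_coe.1 ha)
    have hb' := Finset.mem_range.1 (Finset.mem_coe.1 hb)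
    exact cast_inj (by omega) (by omega) h5
  obtain ⟨w, hw⟩ : ∃ w : Ih (d := d) (l := l) j (x j) → ℝ, w = fun e =>
    (h e.1.1 - h (e.1.1 + eT e.1.2)) * (h e.1.1 - h (e.1.1 + eT e.1.2)) := ⟨_, rfl⟩
  have h5 : ∑ s ∈ Finset.range p, (h (x - s • eT i) - h (x - (s + 1) • eT i)) ^ 2 =
      ∑ s ∈ Finset.range p, w (e s) := by
    refine Finset.sum_congr rfl fun s _ => ?_
    rw [hw, he]
    simp only
    have h6 : x - (s + 1) • eT i + eT i = x - s • (eT i : St d l) := by
      rw [add_smul, one_smul]; abel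
    rw [h6]; ring
  have h6 : gmT j (x j) h h = ∑ e, w e := by rw [hw]; rfl
  rw [h5, h6, ← Finset.sum_image (f := w) (fun a ha b hb hab => hinj ha hb hab)]
  refine Finset.sum_le_univ_sum_of_nonneg fun e => ?_
  rw [hw]; exact mul_self_nonneg _

/-- the energy of the potential of two lines -/
lemma gmT_uK (hd : 0 < d) {x : St d l} {i : Fin d} {R K : ℕ} (t : ZMod l) :
    gmT j t (uK K (JJ x i j R)) (uK K (JJ x i j R)) ≤
      uK K (JJ x i j R) (x + R • eT i) - uK K (JJ x i j R) x := by
  have hl : (0 : ℝ) < l := by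
    have : 0 < l := Nat.pos_of_ne_zero (NeZero.ne l)
    exact_mod_cast this
  obtain ⟨f, hf⟩ : ∃ f, f = uK K (JJ x i j R) := ⟨_, rfl⟩
  have hinv : ∀ z, f (z + eT j) = f z := by
    intro z; rw [hf]
    exact uK_shift hd (eT j) K (fun z => JJ_shift x i j R z) z
  have h1 := gmT_sum hinv hinv t
  have h2 : ∑ k, ip2 (Dp k f) (Dp k f) = ip2 f (lap f) := by
    unfold lap
    rw [ip2_sum_right]
    exact Finset.sum_congr rfl fun k _ => ip2_Dp _ _ _
  have h3 : lap f = JJ x i j R - Plk K (JJ x i j R) := by rw [hf]; exact lap_uK K _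
  have h4 : 0 ≤ ip2 (Plk K (JJ x i j R)) f := by rw [hf]; exact ip2_Plk_uK_nonneg hd K _
  have h5 : ip2 f (lap f) ≤ l * (f (x + R • eT i) - f x) := by
    rw [h3, ip2_sub_right, ip2_comm f (Plk K _), ip2_comm f, ip2_JJ hinv]
    linarith
  rw [← hf]
  rw [h2] at h1
  have h6 : (l : ℝ) * gmT j t f f ≤ l * (f (x + R • eT i) - f x) := by rw [h1]; exact h5
  exact le_of_mul_le_mul_left h6 hl

lemma uK_low0 (hd : 0 < d) {x : St d l} {i : Fin d} (hij : i ≠ j) {R K : ℕ} (hK : 1 ≤ K)
    (hR : 1 ≤ R) (hRl : R < l) :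
    1 / (2 * d) ≤ uK K (JJ x i j R) (x + R • eT i) - uK K (JJ x i j R) x := by
  have hd0 : (0 : ℝ) < d := by exact_mod_cast hd
  have hl : (0 : ℝ) < l := by
    have : 0 < l := Nat.pos_of_ne_zero (NeZero.ne l)
    exact_mod_cast this
  have h1 : ip2 (JJ x i j R) (uK K (JJ x i j R)) =
      l * (uK K (JJ x i j R) (x + R • eT i) - uK K (JJ x i j R) x) :=
    ip2_JJ fun z => uK_shift hd (eT j) K (fun z => JJ_shift x i j R z) z
  have h2 := ip2_uK hd K (JJ x i j R)
  have h3 : (1 / (4 * d) : ℝ) * ip2 (JJ x i j R) (Plk 0 (JJ x i j R)) ≤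
      ∑ k ∈ Finset.range K, (1 / (4 * d) : ℝ) * ip2 (JJ x i j R) (Plk k (JJ x i j R)) :=
    Finset.single_le_sum (f := fun k => (1 / (4 * d) : ℝ) *
      ip2 (JJ x i j R) (Plk k (JJ x i j R))) (fun k _ => mul_nonneg (by positivity)
        (ip2_Plk_nonneg hd k _)) (Finset.mem_range.2 (by omega))
  rw [Plk_zero, ip2_JJ (fun z => JJ_shift x i j R z), (JJ_x hij hR hRl).1, (JJ_x hij hR hRl).2,
    ← h2, h1] at h3
  have h4 : (1 / (4 * d) : ℝ) * (l * (1 - -1)) = l * (1 / (2 * d)) := by
    field_simp; ring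
  rw [h4] at h3
  exact le_of_mul_le_mul_left h3 hl

end

end Pool.Agent.TH190.YV
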