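import Mathlib
import Pool.Agent.TH190.YV.Test

/-!
# The value of the truncated potential
-/

open MeasureTheory Matrix
open scoped Matrix.Norms.Frobenius ContDiff
open Pool.Agent.H906R3.YM hiding Pl
open Pool.Agent.W793.YM Pool.Agent.TH618.YM

namespace Pool.Agent.TH190.YV

set_option linter.unusedSectionVars false
set_option linter.unusedVariables false

noncomputable section

variable {d l : ℕ} [NeZero l]

/-- the return probability -/
lemma ret_bound (hd : 3 ≤ d) (j : Fin d) {k : ℕ} (hk : 1 ≤ k) (hkl : k ≤ l) :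
    (1 / (l : ℝ) ^ d) * ∑ ξ : St d l, (1 - sj j ξ / (4 * d)) ^ k ≤
      (2 + 2 * Real.sqrt (2 * d)) ^ (d - 1) * (1 / (k : ℝ)) := by
  have hd0 : (0 : ℝ) < d := by exact_mod_cast (by omega : 0 < d)
  have hd1 : (1 : ℝ) ≤ d := by exact_mod_cast (by omega : 1 ≤ d)
  have hl0 : (0 : ℝ) < l := by
    have : 0 < l := Nat.pos_of_ne_zero (NeZero.ne l)
    exact_mod_cast this
  have hl : (l : ℝ) ≠ 0 := hl0.ne'
  obtain ⟨c0, hc0⟩ : ∃ c0 : ℝ, c0 = (2 + 2 * Real.sqrt (2 * d)) ^ (d - 1) := ⟨_, rfl⟩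
  rw [← hc0]
  have hc00 : 0 ≤ c0 := by rw [hc0]; positivity
  have hbase : ∀ ξ : St d l, 0 ≤ 1 - sj j ξ / (4 * d) := fun ξ =>
    (lm_nonneg (l := l) (by omega : 0 < d) ξ).trans (lm_le_sj (by omega) j ξ)
  have hkR : (1 : ℝ) ≤ k := by exact_mod_cast hk
  obtain ⟨c, hc⟩ : ∃ c : ℝ, c = k / (2 * d) := ⟨_, rfl⟩
  have hcpos : 0 < c := by rw [hc]; positivity
  obtain ⟨S, hS⟩ : ∃ S : ℝ, S = ∑ t : ZMod l, Real.exp (-(c * (1 - (chi t).re))) := ⟨_, rfl⟩
  have hS0 : 0 ≤ S := by rw [hS]; exact Finset.sum_nonneg fun t _ => (Real.exp_pos _).le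
  have e1 : ∀ ξ : St d l, (1 - sj j ξ / (4 * d)) ^ k ≤
      ∏ k', (if k' = j then 1 else Real.exp (-(c * (1 - (chi (ξ k')).re)))) := by
    intro ξ
    have h1 : 1 - sj j ξ / (4 * d) ≤ Real.exp (-(sj j ξ / (4 * d))) := by
      have := Real.add_one_le_exp (-(sj j ξ / (4 * d)))
      linarith
    refine (pow_le_pow_left₀ (hbase ξ) h1 k).trans (le_of_eq ?_)
    rw [← Real.exp_nat_mul]
    have h2 : ∀ k' : Fin d, (if k' = j then 1 else Real.exp (-(c * (1 - (chi (ξ k')).re)))) =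
        Real.exp (-(c * (if k' = j then 0 else (1 - (chi (ξ k')).re)))) := by
      intro k'
      split_ifs <;> simp
    simp only [h2]
    rw [← Real.exp_sum]
    congr 1
    rw [Finset.sum_neg_distrib, ← Finset.mul_sum, hc]
    unfold sj
    have h3 : ∑ k' : Fin d, (if k' = j then 0 else 2 * (1 - (chi (ξ k')).re)) =
        2 * ∑ k' : Fin d, (if k' = j then 0 else (1 - (chi (ξ k')).re)) := by
      rw [Finset.mul_sum]
      refine Finset.sum_congr rfl fun k' _ => ?_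
      split_ifs <;> simp
    rw [h3]
    field_simp
    ring
  have e2 : ∑ ξ : St d l, ∏ k', (if k' = j then 1 else
      Real.exp (-(c * (1 - (chi (ξ k')).re)))) = l * S ^ (d - 1) := by
    have e3 := Finset.prod_univ_sum (fun _ : Fin d => (Finset.univ : Finset (ZMod l)))
      (fun k' t => if k' = j then 1 else Real.exp (-(c * (1 - (chi t).re))))
    rw [Fintype.piFinset_univ] at e3
    rw [← e3, ← Finset.mul_prod_erase _ _ (Finset.mem_univ j)]
    congr 1
    · simp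
    · have e4 : ∀ k' ∈ Finset.univ.erase j, ∑ t : ZMod l, (if k' = j then 1 else
          Real.exp (-(c * (1 - (chi t).re)))) = S := by
        intro k' hk'
        rw [hS]
        refine Finset.sum_congr rfl fun t _ => ?_
        rw [if_neg (Finset.ne_of_mem_erase hk')]
      rw [Finset.prod_congr rfl e4, Finset.prod_const, Finset.card_erase_of_mem
        (Finset.mem_univ j), Finset.card_univ, Fintype.card_fin]
  have e5 := sum_one (l := l) hcpos
  rw [← hS] at e5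
  have e6 : 2 / (l : ℝ) + 2 / Real.sqrt c ≤ (2 + 2 * Real.sqrt (2 * d)) / Real.sqrt k := by
    have f1 : 2 / Real.sqrt c = 2 * Real.sqrt (2 * d) / Real.sqrt k := by
      rw [hc, Real.sqrt_div (by linarith)]
      field_simp
    have f2 : 2 / (l : ℝ) ≤ 2 / Real.sqrt k := by
      refine div_le_div_of_nonneg_left (by norm_num) (Real.sqrt_pos.2 (by linarith)) ?_
      have g1 : Real.sqrt k ≤ k := by
        rw [Real.sqrt_le_left (by linarith)]
        nlinarith
      have g2 : (k : ℝ) ≤ l := by exact_mod_cast hkl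
      linarith
    rw [f1, add_div]
    linarith
  have hsk : 1 ≤ Real.sqrt k := by rw [Real.one_le_sqrt]; exact hkR
  calc (1 / (l : ℝ) ^ d) * ∑ ξ : St d l, (1 - sj j ξ / (4 * d)) ^ k ≤
      (1 / (l : ℝ) ^ d) * (l * S ^ (d - 1)) := by
        rw [← e2]
        exact mul_le_mul_of_nonneg_left (Finset.sum_le_sum fun ξ _ => e1 ξ) (by positivity)
    _ = ((1 / l : ℝ) * S) ^ (d - 1) := by
        rw [mul_pow]
        obtain ⟨e, rfl⟩ : ∃ e, d = e + 1 := ⟨d - 1, by omega⟩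
        rw [Nat.add_sub_cancel, pow_succ, div_pow, one_pow]
        field_simp
    _ ≤ ((2 + 2 * Real.sqrt (2 * d)) / Real.sqrt k) ^ (d - 1) :=
        pow_le_pow_left₀ (by positivity) (e5.trans e6) _
    _ = c0 * (1 / Real.sqrt k ^ (d - 1)) := by rw [div_pow, hc0]; ring
    _ ≤ c0 * (1 / (k : ℝ)) := by
        refine mul_le_mul_of_nonneg_left ?_ hc00
        refine one_div_le_one_div_of_le (by linarith) ?_
        calc (k : ℝ) = Real.sqrt k ^ 2 := (Real.sq_sqrt (by linarith)).symm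
          _ ≤ Real.sqrt k ^ (d - 1) := pow_le_pow_right₀ hsk (by omega)

lemma dk_zero {t : ZMod l} (ht : t ≠ 0) : dk l t = 0 := by
  unfold dk
  have h1 : ∑ s ∈ Finset.range l, chi (t * (s : ZMod l)) = ∑ u : ZMod l, chi (u * t) := by
    symm
    refine Finset.sum_bij' (fun u _ => u.val) (fun s _ => (s : ZMod l)) (fun u _ => ?_)
      (fun s _ => Finset.mem_univ _) (fun u _ => ?_) (fun s hs => ?_) (fun u _ => ?_)
    · exact Finset.mem_range.2 (ZMod.val_lt u)
    · exact ZMod.natCast_zmod_val u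
    · exact ZMod.val_natCast_of_lt (Finset.mem_range.1 hs)
    · simp only [ZMod.natCast_zmod_val]
      rw [mul_comm]
  rw [h1, sum_chi_mul, if_neg ht]

lemma one_sub_chi (t : ZMod l) (R : ℕ) :
    1 - (chi (t * (R : ZMod l))).re ≤ (R : ℝ) ^ 2 * (1 - (chi t).re) := by
  rw [chi_mul_re, chi_re]
  have h1 := one_sub_cos_mul R (2 * Real.pi * t.val / l)
  have h2 : (R : ℝ) * (2 * Real.pi * t.val / l) = 2 * Real.pi * R * (t.val / l) := by ring
  rw [h2] at h1
  exact h1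

lemma sj_ge {i j : Fin d} (hij : i ≠ j) (ξ : St d l) : 2 * (1 - (chi (ξ i)).re) ≤ sj j ξ := by
  unfold sj
  have h1 := Finset.single_le_sum (f := fun k =>
    if k = j then 0 else 2 * (1 - (chi (ξ k)).re)) (s := Finset.univ) (fun k _ => by
      split_ifs
      · exact le_rfl
      · have := chi_re_le (ξ k); linarith) (Finset.mem_univ i)
  simp only [if_neg hij] at h1
  exact h1

lemma lm_eq_sj (hd : 0 < d) {j : Fin d} {ξ : St d l} (h : ξ j = 0) :
    lm ξ = 1 - sj j ξ / (4 * d) := by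
  have hd0 : (0 : ℝ) < d := by exact_mod_cast hd
  have h1 : ∑ i, (1 - (chi (ξ i)).re) = d - ∑ i, (chi (ξ i)).re := by
    rw [Finset.sum_sub_distrib]; simp
  have h2 : sj j ξ = 2 * ∑ i, (1 - (chi (ξ i)).re) := by
    unfold sj
    rw [Finset.mul_sum]
    refine Finset.sum_congr rfl fun k _ => ?_
    split_ifs with hk
    · rw [hk, h]
      have : chi (0 : ZMod l) = 1 := AddChar.map_zero_eq_one _
      rw [this]; simp
    · rfl
  rw [h2, h1]
  unfold lm
  field_simp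
  ring

/-- the value of the truncated potential -/
theorem uK_low (hd : 3 ≤ d) {x : St d l} {i j : Fin d} (hij : i ≠ j) {R K : ℕ} (hK : 1 ≤ K)
    (hKl : K ≤ l) :
    2 * gl l i j R - (R : ℝ) ^ 2 * ((2 + 2 * Real.sqrt (2 * d)) ^ (d - 1) * (1 / (K : ℝ))) ≤
      uK K (JJ x i j R) (x + R • eT i) - uK K (JJ x i j R) x := by
  have hd' : 0 < d := by omega
  have hd0 : (0 : ℝ) < d := by exact_mod_cast hd'
  have hl0 : (0 : ℝ) < l := by
    have : 0 < l := Nat.pos_of_ne_zero (NeZero.ne l)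
    exact_mod_cast this
  have hl : (l : ℝ) ≠ 0 := hl0.ne'
  obtain ⟨D, hD⟩ : ∃ D, D = uK K (JJ x i j R) (x + R • eT i) - uK K (JJ x i j R) x := ⟨_, rfl⟩
  have h1 : ip2 (JJ x i j R) (uK K (JJ x i j R)) = l * D := by
    rw [hD]
    exact ip2_JJ fun z => uK_shift hd' (eT j) K (fun z => JJ_shift x i j R z) z
  have h2 := ip2_uK hd' K (JJ x i j R)
  have h3 : ∑ k ∈ Finset.range K, (1 / (4 * d) : ℝ) * ip2 (JJ x i j R) (Plk k (JJ x i j R)) =
      (1 / (l : ℝ) ^ d) * ∑ ξ : St d l, ‖dk l (ξ j)‖ ^ 2 * (2 * (1 - (chi (ξ i * (R : ZMod l))).re) *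
        ((1 / (4 * d) : ℝ) * ∑ k ∈ Finset.range K, lm ξ ^ k)) := by
    unfold JJ
    simp only [ip2_Plk_self hd', fh_two]
    rw [Finset.mul_sum]
    simp only [Finset.mul_sum]
    rw [Finset.sum_comm]
    refine Finset.sum_congr rfl fun ξ _ => Finset.sum_congr rfl fun k _ => ?_
    ring
  obtain ⟨Φ, hΦ⟩ : ∃ Φ : St d l → ℝ, Φ = fun ξ =>
    2 * ((1 - (chi (ξ i * (R : ZMod l))).re) / sj j ξ) -
      (R : ℝ) ^ 2 * (1 - sj j ξ / (4 * d)) ^ K := ⟨_, rfl⟩
  have h4 : ∀ ξ : St d l, ‖dk l (ξ j)‖ ^ 2 * Φ ξ ≤ ‖dk l (ξ j)‖ ^ 2 *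
      (2 * (1 - (chi (ξ i * (R : ZMod l))).re) *
        ((1 / (4 * d) : ℝ) * ∑ k ∈ Finset.range K, lm ξ ^ k)) := by
    intro ξ
    by_cases hξ : ξ j = 0
    · refine mul_le_mul_of_nonneg_left ?_ (by positivity)
      rw [hΦ]
      simp only
      rcases (sj_nonneg j ξ).eq_or_lt with h | h
      · rw [num_zero hij h.symm, ← h]
        simp
      · have e1 : lm ξ = 1 - sj j ξ / (4 * d) := lm_eq_sj hd' hξ
        have e2 : (1 / (4 * d) : ℝ) * ∑ k ∈ Finset.range K, lm ξ ^ k =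
            (1 - lm ξ ^ K) / sj j ξ := by
          have e3 := mul_neg_geom_sum (lm ξ) K
          have e4 : 1 - lm ξ = sj j ξ / (4 * d) := by rw [e1]; ring
          rw [e4] at e3
          rw [← e3]
          field_simp
        rw [e2, ← e1]
        have e5 : 2 * ((1 - (chi (ξ i * (R : ZMod l))).re) / sj j ξ) ≤ (R : ℝ) ^ 2 := by
          rw [← mul_div_assoc, div_le_iff₀ h]
          have f1 := one_sub_chi (ξ i) R
          have f2 := mul_le_mul_of_nonneg_left (sj_ge hij ξ) (sq_nonneg (R : ℝ))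
          linarith
        have e6 : 0 ≤ lm ξ ^ K := pow_nonneg (lm_nonneg hd' ξ) _
        have e7 := mul_le_mul_of_nonneg_right e5 e6
        have e8 : 2 * (1 - (chi (ξ i * (R : ZMod l))).re) * ((1 - lm ξ ^ K) / sj j ξ) =
            2 * ((1 - (chi (ξ i * (R : ZMod l))).re) / sj j ξ) -
              2 * ((1 - (chi (ξ i * (R : ZMod l))).re) / sj j ξ) * lm ξ ^ K := by
          field_simp
        rw [e8]
        linarith
    · rw [dk_zero hξ]
      simp
  have h5 : (1 / (l : ℝ) ^ d) * ∑ ξ : St d l, ‖dk l (ξ j)‖ ^ 2 * Φ ξ =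
      l * (2 * gl l i j R - (R : ℝ) ^ 2 *
        ((1 / (l : ℝ) ^ d) * ∑ ξ : St d l, (1 - sj j ξ / (4 * d)) ^ K)) := by
    rw [sum_split j (fun t => ‖dk l t‖ ^ 2) (Φ := Φ), sum_dk le_rfl]
    · unfold gl
      rw [hΦ]
      simp only [Finset.sum_sub_distrib, ← Finset.mul_sum]
      field_simp
    · intro ξ c
      rw [hΦ]
      simp only
      rw [sj_add, Pi.add_apply, Pi.single_eq_of_ne hij, add_zero]
  have h6 := ret_bound (l := l) hd j hK hKl
  have h7 : (1 / (l : ℝ) ^ d) * ∑ ξ : St d l, ‖dk l (ξ j)‖ ^ 2 * Φ ξ ≤ l * D := by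
    rw [← h1, h2, h3]
    exact mul_le_mul_of_nonneg_left (Finset.sum_le_sum fun ξ _ => h4 ξ) (by positivity)
  rw [h5] at h7
  have h8 := le_of_mul_le_mul_left h7 hl0
  rw [← hD]
  have h9 := mul_le_mul_of_nonneg_left h6 (sq_nonneg (R : ℝ))
  linarith

end

end Pool.Agent.TH190.YV
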