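import Mathlib
import Pool.Agent.TH190.YV.Test2
import Pool.Agent.TH618.YM.AreaR

/-!
# The upper bound of the loops on the periodic lattice
-/

open MeasureTheory Matrix
open scoped Matrix.Norms.Frobenius ContDiff
open Pool.Agent.H906R3.YM hiding Pl
open Pool.Agent.W793.YM Pool.Agent.TH618.YM

namespace Pool.Agent.TH190.YV

set_option linter.unusedSectionVars false
set_option linter.unusedVariables false

noncomputable section

/-! ### the active plaquettes -/

section act

variable {d l : ℕ} [NeZero l]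

/-- the active links: the links of a slice in the cube of side `M` -/
def AA (j : Fin d) (M : ℕ) (t : ℕ) : Finset (Ih (d := d) (l := l) j (t : ZMod l)) :=
  Finset.univ.filter fun e => ∀ k, k ≠ j → wv e.1.1 k < M

lemma card_AA (j : Fin d) {M : ℕ} (hM : 1 ≤ M) (t : ℕ) :
    (AA (l := l) j M t).card ≤ d * M ^ d := by
  have h1 : (AA (l := l) j M t).card ≤
      ((box d M) ×ˢ (Finset.univ : Finset (Fin d))).card := by
    refine Finset.card_le_card_of_injOn
      (fun e => ((fun k => if k = j then 0 else wv e.1.1 k), e.1.2)) ?_ ?_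
    · intro e he
      have he' := (Finset.mem_filter.1 (Finset.mem_coe.1 he)).2
      refine Finset.mem_coe.2 (Finset.mem_product.2 ⟨mem_box.2 fun k => ?_, Finset.mem_univ _⟩)
      simp only
      split_ifs with hk
      · omega
      · exact he' k hk
    · intro e he e' he' h
      have h2 := congrArg Prod.fst h
      have h3 := congrArg Prod.snd h
      simp only at h2 h3
      refine Subtype.ext (Prod.ext (wv_inj (funext fun k => ?_)) h3)
      by_cases hk : k = j
      · subst hk
        unfold wv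
        rw [e.2.2, e'.2.2]
      · have h4 := congrFun h2 k
        simpa [hk] using h4
  rw [Finset.card_product, card_box, Finset.card_univ, Fintype.card_fin] at h1
  rw [mul_comm]; exact h1

variable {G : Type*} [Group G] [TopologicalSpace G] [IsTopologicalGroup G]
  [CompactSpace G] [SecondCountableTopology G] [MeasurableSpace G] [BorelSpace G]
  {N n : ℕ} {L : LD G N n}

lemma Xs_le (j : Fin d) {M : ℕ} (hM : 1 ≤ M) (hMl : M < l) (t : ℕ) (U : Ed d l → G) :
    Xs L j t (AA j M t) U ≤ 2 * d ^ 2 * M ^ (d + 1) * sB L M (tr (t • eT j) U) := by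
  have hd1 : 1 ≤ d := by
    have := j.pos; omega
  have hd1' : (1 : ℝ) ≤ d := by exact_mod_cast hd1
  have hM1 : (1 : ℝ) ≤ M := by exact_mod_cast hM
  have hs0 := sB_nonneg (L := L) M (tr (t • eT j) U)
  unfold Xs
  have h1 : ∀ e ∈ AA (l := l) j M t, dv L (plqT U e.1.1 j e.1.2) +
      dv L (tlT (tr (t • eT j) U) (e.1.1 - t • eT j) e.1.2) ≤
      (1 + d * M) * sB L M (tr (t • eT j) U) := by
    intro e he
    have he' := (Finset.mem_filter.1 he).2
    obtain ⟨⟨x, k⟩, hk, hx⟩ := e
    simp only at hk hx he' ⊢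
    have hw : ∀ i, wv (x - t • eT j) i < M := by
      intro i
      by_cases hi : i = j
      · subst hi
        rw [wv_zero (sub_j hx)]
        omega
      · have h2 : (x - t • eT j : St d l) i = x i := by simp [eT, hi]
        have h3 := he' i hi
        unfold wv at h3 ⊢
        rw [h2]; exact h3
    have h2 : plqT U x j k = plqT (tr (t • eT j) U) (x - t • eT j) j k := by
      rw [plqT_tr, sub_add_cancel]
    have h3 := le_sB'' (L := L) (tr (t • eT j) U) hw (Ne.symm hk)
    have h4 := dv_tlT (L := L) (tr (t • eT j) U) (k := k) hw (by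
      have := hw k; omega)
    rw [h2]
    calc _ ≤ sB L M (tr (t • eT j) U) + d * M * sB L M (tr (t • eT j) U) := add_le_add h3 h4
      _ = _ := by ring
  refine (Finset.sum_le_sum h1).trans ?_
  rw [Finset.sum_const, nsmul_eq_mul]
  have h2 : ((AA (l := l) j M t).card : ℝ) ≤ d * M ^ d := by exact_mod_cast card_AA j hM t
  have h3 : (1 : ℝ) + d * M ≤ 2 * (d * M) := by nlinarith
  calc ((AA (l := l) j M t).card : ℝ) * ((1 + d * M) * sB L M (tr (t • eT j) U)) ≤
      (d * M ^ d) * ((2 * (d * M)) * sB L M (tr (t • eT j) U)) := by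
        refine mul_le_mul h2 (mul_le_mul_of_nonneg_right h3 hs0) ?_ (by positivity)
        exact mul_nonneg (by positivity) hs0
    _ = _ := by rw [pow_succ]; ring

/-- the plaquettes of the cube -/
def PP (d M : ℕ) : Finset (Pt d × Fin d × Fin d) :=
  (box d M ×ˢ (Finset.univ ×ˢ Finset.univ)).filter fun p => p.2.1 < p.2.2

lemma card_PP (d M : ℕ) : (PP d M).card ≤ M ^ d * d ^ 2 := by
  refine (Finset.card_filter_le _ _).trans ?_
  rw [Finset.card_product, card_box, Finset.card_product, Finset.card_univ, Fintype.card_fin,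
    pow_two]

lemma sB_PP (j : Fin d) (M t : ℕ) (U : Ed d l → G) : sB L M (tr (t • eT j) U) =
    ∑ p ∈ PP d M, dv L (plqT U (ct l p.1 + t • eT j) p.2.1 p.2.2) := by
  unfold sB PP
  rw [Finset.sum_filter, Finset.sum_product]
  refine Finset.sum_congr rfl fun v _ => ?_
  rw [Finset.sum_product]
  refine Finset.sum_congr rfl fun a _ => Finset.sum_congr rfl fun b _ => ?_
  rw [plqT_tr]

end act

/-! ### the test functions -/

section tst

variable {d l : ℕ} [NeZero l]

/-- the site of the first line -/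
def x0 (l : ℕ) (j : Fin d) (K : ℕ) : St d l := ct l fun k => if k = j then 0 else K + 2

lemma wv_x0 (j : Fin d) {K : ℕ} (hK : K + 2 < l) (k : Fin d) :
    wv (x0 l j K) k = if k = j then 0 else K + 2 := by
  unfold x0
  rw [wv_ct]
  intro i
  split_ifs <;> omega

lemma x0_j (j : Fin d) (K : ℕ) : x0 l j K j = 0 := by
  unfold x0 ct
  simp

/-- the two test functions -/
def hh (l : ℕ) [NeZero l] (i j : Fin d) (R K : ℕ) (b : Bool) (z : St d l) : ℝ :=
  if b then |uK K (JJ (x0 l j K) i j R) z| else uK K (JJ (x0 l j K) i j R) z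

variable {i j : Fin d} {R K : ℕ}

lemma hh_inv (hd : 0 < d) (b : Bool) (z : St d l) :
    hh l i j R K b (z + eT j) = hh l i j R K b z := by
  unfold hh
  rw [uK_shift hd (eT j) K (fun z => JJ_shift (x0 l j K) i j R z) z]

lemma hh_sup (hd : 0 < d) (b : Bool) (z : St d l) : |hh l i j R K b z| ≤ K := by
  have h1 := uK_sup' hd (fun z => JJ_sup (x0 l j K) i j R z) K z
  rw [mul_one] at h1
  unfold hh
  split_ifs
  · rw [abs_abs]; exact h1
  · exact h1

lemma hh_supp (hd : 0 < d) {M : ℕ} (hM : 2 * K + R + 3 ≤ M) (hMl : M ≤ l) (b : Bool) :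
    SJ j 2 M (hh l i j R K b) := by
  have h1 : SJ j (K + 2) (K + 2 + R + 1) (JJ (x0 l j K) i j R) :=
    JJ_SJ (fun k hk => by rw [wv_x0 j (by omega), if_neg hk]) (by omega)
  have h2 := h1.uK hd (K := K) (by omega) (by omega)
  intro z hz
  refine (h2.mono (by omega) (by omega)) z ?_
  intro h0
  apply hz
  unfold hh
  rw [h0, abs_zero, ite_self]

/-- the difference of the values -/
def DD (l : ℕ) [NeZero l] (i j : Fin d) (R K : ℕ) : ℝ :=
  uK K (JJ (x0 l j K) i j R) (x0 l j K + R • eT i) - uK K (JJ (x0 l j K) i j R) (x0 l j K)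

lemma hh_anti (hd : 0 < d) (hij : i ≠ j) (z : St d l) :
    hh l i j R K false (rf i (2 * x0 l j K i + (R : ZMod l)) z) = -hh l i j R K false z :=
  uK_rf hd i _ K (fun z => JJ_rf hij R z) z

lemma hh_symm (hd : 0 < d) (hij : i ≠ j) (z : St d l) :
    hh l i j R K true (rf i (2 * x0 l j K i + (R : ZMod l)) z) = hh l i j R K true z := by
  have h1 := hh_anti (l := l) (R := R) (K := K) hd hij z
  unfold hh at h1 ⊢
  simp only [Bool.false_eq_true, if_false, if_true] at h1 ⊢
  rw [h1, abs_neg]

lemma rf_x0 : rf i (2 * x0 l j K i + (R : ZMod l)) (x0 l j K) = x0 l j K + R • eT i := by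
  funext k
  unfold rf
  by_cases hk : k = i
  · subst hk
    have h1 : (x0 l j K + R • eT k : St d l) k = x0 l j K k + (R : ZMod l) := by simp [eT]
    rw [h1, Function.update_self]; ring
  · rw [Function.update_of_ne hk]
    simp [eT, hk]

lemma hh_y (hd : 0 < d) (hij : i ≠ j) : hh l i j R K false (x0 l j K + R • eT i) =
    DD l i j R K / 2 := by
  have h1 := hh_anti (l := l) (R := R) (K := K) hd hij (x0 l j K)
  rw [rf_x0] at h1
  have h2 : hh l i j R K false (x0 l j K + R • eT i) - hh l i j R K false (x0 l j K) =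
      DD l i j R K := rfl
  linarith

lemma hh_x (hd : 0 < d) (hij : i ≠ j) : hh l i j R K false (x0 l j K) =
    -(DD l i j R K / 2) := by
  have h1 := hh_y (l := l) (R := R) (K := K) hd hij
  have h2 : hh l i j R K false (x0 l j K + R • eT i) - hh l i j R K false (x0 l j K) =
      DD l i j R K := rfl
  linarith

lemma hh_abs (b : Bool) (z : St d l) : |hh l i j R K b z| = |hh l i j R K false z| := by
  unfold hh
  cases b
  · rfl
  · simp

/-- the energies -/
def gg (l : ℕ) [NeZero l] (i j : Fin d) (R K : ℕ) (b : Bool) : ℝ :=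
  gmT j (0 : ZMod l) (hh l i j R K b) (hh l i j R K b)

lemma gg_le (hd : 0 < d) : gg l i j R K false ≤ DD l i j R K := gmT_uK hd 0

lemma gg_mono : gg l i j R K true ≤ gg l i j R K false := gmT_abs 0 _

lemma gg_lower (hd : 0 < d) (hij : i ≠ j) (hl : 2 * K + R + 3 ≤ l) (b : Bool) :
    (DD l i j R K / 2) ^ 2 ≤ (K + 1) * gg l i j R K b := by
  have h1 := gmT_lower (l := l) hij (h := hh l i j R K b) (hh_inv hd b)
    (x := x0 l j K) (p := K + 1) (by omega) (by
      by_contra hne
      have h2 := (hh_supp (M := 2 * K + R + 3) hd le_rfl hl b _ hne i hij).1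
      have h3 : wv (x0 l j K - (K + 1) • eT i) i = 1 := by
        unfold wv
        have h4 : (x0 l j K - (K + 1) • eT i : St d l) i = ((1 : ℕ) : ZMod l) := by
          have h5 : (x0 l j K - (K + 1) • eT i : St d l) i = x0 l j K i - ((K + 1 : ℕ) : ZMod l) := by
            simp [eT]
          rw [h5]
          unfold x0 ct
          simp only [if_neg hij]
          push_cast; ring
        rw [h4, ZMod.val_natCast_of_lt (by omega)]
      omega) 0
  have h6 : hh l i j R K b (x0 l j K) ^ 2 = (DD l i j R K / 2) ^ 2 := by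
    rw [← sq_abs, hh_abs, sq_abs, hh_x hd hij]; ring
  rw [h6] at h1
  push_cast at h1
  exact h1

lemma DD_low (hd : 0 < d) (hij : i ≠ j) (hK : 1 ≤ K) (hR : 1 ≤ R) (hl : R < l) :
    1 / (2 * d) ≤ DD l i j R K := uK_low0 hd hij hK hR hl

lemma gg_pos (hd : 0 < d) (hij : i ≠ j) (hK : 1 ≤ K) (hR : 1 ≤ R) (hl : 2 * K + R + 3 ≤ l)
    (b : Bool) : 0 < gg l i j R K b ∧ 1 / gg l i j R K b ≤ 16 * d ^ 2 * (K + 1) := by
  have hd0 : (0 : ℝ) < d := by exact_mod_cast hd
  have h1 := gg_lower (l := l) (R := R) (K := K) hd hij hl b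
  have h2 := DD_low (l := l) hd hij hK hR (by omega)
  have h3 : (1 / (4 * d) : ℝ) ^ 2 ≤ (DD l i j R K / 2) ^ 2 := by
    refine pow_le_pow_left₀ (by positivity) ?_ 2
    have : (1 / (4 * d) : ℝ) = 1 / (2 * d) / 2 := by field_simp; ring
    rw [this]; linarith
  have h4 : (1 / (4 * d) : ℝ) ^ 2 = 1 / (16 * d ^ 2) := by
    rw [div_pow]; ring
  have hK0 : (0 : ℝ) < K + 1 := by positivity
  have h5 : 0 < gg l i j R K b := by
    by_contra hneg
    rw [not_lt] at hneg
    have h6 : ((K : ℝ) + 1) * gg l i j R K b ≤ 0 := mul_nonpos_of_nonneg_of_nonpos hK0.le hneg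
    have h7 : (0 : ℝ) < 1 / (16 * d ^ 2) := by positivity
    linarith
  refine ⟨h5, ?_⟩
  rw [div_le_iff₀ h5]
  have h8 : 1 / (16 * (d : ℝ) ^ 2) ≤ (K + 1) * gg l i j R K b := by linarith
  rw [div_le_iff₀ (by positivity)] at h8
  calc (1 : ℝ) ≤ (K + 1) * gg l i j R K b * (16 * d ^ 2) := h8
    _ = _ := by ring

end tst

end

end Pool.Agent.TH190.YV
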