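import Mathlib
import Pool.Agent.TH190.YV.Bound

/-!
# The upper bound of the loops on the periodic lattice
-/

open MeasureTheory Matrix
open scoped Matrix.Norms.Frobenius ContDiff
open Pool.Agent.H906R3.YM hiding Pl
open Pool.Agent.W793.YM Pool.Agent.TH618.YM

namespace Pool.Agent.TH190.YV

set_option linter.unusedSectionVars false
set_option linter.unusedVariables false

noncomputable section

variable {G : Type*} [Group G] [TopologicalSpace G] [IsTopologicalGroup G] [CompactSpace G]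
  [SecondCountableTopology G] [MeasurableSpace G] [BorelSpace G] (μ : Measure G)
  [IsProbabilityMeasure μ] [μ.IsMulLeftInvariant] [μ.IsMulRightInvariant] [μ.IsInvInvariant]
  {N n : ℕ} {L : LD G N n} {d m : ℕ} [NeZero m] {i j : Fin d} {R K : ℕ}

lemma rect_inv' (U : Ed d (2 * m) → G) (x : St d (2 * m)) (T : ℕ) :
    (rect U x i j R T)⁻¹ = ln U j T x * ln U i R (x + T • eT j) * (ln U j T (x + R • eT i))⁻¹ *
      (ln U i R x)⁻¹ := by
  unfold rect
  group

lemma ln_dep (hij : i ≠ j) (k : ℕ) (x : St d (2 * m)) :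
    Dep (fun e : Ed d (2 * m) => e.2 ≠ j) (fun U : Ed d (2 * m) → G => ln U i k x) := by
  intro U U' h
  show ln U i k x = ln U' i k x
  induction k generalizing x with
  | zero => rfl
  | succ k ih => rw [ln_succ, ln_succ, ih, h _ hij]

/-- the bound with the exponential moment -/
lemma torus0 (hcas : LD.cas L = (-(n / N : ℝ)) • (1 : Mat N)) (hd : 3 ≤ d) (hij : i ≠ j)
    (hK : 1 ≤ K) (hR : 1 ≤ R) (hM : 2 * K + R + 3 < 2 * m) {β : ℝ} (hβ : 0 < β) {T : ℕ}
    (hT : T ≤ 2 * m) :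
    |Zt μ L β (fun U : Ed d (2 * m) → G => rt L (rect U (x0 (2 * m) j K) i j R T))| ≤
      N * (Real.exp (-(T * (kap K (∑ b, 1 / gg (2 * m) i j R K b) n
        (DD (2 * m) i j R K * (n / N)) β / (2 * β)))) *
        Zt μ L β (fun U : Ed d (2 * m) → G => Real.exp (16 * (K : ℝ) ^ 4 * n ^ 2 *
          (∑ b, 1 / gg (2 * m) i j R K b) ^ 2 / β *
          ∑ t ∈ Finset.range T, Xs L j t (AA j (2 * K + R + 3) t) U))) := by
  have hd' : 0 < d := by omega
  have hd0 : (0 : ℝ) < d := by exact_mod_cast hd'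
  have hgp := fun b => gg_pos (l := 2 * m) (R := R) (K := K) hd' hij hK hR (by omega) b
  have hDp : 0 < DD (2 * m) i j R K := by
    have := DD_low (l := 2 * m) hd' hij hK hR (by omega)
    have h2 : (0 : ℝ) < 1 / (2 * d) := by positivity
    linarith
  have hfun : (fun U : Ed d (2 * m) → G => rt L (rect U (x0 (2 * m) j K) i j R T)) =
      fun U => rt L (ln U j T (x0 (2 * m) j K) *
        ln U i R (x0 (2 * m) j K + T • eT j) *
        (ln U j T (x0 (2 * m) j K + R • eT i))⁻¹ * (ln U i R (x0 (2 * m) j K))⁻¹) := by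
    funext U
    rw [← rt_inv, rect_inv']
  rw [hfun]
  refine slab_main μ (L := L) (d := d) (l := 2 * m) (j := j) (F0 := K)
    (q := DD (2 * m) i j R K * (n / N)) (v := 16 * (K : ℝ) ^ 4 * n ^ 2 *
          (∑ b, 1 / gg (2 * m) i j R K b) ^ 2 / β)
    (x := x0 (2 * m) j K) (y := x0 (2 * m) j K + R • eT i) (h := hh (2 * m) i j R K)
    (c := fun b => 1 / gg (2 * m) i j R K b) (T := T) (A := fun t => AA j (2 * K + R + 3) t)
    (a0 := fun U => ln U i R (x0 (2 * m) j K))
    (aT := fun U => ln U i R (x0 (2 * m) j K + T • eT j)) hβ (x0_j j K) ?_ hT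
    (fun b z => hh_sup hd' b z) (fun b => ?_) (fun t b => ?_) (fun t => ?_) (fun t b e he => ?_)
    (by positivity) (fun t P u => ?_) rfl (ln_cont _ _ _) (ln_cont _ _ _) (ln_dep hij _ _)
    (ln_dep hij _ _)
  · have h1 : (x0 (2 * m) j K + R • eT i : St d (2 * m)) j = x0 (2 * m) j K j := by
      simp [eT, Ne.symm hij]
    rw [h1, x0_j]
  · have := (hgp b).1
    positivity
  · rw [gmT_time (hh_inv hd' b) (hh_inv hd' b)]
    have := (hgp b).1
    show 1 / gg (2 * m) i j R K b * gg (2 * m) i j R K b = 1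
    field_simp
  · exact gmT_ort hij (hh_anti hd' hij) (hh_symm hd' hij) (hh_inv hd' false) (hh_inv hd' true) _
  · have hsp := hh_supp (l := 2 * m) (i := i) (j := j) (R := R) (K := K) hd'
      (M := 2 * K + R + 3) le_rfl (by omega) b
    have hne : ¬∀ k, k ≠ j → wv e.1.1 k < 2 * K + R + 3 := by
      intro h
      apply he
      exact Finset.mem_filter.2 ⟨Finset.mem_univ _, h⟩
    constructor
    · by_contra h0
      exact hne fun k hk => (hsp _ h0 k hk).2
    · by_contra h0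
      apply hne
      intro k hk
      have h1 := hsp _ h0 k hk
      by_cases hke : k = e.1.2
      · subst hke
        have h2 := wv_pred' (z := e.1.1) (k := e.1.2) (by omega)
        omega
      · rw [wv_add_ne hke] at h1
        exact h1.2
  · have h1 := hq_two (L := L) (c0 := (n / N : ℝ)) hcas (P := P)
      (f := fun b e => hh (2 * m) i j R K b e.1) (c := fun b => 1 / gg (2 * m) i j R K b)
      (x := (x0 (2 * m) j K + t • eT j, j)) (y := (x0 (2 * m) j K + R • eT i + t • eT j, j))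
      (s := -(DD (2 * m) i j R K / 2))
      (by
        show hh (2 * m) i j R K false (x0 (2 * m) j K + t • eT j) = _
        rw [inv_smul (hh_inv hd' false), hh_x hd' hij])
      (by
        show hh (2 * m) i j R K false (x0 (2 * m) j K + R • eT i + t • eT j) = _
        rw [inv_smul (hh_inv hd' false), hh_y hd' hij, neg_neg])
      (by
        show hh (2 * m) i j R K true (x0 (2 * m) j K + t • eT j) = _
        rw [inv_smul (hh_inv hd' true)]
        have e1 : hh (2 * m) i j R K true (x0 (2 * m) j K) =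
            |hh (2 * m) i j R K false (x0 (2 * m) j K)| := rfl
        rw [e1, hh_x hd' hij])
      (by
        show hh (2 * m) i j R K true (x0 (2 * m) j K + R • eT i + t • eT j) = _
        rw [inv_smul (hh_inv hd' true)]
        have e1 : hh (2 * m) i j R K true (x0 (2 * m) j K + R • eT i) =
            |hh (2 * m) i j R K false (x0 (2 * m) j K + R • eT i)| := rfl
        rw [e1, hh_y hd' hij, abs_neg])
      (one_div_le_one_div_of_le (hgp true).1 gg_mono) u
    refine le_trans (mul_le_mul_of_nonneg_right ?_ (sq_nonneg _)) h1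
    have h2 : 1 / gg (2 * m) i j R K false *
        (4 * (-(DD (2 * m) i j R K / 2)) ^ 2 * (n / N)) =
        (DD (2 * m) i j R K * (n / N)) * (DD (2 * m) i j R K / gg (2 * m) i j R K false) := by
      ring
    rw [h2]
    have h3 : 1 ≤ DD (2 * m) i j R K / gg (2 * m) i j R K false := by
      rw [le_div_iff₀ (hgp false).1, one_mul]
      exact gg_le hd'
    exact le_mul_of_one_le_right (by positivity) h3

/-- the sum of the deviations -/
lemma sum_Xs (hM : 2 * K + R + 3 < 2 * m) (T : ℕ) (U : Ed d (2 * m) → G) :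
    ∑ t ∈ Finset.range T, Xs L j t (AA j (2 * K + R + 3) t) U ≤
      (2 * (d : ℝ) ^ 2 * ((2 * K + R + 3 : ℕ) : ℝ) ^ (d + 1)) *
        ∑ p ∈ PP d (2 * K + R + 3), ∑ t ∈ Finset.range T,
          dv L (plqT U (ct (2 * m) p.1 + t • eT j) p.2.1 p.2.2) := by
  rw [Finset.sum_comm, Finset.mul_sum]
  refine Finset.sum_le_sum fun t _ => ?_
  have h1 := Xs_le (L := L) j (M := 2 * K + R + 3) (by omega) hM t U
  rw [sB_PP] at h1
  exact h1

/-- the bound of the loops on the periodic lattice -/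
theorem torus1 (hN : 1 ≤ N) (hcas : LD.cas L = (-(n / N : ℝ)) • (1 : Mat N)) (hd : 3 ≤ d) :
    ∃ C : ℝ, 0 < C ∧ ∀ (m : ℕ) [NeZero m] (i j : Fin d), i ≠ j → ∀ (R K : ℕ), 1 ≤ K → 1 ≤ R →
    2 * K + R + 3 < 2 * m → ∀ β : ℝ, 1 ≤ β →
    C * (K : ℝ) ^ 6 * ((2 * K + R + 3 : ℕ) : ℝ) ^ (2 * d + 1) ≤ β * Real.sqrt β →
    ∀ T : ℕ, T ≤ 2 * m →
    wR2 μ L m β i j R T ≤ Real.exp (-(T * (n / (N * β) * gl (2 * m) i j R -
      C * (R : ℝ) ^ 2 / (β * K) - C * (K : ℝ) ^ 6 * ((2 * K + R + 3 : ℕ) : ℝ) ^ (2 * d + 1) /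
        (β * Real.sqrt β) * (1 + Real.log (1 / zz μ L β))))) := by
  have hd' : 0 < d := by omega
  have hd0 : (0 : ℝ) < d := by exact_mod_cast hd'
  have hN1 : (1 : ℝ) ≤ N := by exact_mod_cast hN
  have hN0 : (0 : ℝ) < N := by linarith
  have hn0 : (0 : ℝ) ≤ n := Nat.cast_nonneg _
  obtain ⟨c', hc'⟩ : ∃ c' : ℝ, c' = (2 + 2 * Real.sqrt (2 * d)) ^ (d - 1) := ⟨_, rfl⟩
  have hc'0 : 0 ≤ c' := by rw [hc']; positivity
  obtain ⟨C1, hC1⟩ : ∃ C1 : ℝ, C1 = 131072 * (d : ℝ) ^ 8 * n ^ 2 := ⟨_, rfl⟩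
  have hC10 : 0 ≤ C1 := by rw [hC1]; positivity
  obtain ⟨C2, hC2⟩ : ∃ C2 : ℝ, C2 = 128 * (d : ℝ) ^ 2 * n * (1 + 2 * n) := ⟨_, rfl⟩
  have hC20 : 0 ≤ C2 := by rw [hC2]; positivity
  refine ⟨C1 + C2 + n * c' + 1, by positivity, fun m _ i j hij R K hK hR hM β hβ hcond T hT => ?_⟩
  obtain ⟨C, hC⟩ : ∃ C : ℝ, C = C1 + C2 + n * c' + 1 := ⟨_, rfl⟩
  rw [← hC] at hcond ⊢
  have hC1C : C1 ≤ C := by
    have : 0 ≤ n * c' := by positivity
    rw [hC]; linarith
  have hβ0 : 0 < β := by linarith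
  have hm2 : 2 ≤ m := by omega
  obtain ⟨M, hMe⟩ : ∃ M, M = 2 * K + R + 3 := ⟨_, rfl⟩
  have hKR : (1 : ℝ) ≤ K := by exact_mod_cast hK
  have hK0 : (0 : ℝ) < K := by linarith
  have hM1 : (1 : ℝ) ≤ M := by
    have : 1 ≤ M := by omega
    exact_mod_cast this
  obtain ⟨s, hs⟩ : ∃ s, s = Real.sqrt β := ⟨_, rfl⟩
  have hs0 : 0 < s := by rw [hs]; exact Real.sqrt_pos.2 hβ0
  have hss : s * s = β := by rw [hs]; exact Real.mul_self_sqrt hβ0.le
  have h0 := torus0 μ (L := L) hcas hd hij hK hR hM hβ0 hT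
  have hgp := fun b => gg_pos (l := 2 * m) (R := R) (K := K) hd' hij hK hR (by omega) b
  obtain ⟨D, hD⟩ : ∃ D, D = DD (2 * m) i j R K := ⟨_, rfl⟩
  obtain ⟨C0, hC0⟩ : ∃ C0, C0 = ∑ b, 1 / gg (2 * m) i j R K b := ⟨_, rfl⟩
  rw [← hD, ← hC0, ← hMe] at h0
  rw [← hMe] at hcond ⊢
  rw [← hs] at hcond ⊢
  have hD0 : 0 < D := by
    have := DD_low (l := 2 * m) hd' hij hK hR (by omega)
    have h2 : (0 : ℝ) < 1 / (2 * d) := by positivity
    rw [hD]; linarith
  have hD1 : D ≤ 2 * K := by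
    have e1 := hh_sup (l := 2 * m) (i := i) (j := j) (R := R) (K := K) hd' false
      (x0 (2 * m) j K + R • eT i)
    rw [hh_y hd' hij] at e1
    have e2 := le_abs_self (DD (2 * m) i j R K / 2)
    rw [hD]; linarith
  have hD2 : 2 * gl (2 * m) i j R - (R : ℝ) ^ 2 * (c' * (1 / (K : ℝ))) ≤ D := by
    rw [hD, hc']
    exact uK_low hd hij hK (by omega)
  have hC00 : 0 ≤ C0 := by
    rw [hC0]
    exact Finset.sum_nonneg fun b _ => by have := (hgp b).1; positivity
  have hC0K : C0 ≤ 64 * d ^ 2 * K := by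
    rw [hC0, Fintype.sum_bool]
    have e1 := (hgp true).2
    have e2 := (hgp false).2
    have e3 : (16 : ℝ) * d ^ 2 * (K + 1) ≤ 32 * d ^ 2 * K := by
      have : (16 : ℝ) * d ^ 2 * (K + 1) ≤ 16 * d ^ 2 * (2 * K) :=
        mul_le_mul_of_nonneg_left (by linarith) (by positivity)
      linarith
    linarith
  -- the exponential moment
  obtain ⟨v, hv⟩ : ∃ v, v = 16 * (K : ℝ) ^ 4 * n ^ 2 * C0 ^ 2 / β := ⟨_, rfl⟩
  rw [← hv] at h0
  have hv0 : 0 ≤ v := by rw [hv]; positivity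
  obtain ⟨w, hw⟩ : ∃ w, w = v * (2 * (d : ℝ) ^ 2 * (M : ℝ) ^ (d + 1)) := ⟨_, rfl⟩
  have hw0 : 0 ≤ w := by rw [hw]; positivity
  have hcP : ((PP d M).card : ℝ) ≤ M ^ d * d ^ 2 := by exact_mod_cast card_PP d M
  have hY : ((PP d M).card : ℝ) * w ≤ C1 * K ^ 6 * M ^ (2 * d + 1) / β := by
    have e1 : v ≤ 65536 * (d : ℝ) ^ 4 * n ^ 2 * K ^ 6 / β := by
      rw [hv]
      refine div_le_div_of_nonneg_right ?_ hβ0.le
      have e2 : C0 ^ 2 ≤ (64 * (d : ℝ) ^ 2 * K) ^ 2 := pow_le_pow_left₀ hC00 hC0K 2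
      calc 16 * (K : ℝ) ^ 4 * n ^ 2 * C0 ^ 2 ≤
          16 * (K : ℝ) ^ 4 * n ^ 2 * (64 * (d : ℝ) ^ 2 * K) ^ 2 :=
            mul_le_mul_of_nonneg_left e2 (by positivity)
        _ = _ := by ring
    calc ((PP d M).card : ℝ) * w ≤ (M ^ d * d ^ 2) *
        ((65536 * (d : ℝ) ^ 4 * n ^ 2 * K ^ 6 / β) * (2 * (d : ℝ) ^ 2 * (M : ℝ) ^ (d + 1))) := by
          rw [hw]
          refine mul_le_mul hcP (mul_le_mul_of_nonneg_right e1 (by positivity)) (by positivity)
            (by positivity)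
      _ = C1 * K ^ 6 * M ^ (2 * d + 1) / β := by
          have e3 : (M : ℝ) ^ (2 * d + 1) = M ^ d * M ^ (d + 1) := by
            rw [← pow_add]; congr 1; ring
          rw [hC1, e3]; field_simp; ring
  obtain ⟨Y, hYe⟩ : ∃ Y, Y = C1 * K ^ 6 * M ^ (2 * d + 1) / β := ⟨_, rfl⟩
  rw [← hYe] at hY
  have hβs : (1 / s) * β = s := by
    rw [← hss]; field_simp
  have hθ : ((PP d M).card : ℝ) * w / ((1 / s) * β) ≤ 1 := by
    rw [hβs, div_le_one hs0]
    refine hY.trans ?_
    rw [hYe, div_le_iff₀ hβ0]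
    have e1 : C1 * (K : ℝ) ^ 6 * M ^ (2 * d + 1) ≤ C * K ^ 6 * M ^ (2 * d + 1) := by
      have : (0 : ℝ) ≤ K ^ 6 * M ^ (2 * d + 1) := by positivity
      nlinarith
    linarith
  have h1 := exp_tube μ (L := L) hm2 hβ0 j (PP d M) (fun p => ct (2 * m) p.1)
    (fun p => p.2.1) (fun p => p.2.2) (fun p hp => by
      have := (Finset.mem_filter.1 hp).2
      exact this.ne) hT hw0 (by positivity : 0 < 1 / s) hθ
  rw [hβs] at h1
  have hz := zz_pos μ (L := L) β
  obtain ⟨Λ, hΛ⟩ : ∃ Λ, Λ = Real.log (1 / zz μ L β) := ⟨_, rfl⟩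
  have hz1 : zz μ L β ≤ 1 := by
    unfold zz
    have e1 : ∫ g, Real.exp (-(β * we L g)) ∂μ ≤ ∫ _g : G, (1 : ℝ) ∂μ := by
      refine integral_mono (cont_integrable (Real.continuous_exp.comp
        (continuous_const.mul we_cont).neg)) (integrable_const _) fun g => ?_
      show Real.exp (-(β * we L g)) ≤ 1
      rw [Real.exp_le_one_iff]
      have := we_nonneg (L := L) g
      have := mul_nonneg hβ0.le this
      linarith
    simpa using e1
  have hΛ0 : 0 ≤ Λ := by
    rw [hΛ]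
    refine Real.log_nonneg ?_
    rw [le_div_iff₀ hz]; linarith
  rw [← hΛ] at h1 ⊢
  have h2 : EX μ L β (fun U : Ed d (2 * m) → G => Real.exp (v *
      ∑ t ∈ Finset.range T, Xs L j t (AA j M t) U)) ≤
      Real.exp (T * (Y / s * (1 + Λ))) := by
    have hc1 : Continuous fun U : Ed d (2 * m) → G => Real.exp (v *
        ∑ t ∈ Finset.range T, Xs L j t (AA j M t) U) :=
      Real.continuous_exp.comp (continuous_const.mul (continuous_finsetSum _ fun t _ =>
        Xs_cont _ _))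
    have hc2 : Continuous fun U : Ed d (2 * m) → G => Real.exp (w * ∑ p ∈ PP d M,
        ∑ t ∈ Finset.range T, dv L (plqT U (ct (2 * m) p.1 + t • eT j) p.2.1 p.2.2)) :=
      Real.continuous_exp.comp (continuous_const.mul (continuous_finsetSum _ fun p _ =>
        continuous_finsetSum _ fun t _ => dv_cont.comp (plqT_cont _ _ _)))
    have e1 := EX_mono μ (L := L) (β := β) hc1 hc2 (fun U => by
      rw [Real.exp_le_exp]
      have e2 := sum_Xs (L := L) (j := j) hM T U
      rw [← hMe] at e2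
      have e3 := mul_le_mul_of_nonneg_left e2 hv0
      rw [hw]
      rw [← mul_assoc] at e3
      exact e3)
    refine e1.trans (h1.trans ?_)
    rw [Real.exp_le_exp]
    refine mul_le_mul_of_nonneg_left ?_ (Nat.cast_nonneg _)
    have e4 : ((PP d M).card : ℝ) * w / s ≤ Y / s := div_le_div_of_nonneg_right hY hs0.le
    have e5 : 0 ≤ ((PP d M).card : ℝ) * w / s := by positivity
    calc ((PP d M).card : ℝ) * w * (1 / s) / 2 + ((PP d M).card : ℝ) * w / s * Λ =
        ((PP d M).card : ℝ) * w / s * (1 / 2 + Λ) := by ring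
      _ ≤ Y / s * (1 + Λ) := by
          refine mul_le_mul e4 (by linarith) (by linarith) (e5.trans e4)
  -- the conclusion
  have h3 : wR2 μ L m β i j R T ≤ Real.exp (-(T * (kap K C0 n (D * (n / N)) β / (2 * β)))) *
      Real.exp (T * (Y / s * (1 + Λ))) := by
    unfold wR2
    rw [div_le_iff₀ hN0]
    have e1 : EX μ L β (fun U : Ed d (2 * m) → G => rt L (rect U 0 i j R T)) =
        EX μ L β (fun U : Ed d (2 * m) → G => rt L (rect U (x0 (2 * m) j K) i j R T)) := by
      rw [← EX_tr μ (x0 (2 * m) j K) (fun U : Ed d (2 * m) → G => rt L (rect U 0 i j R T))]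
      simp only [rect_tr, zero_add]
    rw [e1]
    have e2 : EX μ L β (fun U : Ed d (2 * m) → G => rt L (rect U (x0 (2 * m) j K) i j R T)) ≤
        N * (Real.exp (-(T * (kap K C0 n (D * (n / N)) β / (2 * β)))) *
        EX μ L β (fun U : Ed d (2 * m) → G => Real.exp (v *
          ∑ t ∈ Finset.range T, Xs L j t (AA j M t) U))) := by
      unfold EX
      rw [div_le_iff₀ (Zt_pos μ _)]
      refine (le_abs_self _).trans (h0.trans (le_of_eq ?_))
      have := (Zt_pos μ (L := L) (d := d) (l := 2 * m) β).ne'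
      field_simp
    refine e2.trans ?_
    rw [mul_comm]
    refine mul_le_mul_of_nonneg_right ?_ hN0.le
    exact mul_le_mul_of_nonneg_left h2 (Real.exp_pos _).le
  refine h3.trans ?_
  rw [← Real.exp_add, Real.exp_le_exp]
  have h4 : n / (N * β) * gl (2 * m) i j R - C * (R : ℝ) ^ 2 / (β * K) -
      C * (K : ℝ) ^ 6 * (M : ℝ) ^ (2 * d + 1) / (β * s) * (1 + Λ) ≤
      kap K C0 n (D * (n / N)) β / (2 * β) - Y / s * (1 + Λ) := by
    have f1 : D * (n / N) - 2 * C2 * K ^ 4 / s ≤ kap K C0 n (D * (n / N)) β := by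
      unfold kap
      rw [← hs]
      obtain ⟨q, hq⟩ : ∃ q, q = D * (n / N : ℝ) := ⟨_, rfl⟩
      rw [← hq]
      have hq0 : 0 ≤ q := by rw [hq]; positivity
      have hq1 : 1 + q ≤ K * (1 + 2 * n) := by
        have g1 : q ≤ 2 * K * n := by
          rw [hq]
          have : (n : ℝ) / N ≤ n := div_le_self hn0 hN1
          exact mul_le_mul hD1 this (by positivity) (by positivity)
        nlinarith
      have g2 : 4 * (K : ℝ) ^ 2 * n * C0 / s * (1 + q) ≤ 2 * C2 * K ^ 4 / s := by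
        have g3 : 4 * (K : ℝ) ^ 2 * n * C0 ≤ 4 * (K : ℝ) ^ 2 * n * (64 * d ^ 2 * K) :=
          mul_le_mul_of_nonneg_left hC0K (by positivity)
        calc 4 * (K : ℝ) ^ 2 * n * C0 / s * (1 + q) ≤
            4 * (K : ℝ) ^ 2 * n * (64 * d ^ 2 * K) / s * (K * (1 + 2 * n)) := by
              refine mul_le_mul (div_le_div_of_nonneg_right g3 hs0.le) hq1 (by linarith)
                (by positivity)
          _ = _ := by rw [hC2]; ring
      have g4 : (1 - 4 * (K : ℝ) ^ 2 * n * C0 / s) * q - 4 * (K : ℝ) ^ 2 * n * C0 / s =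
          q - 4 * (K : ℝ) ^ 2 * n * C0 / s * (1 + q) := by ring
      rw [g4]; linarith
    have f2 : n / (N * β) * gl (2 * m) i j R - n * c' * (R : ℝ) ^ 2 / (β * K) ≤
        D * (n / N) / (2 * β) := by
      have g1 : (2 * gl (2 * m) i j R - (R : ℝ) ^ 2 * (c' * (1 / (K : ℝ)))) * (n / N) / (2 * β) ≤
          D * (n / N) / (2 * β) := by
        refine div_le_div_of_nonneg_right ?_ (by positivity)
        exact mul_le_mul_of_nonneg_right hD2 (by positivity)
      refine le_trans ?_ g1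
      have g2 : (2 * gl (2 * m) i j R - (R : ℝ) ^ 2 * (c' * (1 / (K : ℝ)))) * (n / N) / (2 * β) =
          n / (N * β) * gl (2 * m) i j R - (1 / (2 * N)) * (n * c' * (R : ℝ) ^ 2 / (β * K)) := by
        field_simp
      rw [g2]
      have g3 : (1 : ℝ) / (2 * N) ≤ 1 := by
        rw [div_le_one (by positivity)]; linarith
      have g4 : 0 ≤ n * c' * (R : ℝ) ^ 2 / (β * K) := by positivity
      have g5 := mul_le_mul_of_nonneg_right g3 g4
      linarith
    have f3 : kap K C0 n (D * (n / N)) β / (2 * β) ≥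
        D * (n / N) / (2 * β) - C2 * K ^ 4 / (β * s) := by
      have g1 : (D * (n / N) - 2 * C2 * K ^ 4 / s) / (2 * β) ≤
          kap K C0 n (D * (n / N)) β / (2 * β) :=
        div_le_div_of_nonneg_right f1 (by positivity)
      refine le_trans (le_of_eq ?_) g1
      field_simp
    have f4 : C2 * (K : ℝ) ^ 4 / (β * s) ≤ C2 * K ^ 6 * M ^ (2 * d + 1) / (β * s) * (1 + Λ) := by
      have g1 : (K : ℝ) ^ 4 ≤ K ^ 6 := pow_le_pow_right₀ hKR (by norm_num)
      have g2 : (1 : ℝ) ≤ M ^ (2 * d + 1) := one_le_pow₀ hM1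
      have g3 : C2 * (K : ℝ) ^ 4 ≤ C2 * K ^ 6 * M ^ (2 * d + 1) := by
        calc C2 * (K : ℝ) ^ 4 ≤ C2 * K ^ 6 := mul_le_mul_of_nonneg_left g1 hC20
          _ ≤ _ := le_mul_of_one_le_right (by positivity) g2
      refine (div_le_div_of_nonneg_right g3 (by positivity)).trans ?_
      exact le_mul_of_one_le_right (by positivity) (by linarith)
    have f5 : Y / s * (1 + Λ) = C1 * K ^ 6 * M ^ (2 * d + 1) / (β * s) * (1 + Λ) := by
      rw [hYe, div_div]
    have f6 : C * (R : ℝ) ^ 2 / (β * K) ≥ n * c' * (R : ℝ) ^ 2 / (β * K) := by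
      refine div_le_div_of_nonneg_right ?_ (by positivity)
      refine mul_le_mul_of_nonneg_right ?_ (by positivity)
      rw [hC]; linarith
    have f7 : C * (K : ℝ) ^ 6 * (M : ℝ) ^ (2 * d + 1) / (β * s) * (1 + Λ) ≥
        (C1 + C2) * (K : ℝ) ^ 6 * (M : ℝ) ^ (2 * d + 1) / (β * s) * (1 + Λ) := by
      refine mul_le_mul_of_nonneg_right ?_ (by linarith)
      refine div_le_div_of_nonneg_right ?_ (by positivity)
      rw [mul_assoc, mul_assoc C]
      refine mul_le_mul_of_nonneg_right ?_ (by positivity)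
      have : 0 ≤ n * c' := by positivity
      rw [hC]; linarith
    have f8 : (C1 + C2) * (K : ℝ) ^ 6 * (M : ℝ) ^ (2 * d + 1) / (β * s) * (1 + Λ) =
        C1 * K ^ 6 * M ^ (2 * d + 1) / (β * s) * (1 + Λ) +
        C2 * K ^ 6 * M ^ (2 * d + 1) / (β * s) * (1 + Λ) := by ring
    rw [f5]
    linarith
  have h5 := mul_le_mul_of_nonneg_left h4 (Nat.cast_nonneg T : (0 : ℝ) ≤ T)
  linarith

end

end Pool.Agent.TH190.YV
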