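import Mathlib
import Pool.Agent.TH190.YV.Bound2
import Pool.Agent.TH618.YM.Coul

/-!
# The lower bound of the static potential
-/

open MeasureTheory Matrix Filter
open scoped Matrix.Norms.Frobenius ContDiff Topology
open Pool.Agent.H906R3.YM hiding Pl
open Pool.Agent.W793.YM Pool.Agent.TH618.YM

namespace Pool.Agent.TH190.YV

set_option linter.unusedSectionVars false
set_option linter.unusedVariables false

noncomputable section

variable {G : Type*} [Group G] [TopologicalSpace G] [IsTopologicalGroup G] [CompactSpace G]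
  [SecondCountableTopology G] [MeasurableSpace G] [BorelSpace G] (μ : Measure G)
  [IsProbabilityMeasure μ] [μ.IsMulLeftInvariant] [μ.IsMulRightInvariant] [μ.IsInvInvariant]
  {N n : ℕ} {L : LD G N n} {d : ℕ}

/-- the normalisation of one plaquette -/
lemma log_zz : ∃ C : ℝ, 0 ≤ C ∧ ∀ β : ℝ, 1 ≤ β →
    Real.log (1 / zz μ L β) ≤ C + N ^ 2 * Real.log β := by
  obtain ⟨c, hc, h⟩ := zz_lower μ (L := L)
  refine ⟨|Real.log c|, abs_nonneg _, fun β hβ => ?_⟩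
  have hβ0 : 0 < β := by linarith
  obtain ⟨b, hb⟩ : ∃ b : ℝ, b = β ^ (1 / 4 : ℝ) := ⟨_, rfl⟩
  have hb4 : b ^ 4 = β := by
    rw [hb, ← Real.rpow_natCast, ← Real.rpow_mul hβ0.le]; norm_num
  have hb1 : 1 ≤ b := by rw [hb]; exact Real.one_le_rpow hβ (by norm_num)
  have h1 := h b hb1
  rw [hb4, pow_mul, hb4] at h1
  have hz := zz_pos μ (L := L) β
  have h2 : Real.log c ≤ Real.log (zz μ L β) + N ^ 2 * Real.log β := by
    have e1 := Real.log_le_log hc h1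
    rw [Real.log_mul hz.ne' (by positivity), Real.log_pow] at e1
    push_cast at e1
    exact e1
  rw [one_div, Real.log_inv]
  have h3 := neg_abs_le (Real.log c)
  linarith

/-- the bound of the loops in the infinite volume -/
theorem pot_low (hN : 1 ≤ N) (hcas : LD.cas L = (-(n / N : ℝ)) • (1 : Mat N)) (hd : 3 ≤ d) :
    ∃ C β₀ : ℝ, 0 < C ∧ 0 < β₀ ∧ ∀ β : ℝ, β₀ ≤ β → ∀ (i j : Fin d), i ≠ j →
    ∀ (w : ℕ → ℕ → ℝ) (s : ℕ → ℕ), Tendsto s atTop atTop →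
    (∀ R T, Tendsto (fun k => wR2 μ L (s k + 1) β i j R T) atTop (𝓝 (w R T))) →
    ∀ R : ℕ, 1 ≤ R → (R : ℝ) ≤ β ^ (1 / (672 * d + 1128) : ℝ) → ∀ T : ℕ,
    w R T ≤ Real.exp (-(T * (n / (N * β) * coul i j R -
      C * β ^ (-(1 + 1 / (672 * d + 1128)) : ℝ)))) := by
  obtain ⟨A, hA, htor⟩ := torus1 μ (L := L) hN hcas hd
  obtain ⟨C3, hC3, hzz⟩ := log_zz μ (L := L)
  have hd3 : (3 : ℝ) ≤ d := by exact_mod_cast hd
  obtain ⟨κ, hκ⟩ : ∃ κ : ℝ, κ = 1 / (672 * d + 1128) := ⟨_, rfl⟩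
  have hκ0 : 0 < κ := by rw [hκ]; positivity
  obtain ⟨B, hB⟩ : ∃ B : ℝ, B = A * (64 * 8 ^ (2 * d + 1)) := ⟨_, rfl⟩
  have hB0 : 0 < B := by rw [hB]; positivity
  obtain ⟨C4, hC4⟩ : ∃ C4 : ℝ, C4 = 1 + C3 + N ^ 2 * (672 * d + 1128) := ⟨_, rfl⟩
  have hC40 : 0 < C4 := by rw [hC4]; positivity
  refine ⟨A + B * C4, 1 + B, by positivity, by positivity,
    fun β hβ i j hij w s hs hw R hR hRz T => ?_⟩
  rw [← hκ] at hRz ⊢
  have hβ1 : 1 ≤ β := by linarith
  have hβB : B ≤ β := by linarith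
  have hβ0 : 0 < β := by linarith
  obtain ⟨z, hz⟩ : ∃ z : ℝ, z = β ^ κ := ⟨_, rfl⟩
  have hz1 : 1 ≤ z := by rw [hz]; exact Real.one_le_rpow hβ1 hκ0.le
  have hz0 : 0 < z := by linarith
  rw [← hz] at hRz
  have hzpow : ∀ k : ℕ, z ^ k = β ^ (κ * k) := fun k => by
    rw [hz, ← Real.rpow_natCast, ← Real.rpow_mul hβ0.le]
  have hsq : Real.sqrt β = z ^ (336 * d + 564) := by
    rw [hzpow, Real.sqrt_eq_rpow]
    congr 1
    rw [hκ]
    push_cast
    field_simp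
    ring
  obtain ⟨K, hK⟩ : ∃ K : ℕ, K = ⌈z ^ 3⌉₊ := ⟨_, rfl⟩
  have hK1 : z ^ 3 ≤ K := by rw [hK]; exact Nat.le_ceil _
  have hz3 : 1 ≤ z ^ 3 := one_le_pow₀ hz1
  have hK2 : (K : ℝ) ≤ 2 * z ^ 3 := by
    have := Nat.ceil_lt_add_one (by positivity : (0 : ℝ) ≤ z ^ 3)
    rw [hK]; linarith
  have hKn : 1 ≤ K := by
    have : (1 : ℝ) ≤ K := hz3.trans hK1
    exact_mod_cast this
  have hK0 : (0 : ℝ) < K := by linarith
  obtain ⟨M, hM⟩ : ∃ M, M = 2 * K + R + 3 := ⟨_, rfl⟩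
  have hM1 : (M : ℝ) ≤ 8 * z ^ 3 := by
    rw [hM]; push_cast
    have : z ≤ z ^ 3 := by
      calc z = z ^ 1 := (pow_one z).symm
        _ ≤ z ^ 3 := pow_le_pow_right₀ hz1 (by norm_num)
    have h8 : (R : ℝ) + 3 ≤ 4 * z ^ 3 := by linarith
    linarith
  have hKM : A * (K : ℝ) ^ 6 * (M : ℝ) ^ (2 * d + 1) ≤ B * z ^ (6 * d + 21) := by
    calc A * (K : ℝ) ^ 6 * (M : ℝ) ^ (2 * d + 1) ≤
        A * (2 * z ^ 3) ^ 6 * (8 * z ^ 3) ^ (2 * d + 1) := by gcongr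
      _ = B * (z ^ (3 * 6) * z ^ (3 * (2 * d + 1))) := by
          rw [hB, mul_pow, mul_pow, ← pow_mul, ← pow_mul]; ring
      _ = B * z ^ (6 * d + 21) := by rw [← pow_add]; congr 2; ring
  have hcond : A * (K : ℝ) ^ 6 * (M : ℝ) ^ (2 * d + 1) ≤ β * Real.sqrt β := by
    refine hKM.trans ?_
    rw [hsq]
    exact mul_le_mul hβB (pow_le_pow_right₀ hz1 (by omega)) (by positivity) hβ0.le
  obtain ⟨Λ, hΛ⟩ : ∃ Λ, Λ = Real.log (1 / zz μ L β) := ⟨_, rfl⟩
  have hlog : Real.log β ≤ (672 * d + 1128) * z := by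
    have e1 : Real.log z = κ * Real.log β := by rw [hz, Real.log_rpow hβ0]
    have e2 : Real.log z ≤ z := (Real.log_le_sub_one_of_pos hz0).trans (by linarith)
    have e3 : Real.log β = (672 * d + 1128) * Real.log z := by
      rw [e1, hκ]; field_simp
    rw [e3]
    exact mul_le_mul_of_nonneg_left e2 (by positivity)
  have hΛ1 : 1 + Λ ≤ C4 * z := by
    have e1 := hzz β hβ1
    rw [← hΛ] at e1
    have e2 : (N : ℝ) ^ 2 * Real.log β ≤ N ^ 2 * ((672 * d + 1128) * z) :=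
      mul_le_mul_of_nonneg_left hlog (by positivity)
    have e3 : (1 + C3) * 1 ≤ (1 + C3) * z := mul_le_mul_of_nonneg_left hz1 (by linarith)
    rw [hC4]
    linarith
  -- the errors
  obtain ⟨E, hE⟩ : ∃ E, E = A * (R : ℝ) ^ 2 / (β * K) + A * (K : ℝ) ^ 6 * (M : ℝ) ^ (2 * d + 1) /
    (β * Real.sqrt β) * (1 + Λ) := ⟨_, rfl⟩
  have hrp : β ^ (-(1 + κ)) = 1 / (β * z) := by
    rw [neg_add, Real.rpow_add hβ0, Real.rpow_neg_one, Real.rpow_neg hβ0.le, ← hz]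
    field_simp
  have hEC : E ≤ (A + B * C4) * β ^ (-(1 + κ)) := by
    rw [hrp, hE]
    have e1 : A * (R : ℝ) ^ 2 / (β * K) ≤ A / (β * z) := by
      rw [div_le_div_iff₀ (by positivity) (by positivity)]
      have f1 : (R : ℝ) ^ 2 ≤ z ^ 2 := pow_le_pow_left₀ (Nat.cast_nonneg _) hRz 2
      calc A * (R : ℝ) ^ 2 * (β * z) ≤ A * z ^ 2 * (β * z) := by gcongr
        _ = A * (β * z ^ 3) := by ring
        _ ≤ A * (β * K) := by gcongr
    have e2 : A * (K : ℝ) ^ 6 * (M : ℝ) ^ (2 * d + 1) / (β * Real.sqrt β) * (1 + Λ) ≤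
        B * C4 / (β * z) := by
      have hs0 : 0 < Real.sqrt β := Real.sqrt_pos.2 hβ0
      have f1 : A * (K : ℝ) ^ 6 * (M : ℝ) ^ (2 * d + 1) / (β * Real.sqrt β) * (1 + Λ) ≤
          B * z ^ (6 * d + 21) / (β * Real.sqrt β) * (C4 * z) := by
        have g1 : A * (K : ℝ) ^ 6 * (M : ℝ) ^ (2 * d + 1) / (β * Real.sqrt β) ≤
            B * z ^ (6 * d + 21) / (β * Real.sqrt β) :=
          div_le_div_of_nonneg_right hKM (by positivity)
        have g2 : 0 ≤ A * (K : ℝ) ^ 6 * (M : ℝ) ^ (2 * d + 1) / (β * Real.sqrt β) := by positivity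
        calc _ ≤ A * (K : ℝ) ^ 6 * (M : ℝ) ^ (2 * d + 1) / (β * Real.sqrt β) * (C4 * z) :=
              mul_le_mul_of_nonneg_left hΛ1 g2
          _ ≤ _ := mul_le_mul_of_nonneg_right g1 (by positivity)
      refine f1.trans ?_
      rw [div_mul_eq_mul_div, div_le_div_iff₀ (by positivity) (by positivity)]
      have f2 : z ^ (6 * d + 21) * z * z ≤ Real.sqrt β := by
        rw [hsq, ← pow_succ, ← pow_succ]
        exact pow_le_pow_right₀ hz1 (by omega)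
      calc B * z ^ (6 * d + 21) * (C4 * z) * (β * z) =
          B * C4 * (β * (z ^ (6 * d + 21) * z * z)) := by ring
        _ ≤ B * C4 * (β * Real.sqrt β) := by gcongr
    calc _ ≤ A / (β * z) + B * C4 / (β * z) := add_le_add e1 e2
      _ = _ := by ring
  -- the limit
  have hgl := gl_tendsto hij (d := d) (s := s) R hs
  have hlim : Tendsto (fun k => Real.exp (-(T * (n / (N * β) * gl (2 * (s k + 1)) i j R -
      (A + B * C4) * β ^ (-(1 + κ)))))) atTop (𝓝 (Real.exp (-(T * (n / (N * β) * coul i j R -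
      (A + B * C4) * β ^ (-(1 + κ))))))) := by
    refine (Real.continuous_exp.tendsto _).comp ?_
    exact (((hgl.const_mul _).sub_const _).const_mul _).neg
  refine le_of_tendsto_of_tendsto (hw R T) hlim ?_
  filter_upwards [hs.eventually_ge_atTop (M + T)] with k hk
  have h1 := htor (s k + 1) i j hij R K hKn hR (by omega) β hβ1 (by rw [← hM]; exact hcond) T
    (by omega)
  rw [← hM, ← hΛ] at h1
  refine h1.trans ?_
  rw [Real.exp_le_exp, neg_le_neg_iff]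
  refine mul_le_mul_of_nonneg_left ?_ (Nat.cast_nonneg _)
  have h2 : n / (N * β) * gl (2 * (s k + 1)) i j R - A * (R : ℝ) ^ 2 / (β * K) -
      A * (K : ℝ) ^ 6 * (M : ℝ) ^ (2 * d + 1) / (β * Real.sqrt β) * (1 + Λ) =
      n / (N * β) * gl (2 * (s k + 1)) i j R - E := by rw [hE]; ring
  rw [h2]
  linarith

end

end Pool.Agent.TH190.YV
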